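import Mathlib
import Pool.Agent.Y126.Toric.Final
import Pool.Agent.W529.Ta.Clifford

/-!
# Restriction of semisimple representations to normal subgroups
-/

set_option autoImplicit false
set_option linter.unusedSectionVars false

namespace Pool.Agent.E8helper1.AP

open Module Pool.Agent.H204R3.SP Pool.Agent.H204R3.GP Pool.Agent.W522.U Pool.Agent.W529.Ta

variable {K : Type} [Field K] {X : Type} [AddCommGroup X] [Module K X] {Γ : Type} [Group Γ]

/-- The restriction of a representation to a subgroup. -/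
def sub (R : Representation K Γ X) (H : Subgroup Γ) : Representation K H X := R.comp H.subtype

theorem sub_apply (R : Representation K Γ X) (H : Subgroup Γ) (g : H) (x : X) :
    sub R H g x = R g.1 x := rfl

/-- The subspace is stable under the subgroup. -/
def St (R : Representation K Γ X) (H : Subgroup Γ) (W : Submodule K X) : Prop :=
  ∀ s ∈ H, ∀ u ∈ W, R s u ∈ W

section st

variable {R : Representation K Γ X} {H : Subgroup Γ}

theorem St.sup {W W' : Submodule K X} (h : St R H W) (h' : St R H W') : St R H (W ⊔ W') := by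
  intro s hs u hu
  obtain ⟨a, ha, b, hb, rfl⟩ := Submodule.mem_sup.1 hu
  rw [map_add]
  exact Submodule.add_mem_sup (h s hs a ha) (h' s hs b hb)

theorem St.inf {W W' : Submodule K X} (h : St R H W) (h' : St R H W') : St R H (W ⊓ W') :=
  fun s hs u hu => ⟨h s hs u hu.1, h' s hs u hu.2⟩

theorem St.map [hH : H.Normal] {W : Submodule K X} (h : St R H W) (g : Γ) :
    St R H (W.map (R g)) := by
  rintro s hs _ ⟨u, hu, rfl⟩
  have h1 : g⁻¹ * s * g ∈ H := by
    have := hH.conj_mem s hs g⁻¹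
    rwa [inv_inv] at this
  refine ⟨R (g⁻¹ * s * g) u, h _ h1 u hu, ?_⟩
  rw [← Module.End.mul_apply, ← Module.End.mul_apply, ← map_mul, ← map_mul]
  congr 2
  group

theorem exists_min [FiniteDimensional K X] {W : Submodule K X} (h : St R H W) (h0 : W ≠ ⊥) :
    ∃ T ≤ W, St R H T ∧ T ≠ ⊥ ∧ ∀ T' ≤ T, St R H T' → T' = ⊥ ∨ T' = T := by
  classical
  have hex : ∃ n, ∃ T ≤ W, St R H T ∧ T ≠ ⊥ ∧ finrank K T = n := ⟨_, W, le_rfl, h, h0, rfl⟩
  obtain ⟨T, hTW, hT, hT0, hTn⟩ := Nat.find_spec hex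
  refine ⟨T, hTW, hT, hT0, fun T' hle hT' => ?_⟩
  by_cases h0 : T' = ⊥
  · exact Or.inl h0
  right
  have h1 := Nat.find_min' hex ⟨T', hle.trans hTW, hT', h0, rfl⟩
  rw [← hTn] at h1
  exact Submodule.eq_of_le_of_finrank_le hle h1

theorem compl_normal [FiniteDimensional K X] [H.Normal]
    (hss : ∀ U : Submodule K X, (∀ s, ∀ u ∈ U, R s u ∈ U) →
      ∃ U' : Submodule K X, (∀ s, ∀ u ∈ U', R s u ∈ U') ∧ IsCompl U U')
    {W : Submodule K X} (hW : St R H W) : ∃ W', St R H W' ∧ IsCompl W W' := by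
  classical
  -- the socle
  set M : Set (Submodule K X) := {T | St R H T ∧ T ≠ ⊥ ∧ ∀ T' ≤ T, St R H T' → T' = ⊥ ∨ T' = T}
    with hM
  have hmap : ∀ T ∈ M, ∀ g, T.map (R g) ∈ M := by
    rintro T ⟨h1, h2, h3⟩ g
    have hinv : ∀ (g : Γ) (W : Submodule K X), (W.map (R g⁻¹)).map (R g) = W := by
      intro g W
      rw [← Submodule.map_comp]
      have h4 : (R g).comp (R g⁻¹) = LinearMap.id := by
        ext v
        exact Rinv' g v
      rw [h4, Submodule.map_id]
    have hinv' : ∀ (g : Γ) (W : Submodule K X), (W.map (R g)).map (R g⁻¹) = W := by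
      intro g W
      rw [← Submodule.map_comp]
      have h4 : (R g⁻¹).comp (R g) = LinearMap.id := by
        ext v
        exact Rinv g v
      rw [h4, Submodule.map_id]
    refine ⟨h1.map g, fun h => h2 ?_, fun T' hT' hT'' => ?_⟩
    · rw [← hinv' g T, h, Submodule.map_bot]
    · rcases h3 (T'.map (R g⁻¹)) (by rw [← hinv' g T]; exact Submodule.map_mono hT')
        (hT''.map g⁻¹) with h4 | h4
      · left
        rw [← hinv g T', h4, Submodule.map_bot]
      · right
        rw [← h4, hinv]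
  have hsoc : sSup M = ⊤ := by
    obtain ⟨C, hC, hcompl⟩ := hss (sSup M) (by
      intro g
      have h1 : sSup M ≤ (sSup M).comap (R g) := by
        refine sSup_le fun U hU => ?_
        rw [← Submodule.map_le_iff_le_comap]
        exact le_sSup (hmap U hU g)
      exact h1)
    have hC0 : C = ⊥ := by
      by_contra hne
      obtain ⟨T, hTC, hT, hT0, hTm⟩ := exists_min (R := R) (H := H) (W := C)
        (fun s _ u hu => hC s u hu) hne
      apply hT0
      have h1 : T ≤ sSup M := le_sSup (show T ∈ M from ⟨hT, hT0, hTm⟩)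
      have h2 := hcompl.disjoint
      rw [eq_bot_iff]
      exact h2 h1 hTC
    rw [hC0] at hcompl
    exact eq_top_of_isCompl_bot hcompl
  -- a maximal complement
  obtain ⟨C, hC, hCW, hCmax⟩ : ∃ C : Submodule K X, St R H C ∧ C ⊓ W = ⊥ ∧
      ∀ C', St R H C' → C' ⊓ W = ⊥ → finrank K C' ≤ finrank K C := by
    have hb : ∀ n, (∃ C : Submodule K X, St R H C ∧ C ⊓ W = ⊥ ∧ finrank K C = n) →
        n ≤ finrank K X := by
      rintro n ⟨C, -, -, rfl⟩
      exact Submodule.finrank_le C
    have h0 : ∃ C : Submodule K X, St R H C ∧ C ⊓ W = ⊥ ∧ finrank K C = 0 :=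
      ⟨⊥, fun x _ u hu => by
        rw [Submodule.mem_bot] at hu ⊢
        rw [hu, map_zero], bot_inf_eq _, finrank_bot K X⟩
    have h1 := Nat.findGreatest_spec (P := fun n => ∃ C : Submodule K X, St R H C ∧ C ⊓ W = ⊥ ∧
      finrank K C = n) (Nat.zero_le (finrank K X)) h0
    obtain ⟨C, hC, hCW, hCn⟩ := h1
    refine ⟨C, hC, hCW, fun C' hC' hCW' => ?_⟩
    rw [hCn]
    exact Nat.le_findGreatest (hb _ ⟨C', hC', hCW', rfl⟩) ⟨C', hC', hCW', rfl⟩
  have htop : C ⊔ W = ⊤ := by
    rw [eq_top_iff, ← hsoc]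
    refine sSup_le fun T hT => ?_
    by_contra hcon
    have hinf : T ⊓ (C ⊔ W) = ⊥ := by
      rcases hT.2.2 _ inf_le_left (hT.1.inf (hC.sup hW)) with h | h
      · exact h
      · exact absurd (inf_eq_left.1 h) hcon
    have h1 : (C ⊔ T) ⊓ W = ⊥ := by
      rw [eq_bot_iff]
      rintro x ⟨hx, hxW⟩
      obtain ⟨c, hc, t, ht, rfl⟩ := Submodule.mem_sup.1 hx
      have h2 : t ∈ T ⊓ (C ⊔ W) := by
        refine ⟨ht, ?_⟩
        have h3 : t = -c + (c + t) := by abel
        rw [h3]
        exact Submodule.add_mem_sup (C.neg_mem hc) hxW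
      rw [hinf, Submodule.mem_bot] at h2
      rw [h2, add_zero] at hxW ⊢
      rw [Submodule.mem_bot, ← Submodule.mem_bot K, ← hCW]
      exact ⟨hc, hxW⟩
    have h2 := hCmax _ (hC.sup hT.1) h1
    have h3 : C = C ⊔ T := Submodule.eq_of_le_of_finrank_le le_sup_left h2
    apply hT.2.1
    rw [← hinf, eq_comm, inf_eq_left]
    have h4 : T ≤ C := by
      rw [h3]
      exact le_sup_right
    exact h4.trans le_sup_left
  refine ⟨C, hC, ?_⟩
  constructor
  · rw [disjoint_iff, inf_comm]
    exact hCW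
  · rw [codisjoint_iff, sup_comm]
    exact htop

end st

/-- **Clifford.** The restriction to a normal subgroup has projections. -/
theorem hasProj_sub [CharZero K] [FiniteDimensional K X] {R : Representation K Γ X}
    {H : Subgroup Γ} [H.Normal] (hss : HasProj R) : HasProj (sub R H) := by
  intro Δ hΔ U hU
  have h1 := Pool.Agent.W529.Ta.clifford (sub R H) (fun U hU => by
    obtain ⟨U', hU', hc⟩ := compl_normal (R := R) (H := H) (fun U hU => by
      obtain ⟨P, hP1, hP2, hP3⟩ := hss ⊤ inferInstance U (fun s _ => hU s)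
      obtain ⟨U', h1, h2⟩ := compl_of_proj (Set.range R) U P hP1 hP2 (by
        rintro _ ⟨s, rfl⟩ v
        exact hP3 s trivial v)
      exact ⟨U', fun s u hu => h1 _ ⟨s, rfl⟩ u hu, h2⟩) (W := U)
        (fun s hs u hu => hU ⟨s, hs⟩ u hu)
    exact ⟨U', fun s u hu => hU' s.1 s.2 u hu, hc⟩) Δ hΔ
  obtain ⟨U', hU', hc⟩ := h1 U (by
    rintro _ ⟨s, hs, rfl⟩ u hu
    exact hU s hs u hu)
  refine ⟨U.subtype.comp (Submodule.projectionOnto U U' hc), fun v => SetLike.coe_mem _,
    fun u hu => ?_, fun s hs v => ?_⟩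
  · rw [LinearMap.comp_apply]
    have := Submodule.projectionOnto_apply_left hc ⟨u, hu⟩
    rw [this]
    rfl
  · have hv : v ∈ U ⊔ U' := by
      rw [hc.sup_eq_top]
      trivial
    obtain ⟨a, ha, b, hb, rfl⟩ := Submodule.mem_sup.1 hv
    have h2 : ∀ a ∈ U, ∀ b ∈ U', U.subtype.comp (Submodule.projectionOnto U U' hc) (a + b) = a := by
      intro a ha b hb
      rw [LinearMap.comp_apply, map_add]
      have h3 := Submodule.projectionOnto_apply_left hc ⟨a, ha⟩
      have h4 := Submodule.projectionOnto_apply_right hc ⟨b, hb⟩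
      rw [h3, h4, add_zero]
      rfl
    rw [h2 a ha b hb, map_add, h2 _ (hU s hs a ha) _ (hU' _ ⟨s, hs, rfl⟩ b hb)]

end Pool.Agent.E8helper1.AP
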