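import Mathlib
import Pool.Agent.E8helper1.AP.Normal

/-!
# Strongly irreducible subspaces of a representation and of its restriction to a normal subgroup
-/

set_option autoImplicit false
set_option linter.unusedSectionVars false

namespace Pool.Agent.E8helper1.AP

open Module Pool.Agent.H204R3.SP Pool.Agent.H204R3.GP Pool.Agent.W522.U Pool.Agent.W529.Ta

variable {K : Type} [Field K] [CharZero K] {X : Type} [AddCommGroup X] [Module K X]
  [FiniteDimensional K X] {Γ : Type} [Group Γ] {R : Representation K Γ X} {χ : Γ →* K}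
  {H : Subgroup Γ}

/-- The character of the subgroup. -/
abbrev chr (χ : Γ →* K) (H : Subgroup Γ) : H →* K := χ.comp H.subtype

theorem isTate_sub {m : ℕ} {φ : MultilinearMap K (fun _ : Fin m × Fin 2 => X) K}
    (h : IsTate R χ m φ) : IsTate (sub R H) (chr χ H) m φ := by
  obtain ⟨Δ, hΔ, h⟩ := h
  exact ⟨Δ.subgroupOf H, inferInstance, fun s hs v => h s.1 hs v⟩

theorem isTate2_sub {B : X →ₗ[K] X →ₗ[K] K} (h : IsTate2 R χ B) :
    IsTate2 (sub R H) (chr χ H) B := by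
  obtain ⟨Δ, hΔ, h⟩ := h
  exact ⟨Δ.subgroupOf H, inferInstance, fun s hs v => h s.1 hs v⟩

theorem pot_sub {U : Submodule K X} (h : Pot R U) : Pot (sub R H) U := by
  obtain ⟨Δ, hΔ, h⟩ := h
  exact ⟨Δ.subgroupOf H, inferInstance, fun s hs v => h s.1 hs v⟩

theorem du_sub {U U' : Submodule K X} (h : Du R χ U U') : Du (sub R H) (chr χ H) U U' := by
  obtain ⟨Δ, hΔ, B, h0, h⟩ := h
  exact ⟨Δ.subgroupOf H, inferInstance, B, h0, fun s hs => h s.1 hs⟩

theorem tw_sub {U U' : Submodule K X} {ψ : Γ → K} (h : Tw R ψ U U') :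
    Tw (sub R H) (fun g => ψ g.1) U U' := by
  obtain ⟨Δ, hΔ, T, h1, h2, h⟩ := h
  exact ⟨Δ.subgroupOf H, inferInstance, T, h1, h2, fun s hs => h s.1 hs⟩

theorem lieT_sub_le : lieT (sub R H) (chr χ H) ≤ lieT R χ :=
  fun _ hx m φ hφ => hx m φ (isTate_sub hφ)

/-- The conjugate of a subgroup of a normal subgroup. -/
def conjS (g : Γ) [H.Normal] (Δ : Subgroup H) : Subgroup H :=
  Δ.comap (MulAut.conjNormal g : MulAut H).toMonoidHom

theorem conjS_fi (g : Γ) [H.Normal] {Δ : Subgroup H} (hΔ : Δ.FiniteIndex) :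
    (conjS g Δ).FiniteIndex := ⟨by
  have h1 : (conjS g Δ).index = Δ.index := Subgroup.index_comap_of_surjective
    (f := ((MulAut.conjNormal g : MulAut H) : H ≃* H).toMonoidHom) Δ (MulEquiv.surjective _)
  rw [h1]
  exact hΔ.index_ne_zero⟩

theorem mem_conjS {g : Γ} [H.Normal] {Δ : Subgroup H} {s : H} (hs : s ∈ conjS g Δ) :
    ∃ s' ∈ Δ, (s' : Γ) = g * s * g⁻¹ :=
  ⟨_, hs, MulAut.conjNormal_apply g s⟩

theorem chi_conj (g s : Γ) : χ (g * s * g⁻¹) = χ s := by
  rw [map_mul, map_mul, mul_right_comm, ← map_mul, mul_inv_cancel, map_one, one_mul]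

theorem R_conj (g s : Γ) (v : X) : R (g * s * g⁻¹) (R g v) = R g (R s v) := by
  rw [map_mul, map_mul, Module.End.mul_apply, Module.End.mul_apply, Rinv]

/-- The Lie algebra of the normal subgroup is stable under conjugation by the group. -/
theorem lieT_conj_sub [H.Normal] (g : Γ) {x : Module.End K X}
    (hx : x ∈ lieT (sub R H) (chr χ H)) : R g * x * R g⁻¹ ∈ lieT (sub R H) (chr χ H) := by
  intro m φ hφ v
  obtain ⟨Δ, hΔ, hφ⟩ := hφ
  let φ' : MultilinearMap K (fun _ : Fin m × Fin 2 => X) K := φ.compLinearMap (fun _ => R g)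
  have hφ' : IsTate (sub R H) (chr χ H) m φ' := by
    refine ⟨conjS g Δ, conjS_fi g hΔ, fun t ht v => ?_⟩
    obtain ⟨t', ht', htt⟩ := mem_conjS ht
    have h2 := hφ _ ht' (fun k => R g (v k))
    change φ (fun k => R g (R t.1 (v k))) = χ t.1 ^ m * φ (fun k => R g (v k))
    have h3 : ∀ k, sub R H t' (R g (v k)) = R g (R t.1 (v k)) := by
      intro k
      rw [sub_apply, htt, R_conj]
    have h4 : chr χ H t' = χ t.1 := by
      change χ t'.1 = _
      rw [htt, chi_conj]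
    simp only [h3, h4] at h2
    exact h2
  have h1 := hx m φ' hφ' (fun k => R g⁻¹ (v k))
  rw [← h1]
  refine Finset.sum_congr rfl fun k _ => ?_
  change _ = φ (fun l => R g (Function.update (fun k => R g⁻¹ (v k)) k (x (R g⁻¹ (v k))) l))
  congr 1
  funext l
  by_cases h : l = k
  · subst h
    rw [Function.update_self, Function.update_self]
    rfl
  · rw [Function.update_of_ne h, Function.update_of_ne h, Rinv']

/-- Pairings of strongly irreducible subspaces are unique up to scalars. -/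
theorem pair_unique [IsAlgClosed K] {U U' : Submodule K X} (hU : SI R U) (hU' : SI R U')
    {Δ : Subgroup Γ} (hΔ : Δ.FiniteIndex) {B : X →ₗ[K] X →ₗ[K] K}
    (h0 : ∃ u ∈ U, ∃ v ∈ U', B u v ≠ 0)
    (hB : ∀ g ∈ Δ, ∀ u ∈ U, ∀ v ∈ U', B (R g u) (R g v) = χ g * B u v)
    {Δ' : Subgroup Γ} (hΔ' : Δ'.FiniteIndex) {B' : X →ₗ[K] X →ₗ[K] K}
    (hB' : ∀ g ∈ Δ', ∀ u ∈ U, ∀ v ∈ U', B' (R g u) (R g v) = χ g * B' u v) :
    ∃ c : K, ∀ u ∈ U, ∀ v ∈ U', B' u v = c * B u v := by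
  obtain ⟨-, hb⟩ := du_bij hU hU' hΔ B h0 hB
  let e := LinearEquiv.ofBijective _ hb
  have he : ∀ (u : U) (v : U'), e u v = B u v := fun _ _ => rfl
  let f : Module.End K U := e.symm.toLinearMap.comp (B'.compl₁₂ U.subtype U'.subtype)
  have hf : ∀ (u : U) (v : U'), B (f u : X) v = B' u v := by
    intro u v
    have h1 : e (f u) = B'.compl₁₂ U.subtype U'.subtype u := e.apply_symm_apply _
    rw [← he, h1]
    rfl
  have hnt : Nontrivial U := by
    rw [Submodule.nontrivial_iff_ne_bot]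
    exact hU.1
  obtain ⟨c, hc⟩ := Module.End.exists_eigenvalue f
  obtain ⟨u0, hu0⟩ := hc.exists_hasEigenvector
  obtain ⟨Δ1, hΔ1, h1⟩ := hU.2.1
  obtain ⟨Δ2, hΔ2, h2⟩ := hU'.2.1
  let W : Submodule K X :=
    { carrier := {u | u ∈ U ∧ ∀ v ∈ U', B' u v = c * B u v}
      add_mem' := fun ha hb => ⟨U.add_mem ha.1 hb.1, fun v hv => by
        rw [map_add, LinearMap.add_apply, ha.2 v hv, hb.2 v hv, map_add, LinearMap.add_apply,
          mul_add]⟩
      zero_mem' := ⟨U.zero_mem, fun v _ => by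
        rw [map_zero, map_zero, LinearMap.zero_apply, mul_zero]⟩
      smul_mem' := fun a x hx => ⟨U.smul_mem _ hx.1, fun v hv => by
        rw [map_smul, map_smul, LinearMap.smul_apply, LinearMap.smul_apply, hx.2 v hv, smul_eq_mul,
          smul_eq_mul]
        ring⟩ }
  have hW : Pot R W := by
    refine ⟨(Δ ⊓ Δ') ⊓ (Δ1 ⊓ Δ2), inferInstance, fun g hg u hu =>
      ⟨h1 g hg.2.1 u hu.1, fun v hv => ?_⟩⟩
    have hv' := h2 _ (Δ2.inv_mem hg.2.2) v hv
    have h3 := hB g hg.1.1 u hu.1 (R g⁻¹ v) hv'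
    have h4 := hB' g hg.1.2 u hu.1 (R g⁻¹ v) hv'
    rw [Rinv'] at h3 h4
    rw [h3, h4, hu.2 _ hv']
    ring
  rcases hU.2.2 W (fun u hu => hu.1) hW with h3 | h3
  · exfalso
    apply hu0.2
    have h4 : (u0 : X) ∈ W := by
      refine ⟨u0.2, fun v hv => ?_⟩
      have h5 := hf u0 ⟨v, hv⟩
      have h6 : f u0 = c • u0 := hu0.apply_eq_smul
      rw [h6, Submodule.coe_smul, map_smul, LinearMap.smul_apply, smul_eq_mul] at h5
      exact h5.symm
    rw [h3, Submodule.mem_bot] at h4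
    exact Subtype.ext h4
  · refine ⟨c, fun u hu v hv => ?_⟩
    rw [← h3] at hu
    exact hu.2 v hv

/-- Potential isomorphisms for a normal subgroup between self-dual subspaces are potential
isomorphisms for the group. -/
theorem tw_of_sub [IsAlgClosed K] [H.Normal] {U U' : Submodule K X} (hU : SI R U) (hU' : SI R U')
    (hUH : SI (sub R H) U) (hUH' : SI (sub R H) U') (hd : Du R χ U U) (hd' : Du R χ U' U')
    (h : Tw (sub R H) (fun _ => 1) U U') : Tw R (fun _ => 1) U U' := by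
  classical
  obtain ⟨Δ, hΔ, T, hTU, h0, hT⟩ := h
  obtain ⟨Δ1, hΔ1, h1⟩ := hU.2.1
  obtain ⟨Δ2, hΔ2, h2⟩ := hU'.2.1
  obtain ⟨Δ3, hΔ3, B, hB0, hB⟩ := id hd'
  have hl := du_left hU' hU'.2.1 hΔ3 hB0 hB
  have hmap := tw_map (R := sub R H) (ψ := fun _ => 1) hUH hUH' hΔ hTU h0 hT
  -- the pairing of `U` and `U'`
  have hb : ∀ g ∈ Δ ⊓ Δ3.subgroupOf H, ∀ u ∈ U, ∀ v ∈ U',
      (B.comp T) (sub R H g u) (sub R H g v) = chr χ H g * (B.comp T) u v := by
    intro g hg u hu v hv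
    rw [LinearMap.comp_apply, LinearMap.comp_apply, hT g hg.1 u hu, one_smul]
    exact hB g.1 hg.2 _ (hTU u hu) v hv
  have hb0 : ∃ u ∈ U, ∃ v ∈ U', (B.comp T) u v ≠ 0 := by
    obtain ⟨u, hu, v, hv, huv⟩ := hB0
    rw [← hmap] at hu
    obtain ⟨u', hu', rfl⟩ := hu
    exact ⟨u', hu', v, hv, huv⟩
  have key : ∀ g ∈ Δ1 ⊓ Δ2, ∃ c : K, ∀ u ∈ U, R g⁻¹ (T (R g u)) = c • T u := by
    intro g hg
    obtain ⟨c, hc⟩ := pair_unique (R := sub R H) (χ := chr χ H) hUH hUH'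
      (Δ := Δ ⊓ Δ3.subgroupOf H) inferInstance (B := B.comp T) hb0 hb
      (Δ' := conjS g Δ ⊓ Δ3.subgroupOf H) (by
        have := conjS_fi g hΔ
        infer_instance) (B' := B.comp ((R g⁻¹).comp (T.comp (R g)))) (by
        intro s hs u hu v hv
        obtain ⟨s', hs', hss⟩ := mem_conjS hs.1
        have hTg : ∀ u ∈ U, R g⁻¹ (T (R g (R s.1 u))) = R s.1 (R g⁻¹ (T (R g u))) := by
          intro u hu
          have h3 := hT s' hs' (R g u) (h1 g hg.1 u hu)
          rw [one_smul, sub_apply, sub_apply, hss, R_conj] at h3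
          rw [h3]
          conv_lhs => rw [← Rinv' (R := R) g (T (R g u)), R_conj, Rinv]
        change B (R g⁻¹ (T (R g (R s.1 u)))) (R s.1 v) = χ s.1 * B (R g⁻¹ (T (R g u))) v
        rw [hTg u hu]
        exact hB s.1 hs.2 _ (h2 _ (Δ2.inv_mem hg.2) _ (hTU _ (h1 g hg.1 u hu))) v hv)
    refine ⟨c, fun u hu => ?_⟩
    rw [← sub_eq_zero]
    refine hl _ (U'.sub_mem (h2 _ (Δ2.inv_mem hg.2) _ (hTU _ (h1 g hg.1 u hu)))
      (U'.smul_mem _ (hTU u hu))) fun v hv => ?_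
    rw [map_sub, LinearMap.sub_apply, map_smul, LinearMap.smul_apply, smul_eq_mul, sub_eq_zero]
    exact hc u hu v hv
  let ψ : Γ → K := fun g => if h : g ∈ Δ1 ⊓ Δ2 then (key g h).choose else 1
  refine sp_twist hU hU' hd hd' (ψ := ψ) ⟨Δ1 ⊓ Δ2, inferInstance, T, hTU, h0, fun g hg u hu => ?_⟩
  have h3 := (key g hg).choose_spec u hu
  have h4 : ψ g = (key g hg).choose := dif_pos hg
  rw [h4, ← map_smul, ← h3, Rinv']

end Pool.Agent.E8helper1.AP
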