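import Mathlib
import Pool.Agent.E8helper1.AP.Sub

/-!
# Extension of operators on the representatives to the whole space
-/

set_option autoImplicit false
set_option linter.unusedSectionVars false

namespace Pool.Agent.E8helper1.AP

open Module Pool.Agent.H204R3.SP Pool.Agent.H204R3.GP Pool.Agent.W522.U Pool.Agent.W529.Ta

variable {K : Type} [Field K] [CharZero K] {X : Type} [AddCommGroup X] [Module K X]
  [FiniteDimensional K X] {Γ : Type} [Group Γ] {R : Representation K Γ X} {χ : Γ →* K}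

/-- A decomposition of the identity over the representatives. -/
structure Dec (R : Representation K Γ X) {s : ℕ} (W : Fin s → Submodule K X) where
  /-- the number of terms -/
  n : ℕ
  /-- the coefficients -/
  c : Fin n → K
  /-- the representative -/
  idx : Fin n → Fin s
  /-- the projection -/
  p : ∀ l, X →ₗ[K] W (idx l)
  /-- the inclusion -/
  ι : ∀ l, W (idx l) →ₗ[K] X
  /-- the subgroup -/
  D : Subgroup Γ
  hD : D.FiniteIndex
  hp : ∀ l, ∀ g ∈ D, ∀ x, (p l (R g x) : X) = R g (p l x)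
  hι : ∀ l, ∀ g ∈ D, ∀ (u u' : W (idx l)), (u' : X) = R g u → ι l u' = R g (ι l u)
  sum : ∀ x, ∑ l, c l • ι l (p l x) = x

theorem exists_dec (hss : HasProj R) {s : ℕ} (W : Fin s → Submodule K X) (hW : ∀ i, SI R (W i))
    (hall : ∀ U, SI R U → ∃ i, Tw R (fun _ => 1) U (W i)) : Nonempty (Dec R W) := by
  obtain ⟨n, f, T, hfT⟩ := Submodule.mem_span_set'.1 (decomp hss W hW hall)
  choose i p ι D hD hp hι hT using fun l => (T l).2
  refine ⟨⟨n, f, i, p, ι, ⨅ l, D l, Subgroup.finiteIndex_iInf hD, fun l g hg x => ?_,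
    fun l g hg => ?_, fun x => ?_⟩⟩
  · exact hp l g (Subgroup.mem_iInf.1 hg l) x
  · exact hι l g (Subgroup.mem_iInf.1 hg l)
  · have h2 := congrArg (fun F : Module.End K X => F x) hfT
    simp only [LinearMap.sum_apply, LinearMap.smul_apply, Module.End.one_apply] at h2
    conv_rhs => rw [← h2]
    refine Finset.sum_congr rfl fun l _ => ?_
    rw [hT]
    rfl

theorem bil_sum (b : X →ₗ[K] X →ₗ[K] K) {n : ℕ} (c : Fin n → K) (a a' : Fin n → X) :
    b (∑ l, c l • a l) (∑ l, c l • a' l) = ∑ l, ∑ l', (c l * c l') * b (a l) (a' l') := by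
  rw [LinearMap.map_sum₂]
  refine Finset.sum_congr rfl fun l _ => ?_
  rw [map_smul, LinearMap.smul_apply, map_sum, Finset.smul_sum]
  refine Finset.sum_congr rfl fun l' _ => ?_
  rw [map_smul, smul_eq_mul, smul_eq_mul, mul_assoc]

section reps

variable {s : ℕ} {W : Fin s → Submodule K X}

/-- The representatives. -/
structure Reps (R : Representation K Γ X) (W : Fin s → Submodule K X) : Prop where
  si : ∀ i, SI R (W i)
  ne : ∀ i j, Tw R (fun _ => 1) (W i) (W j) → i = j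

/-- A potentially equivariant map between representatives. -/
def EqM (R : Representation K Γ X) {i j : Fin s} (T : W j →ₗ[K] W i) : Prop :=
  ∃ Δ : Subgroup Γ, Δ.FiniteIndex ∧ ∀ g ∈ Δ, ∀ u u' : W j, (u' : X) = R g u →
    (T u' : X) = R g (T u)

theorem hom_zero (h : Reps R W) {i j : Fin s} (hij : i ≠ j) {T : W j →ₗ[K] W i}
    (hT : EqM R T) : T = 0 := by
  by_contra h0
  apply hij
  symm
  apply h.ne
  obtain ⟨Δ, hΔ, hT⟩ := hT
  obtain ⟨Δ1, hΔ1, h1⟩ := (h.si j).2.1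
  obtain ⟨π, hπ⟩ := exists_pr (W j)
  refine ⟨Δ ⊓ Δ1, inferInstance, (W i).subtype.comp (T.comp π), fun u _ => SetLike.coe_mem _,
    ?_, fun g hg u hu => ?_⟩
  · by_contra hcon
    push Not at hcon
    apply h0
    ext u
    have h2 := hcon u u.2
    rw [LinearMap.comp_apply, LinearMap.comp_apply, hπ] at h2
    exact h2
  · rw [one_smul]
    change (T (π (R g u)) : X) = R g (T (π u))
    rw [hπ ⟨u, hu⟩, hπ ⟨R g u, h1 g hg.2 u hu⟩]
    exact hT g hg.1 _ _ rfl

theorem hom_self [IsAlgClosed K] (h : Reps R W) {i : Fin s} {T : W i →ₗ[K] W i}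
    (hT : EqM R T) : ∃ c : K, ∀ u, T u = c • u := by
  have hnt : Nontrivial (W i) := by
    rw [Submodule.nontrivial_iff_ne_bot]
    exact (h.si i).1
  obtain ⟨Δ, hΔ, hT⟩ := hT
  obtain ⟨Δ1, hΔ1, h1⟩ := (h.si i).2.1
  obtain ⟨c, hc⟩ := Module.End.exists_eigenvalue (T : Module.End K (W i))
  obtain ⟨u0, hu0⟩ := hc.exists_hasEigenvector
  let E : Submodule K X := (Module.End.eigenspace (T : Module.End K (W i)) c).map (W i).subtype
  have hE : Pot R E := by
    refine ⟨Δ ⊓ Δ1, inferInstance, ?_⟩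
    rintro g hg _ ⟨u, hu, rfl⟩
    refine ⟨⟨R g u, h1 g hg.2 u u.2⟩, ?_, rfl⟩
    have hu' : T u = c • u := Module.End.mem_eigenspace_iff.1 hu
    refine Module.End.mem_eigenspace_iff.2 (Subtype.ext ?_)
    change ((T ⟨R g u, h1 g hg.2 u u.2⟩ : W i) : X) = c • R g u
    rw [hT g hg.1 u ⟨R g u, h1 g hg.2 u u.2⟩ rfl, hu', Submodule.coe_smul, map_smul]
  rcases (h.si i).2.2 E (Submodule.map_subtype_le _ _) hE with h3 | h3
  · exfalso
    apply hu0.2
    have h4 : (u0 : X) ∈ E := ⟨u0, hu0.1, rfl⟩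
    rw [h3, Submodule.mem_bot] at h4
    exact Subtype.ext h4
  · refine ⟨c, fun u => ?_⟩
    have h4 : (u : X) ∈ E := by
      rw [h3]
      exact u.2
    obtain ⟨u', hu', huu⟩ := h4
    have h5 : u' = u := Subtype.ext huu
    rw [← h5]
    exact Module.End.mem_eigenspace_iff.1 hu'

theorem hom_comm [IsAlgClosed K] (h : Reps R W) {i j : Fin s} {T : W j →ₗ[K] W i}
    (hT : EqM R T) (x : ∀ i, Module.End K (W i)) (w : W j) : x i (T w) = T (x j w) := by
  by_cases hij : i = j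
  · subst hij
    obtain ⟨c, hc⟩ := hom_self h hT
    rw [hc, hc, map_smul]
  · rw [hom_zero h hij hT, LinearMap.zero_apply, LinearMap.zero_apply, map_zero]

/-- A potentially equivariant pairing of representatives. -/
def EqP (R : Representation K Γ X) (χ : Γ →* K) {i j : Fin s}
    (β : W i →ₗ[K] W j →ₗ[K] K) : Prop :=
  ∃ Δ : Subgroup Γ, Δ.FiniteIndex ∧ ∀ g ∈ Δ, ∀ (u u' : W i) (v v' : W j), (u' : X) = R g u →
    (v' : X) = R g v → β u' v' = χ g * β u v

/-- The pairing as a pairing of the whole space. -/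
theorem eqP_du (h : Reps R W) {i j : Fin s} {β : W i →ₗ[K] W j →ₗ[K] K} (hβ : EqP R χ β) :
    ∃ (Δ : Subgroup Γ) (B : X →ₗ[K] X →ₗ[K] K), Δ.FiniteIndex ∧
      (∀ (u : W i) (v : W j), B u v = β u v) ∧
      ∀ g ∈ Δ, ∀ u ∈ W i, ∀ v ∈ W j, B (R g u) (R g v) = χ g * B u v := by
  obtain ⟨Δ, hΔ, hβ⟩ := hβ
  obtain ⟨Δ1, hΔ1, h1⟩ := (h.si i).2.1
  obtain ⟨Δ2, hΔ2, h2⟩ := (h.si j).2.1
  obtain ⟨π, hπ⟩ := exists_pr (W i)
  obtain ⟨π', hπ'⟩ := exists_pr (W j)
  have hB : ∀ (u : W i) (v : W j), (β.compl₁₂ π π') u v = β u v := by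
    intro u v
    rw [LinearMap.compl₁₂_apply, hπ, hπ']
  refine ⟨Δ ⊓ (Δ1 ⊓ Δ2), β.compl₁₂ π π', inferInstance, hB, fun g hg u hu v hv => ?_⟩
  have e1 := hB ⟨R g u, h1 g hg.2.1 u hu⟩ ⟨R g v, h2 g hg.2.2 v hv⟩
  have e2 := hB ⟨u, hu⟩ ⟨v, hv⟩
  rw [e1, e2]
  exact hβ g hg.1 _ _ _ _ rfl rfl

theorem pairing_zero (h : Reps R W) (hd : ∀ i, Du R χ (W i) (W i)) {i j : Fin s} (hij : i ≠ j)
    {β : W i →ₗ[K] W j →ₗ[K] K} (hβ : EqP R χ β) : β = 0 := by
  by_contra h0
  apply hij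
  obtain ⟨Δ, B, hΔ, hB, hBg⟩ := eqP_du h hβ
  have h1 : Du R χ (W i) (W j) := by
    refine ⟨Δ, hΔ, B, ?_, hBg⟩
    by_contra hcon
    push Not at hcon
    apply h0
    refine LinearMap.ext fun u => LinearMap.ext fun v => ?_
    rw [← hB, hcon u u.2 v v.2]
    rfl
  exact h.ne _ _ (h1.symm.tw (h.si j) (h.si i) (h.si j) (hd j))

theorem pairing_skew [IsAlgClosed K] (h : Reps R W) (B : ∀ i, W i →ₗ[K] W i →ₗ[K] K)
    (hB : ∀ i, EqP R χ (B i)) (hB0 : ∀ i, B i ≠ 0) (x : ∀ i, Module.End K (W i))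
    (hx : ∀ i u v, B i (x i u) v + B i u (x i v) = 0) {i j : Fin s}
    {β : W i →ₗ[K] W j →ₗ[K] K} (hβ : EqP R χ β) (u : W i) (v : W j) :
    β (x i u) v + β u (x j v) = 0 := by
  have hd : ∀ i, Du R χ (W i) (W i) := by
    intro i
    obtain ⟨Δ, B', hΔ, hB', hBg⟩ := eqP_du h (hB i)
    refine ⟨Δ, hΔ, B', ?_, hBg⟩
    by_contra hcon
    push Not at hcon
    apply hB0 i
    refine LinearMap.ext fun u => LinearMap.ext fun v => ?_
    rw [← hB', hcon u u.2 v v.2]
    rfl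
  by_cases hij : i = j
  · subst hij
    obtain ⟨Δ, B', hΔ, hB', hBg⟩ := eqP_du h (hB i)
    obtain ⟨Δ', β', hΔ', hβ', hβg⟩ := eqP_du h hβ
    obtain ⟨c, hc⟩ := pair_unique (h.si i) (h.si i) hΔ (B := B') (by
      by_contra hcon
      push Not at hcon
      apply hB0 i
      refine LinearMap.ext fun u => LinearMap.ext fun v => ?_
      rw [← hB', hcon u u.2 v v.2]
      rfl) hBg hΔ' hβg
    have hc' : ∀ u v : W i, β u v = c * B i u v := by
      intro u v
      rw [← hβ', ← hB', hc u u.2 v v.2]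
    rw [hc', hc', ← mul_add, hx, mul_zero]
  · rw [pairing_zero h hd hij hβ]
    simp

variable (d : Dec R W)

/-- The extension of the operators to the whole space. -/
noncomputable def Th (x : ∀ i, Module.End K (W i)) : Module.End K X :=
  ∑ l, d.c l • (d.ι l).comp ((x (d.idx l)).comp (d.p l))

theorem Th_apply (x : ∀ i, Module.End K (W i)) (v : X) :
    Th d x v = ∑ l, d.c l • d.ι l (x (d.idx l) (d.p l v)) := by
  unfold Th
  rw [LinearMap.sum_apply]
  rfl

/-- The extension commutes with the maps from the representatives. -/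
theorem Th_comp [IsAlgClosed K] (h : Reps R W) (x : ∀ i, Module.End K (W i)) {j : Fin s}
    {T : W j →ₗ[K] X} (hT : ∃ Δ : Subgroup Γ, Δ.FiniteIndex ∧ ∀ g ∈ Δ, ∀ u u' : W j,
      (u' : X) = R g u → T u' = R g (T u)) (w : W j) : Th d x (T w) = T (x j w) := by
  rw [Th_apply, ← d.sum (T (x j w))]
  refine Finset.sum_congr rfl fun l _ => ?_
  congr 2
  obtain ⟨Δ, hΔ, hT⟩ := hT
  have := d.hD
  refine hom_comm h (T := (d.p l).comp T) ⟨Δ ⊓ d.D, inferInstance, fun g hg u u' huu => ?_⟩ x w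
  rw [LinearMap.comp_apply, LinearMap.comp_apply, hT g hg.1 u u' huu]
  exact d.hp l g hg.2 _

theorem Th_on [IsAlgClosed K] (h : Reps R W) (x : ∀ i, Module.End K (W i)) {j : Fin s}
    (w : W j) : Th d x w = x j w :=
  Th_comp d h x (T := (W j).subtype) ⟨⊤, inferInstance, fun _ _ _ _ huu => huu⟩ w

theorem Th_ι [IsAlgClosed K] (h : Reps R W) (x : ∀ i, Module.End K (W i)) (l : Fin d.n)
    (w : W (d.idx l)) : Th d x (d.ι l w) = d.ι l (x (d.idx l) w) :=
  Th_comp d h x ⟨d.D, d.hD, fun g hg u u' huu => d.hι l g hg u u' huu⟩ w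

theorem Th_sq [IsAlgClosed K] (h : Reps R W) (x : ∀ i, Module.End K (W i))
    (hx : ∀ i, x i * x i = 1) : Th d x * Th d x = 1 := by
  refine LinearMap.ext fun v => ?_
  rw [Module.End.mul_apply, Th_apply d x v, map_sum, Module.End.one_apply]
  conv_rhs => rw [← d.sum v]
  refine Finset.sum_congr rfl fun l _ => ?_
  rw [map_smul, Th_ι d h]
  have h1 : x (d.idx l) (x (d.idx l) (d.p l v)) = d.p l v := by
    rw [← Module.End.mul_apply, hx]
    rfl
  rw [h1]

theorem Th_skew [IsAlgClosed K] (h : Reps R W) (B : ∀ i, W i →ₗ[K] W i →ₗ[K] K)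
    (hB : ∀ i, EqP R χ (B i)) (hB0 : ∀ i, B i ≠ 0) (x : ∀ i, Module.End K (W i))
    (hx : ∀ i u v, B i (x i u) v + B i u (x i v) = 0) {b : X →ₗ[K] X →ₗ[K] K}
    (hb : IsTate2 R χ b) (u v : X) : b (Th d x u) v + b u (Th d x v) = 0 := by
  obtain ⟨Δ, hΔ, hb⟩ := hb
  have := d.hD
  have e1 : b (Th d x u) v = ∑ l, ∑ l', (d.c l * d.c l') *
      b (d.ι l (x (d.idx l) (d.p l u))) (d.ι l' (d.p l' v)) := by
    conv_lhs => rw [← d.sum v]
    rw [Th_apply]
    exact bil_sum b _ _ _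
  have e2 : b u (Th d x v) = ∑ l, ∑ l', (d.c l * d.c l') *
      b (d.ι l (d.p l u)) (d.ι l' (x (d.idx l') (d.p l' v))) := by
    conv_lhs => rw [← d.sum u]
    rw [Th_apply]
    exact bil_sum b _ _ _
  rw [e1, e2, ← Finset.sum_add_distrib]
  refine Finset.sum_eq_zero fun l _ => ?_
  rw [← Finset.sum_add_distrib]
  refine Finset.sum_eq_zero fun l' _ => ?_
  have h1 := pairing_skew h B hB hB0 x hx (β := b.compl₁₂ (d.ι l) (d.ι l'))
    ⟨Δ ⊓ d.D, inferInstance, fun g hg u u' v v' huu hvv => by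
      rw [LinearMap.compl₁₂_apply, LinearMap.compl₁₂_apply, d.hι l g hg.2 u u' huu,
        d.hι l' g hg.2 v v' hvv, hb g hg.1]⟩ (d.p l u) (d.p l' v)
  rw [LinearMap.compl₁₂_apply, LinearMap.compl₁₂_apply] at h1
  rw [← mul_add, h1, mul_zero]

end reps

end Pool.Agent.E8helper1.AP
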