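import Mathlib
import Pool.Agent.E8helper1.AP.Theta

/-!
# Lie algebras stable under the group are ideals
-/

set_option autoImplicit false
set_option linter.unusedSectionVars false

namespace Pool.Agent.E8helper1.AP

open Module Pool.Agent.H204R3.CM Pool.Agent.H204R3.SP Pool.Agent.H204R3.GP Pool.Agent.W522.U
  Pool.Agent.W529.Ta Pool.Agent.W528.Odd Pool.Agent.Y126.OT

noncomputable section

section trace

variable {K : Type} [Field K] [CharZero K] {V : Type} [AddCommGroup V] [Module K V]
  [FiniteDimensional K V]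

theorem trace_nondeg {y : Module.End K V}
    (h : ∀ z : Module.End K V, LinearMap.trace K V (y * z) = 0) : y = 0 := by
  refine LinearMap.ext fun v => ?_
  rw [LinearMap.zero_apply, ← Module.forall_dual_apply_eq_zero_iff K (y v)]
  intro f
  have h1 := h (f.smulRight v)
  have h2 : y * f.smulRight v = f.smulRight (y v) := by
    refine LinearMap.ext fun w => ?_
    rw [Module.End.mul_apply, LinearMap.smulRight_apply, LinearMap.smulRight_apply, map_smul]
  rw [h2, LinearMap.trace_smulRight] at h1
  exact h1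

/-- The orthogonal projection to a subspace on which the trace form is nondegenerate. -/
theorem exists_orth_proj (L : Submodule K (Module.End K V)) (hL : orth L L = ⊥) :
    ∃ P : Module.End K V →ₗ[K] Module.End K V, (∀ y, P y ∈ L) ∧
      ∀ y, ∀ c ∈ L, LinearMap.trace K V (P y * c) = LinearMap.trace K V (y * c) := by
  let T : Module.End K V →ₗ[K] Dual K L :=
    { toFun := fun y =>
        { toFun := fun c => LinearMap.trace K V (y * c)
          map_add' := fun a b => by rw [Submodule.coe_add, mul_add, map_add]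
          map_smul' := fun a b => by
            rw [Submodule.coe_smul, mul_smul_comm, map_smul, RingHom.id_apply] }
      map_add' := fun a b => LinearMap.ext fun c => by
        change LinearMap.trace K V ((a + b) * c) = _
        rw [add_mul, map_add]
        rfl
      map_smul' := fun a b => LinearMap.ext fun c => by
        change LinearMap.trace K V ((a • b) * c) = _
        rw [smul_mul_assoc, map_smul]
        rfl }
  have hinj : Function.Injective (T.comp L.subtype) := by
    rw [injective_iff_map_eq_zero]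
    intro y hy
    have h1 : (y : Module.End K V) ∈ orth L L := by
      refine ⟨y.2, fun z hz => ?_⟩
      exact congrArg (fun f : Dual K L => f ⟨z, hz⟩) hy
    rw [hL, Submodule.mem_bot] at h1
    exact Subtype.ext h1
  let e : L ≃ₗ[K] Dual K L := LinearEquiv.ofInjectiveOfFinrankEq _ hinj
    (Subspace.dual_finrank_eq).symm
  have he : ∀ y : L, e y = T y := fun y => rfl
  refine ⟨L.subtype.comp (e.symm.toLinearMap.comp T), fun y => SetLike.coe_mem _,
    fun y c hc => ?_⟩
  have h1 : e (e.symm (T y)) = T y := e.apply_symm_apply _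
  rw [he] at h1
  exact congrArg (fun f : Dual K L => f ⟨c, hc⟩) h1

/-- The projection is unique. -/
theorem orth_unique {L : Submodule K (Module.End K V)} (hL : orth L L = ⊥) {a b : Module.End K V}
    (ha : a ∈ L) (hb : b ∈ L)
    (h : ∀ c ∈ L, LinearMap.trace K V (a * c) = LinearMap.trace K V (b * c)) : a = b := by
  have h1 : a - b ∈ orth L L := ⟨L.sub_mem ha hb, fun c hc => by
    rw [sub_mul, map_sub, h c hc, sub_self]⟩
  rw [hL, Submodule.mem_bot] at h1
  exact sub_eq_zero.1 h1

end trace

variable {K : Type} [Field K] [CharZero K] {X : Type} [AddCommGroup X] [Module K X]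
  [FiniteDimensional K X] {Γ : Type} [Group Γ] {R : Representation K Γ X} {χ : Γ →* K}

/-- The rank one operators on `U`, as a bilinear function on the whole space. -/
def AA {U : Submodule K X} (om : U →ₗ[K] U →ₗ[K] K) (π : X →ₗ[K] U) :
    X →ₗ[K] X →ₗ[K] Module.End K U :=
  ((LinearMap.smulRightₗ : Dual K U →ₗ[K] U →ₗ[K] Module.End K U).compl₁₂ om
    (LinearMap.id : U →ₗ[K] U)).compl₁₂ π π

theorem AA_apply {U : Submodule K X} (om : U →ₗ[K] U →ₗ[K] K) (π : X →ₗ[K] U) (u v : X) (w : U) :
    AA om π u v w = om (π u) w • π v := rfl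

section main

variable [IsAlgClosed K] (hss : HasProj R) {U : Submodule K X} (hU : SI R U) {Δ : Subgroup Γ}
  (hΔ : Δ.FiniteIndex) (hUΔ : ∀ g ∈ Δ, ∀ u ∈ U, R g u ∈ U) (om : U →ₗ[K] U →ₗ[K] K)
  (halt : ∀ v, om v v = 0) (hnd : ∀ u, (∀ v, om u v = 0) → u = 0)
  (hsim : ∀ (g : Δ) u v, om (resR R Δ U hUΔ g u) (resR R Δ U hUΔ g v) = χ g.1 * om u v)
  {L : Submodule K (Module.End K U)} (hbr : ∀ x ∈ L, ∀ y ∈ L, x * y - y * x ∈ L)
  (hconj : ∀ g : Δ, ∀ y ∈ L, resR R Δ U hUΔ g * y * resR R Δ U hUΔ g⁻¹ ∈ L)
  (hsp : ∀ y ∈ L, ∀ u w, om (y u) w + om u (y w) = 0)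

include hU hΔ hnd hbr hconj hsp in
theorem orth_self : orth L L = ⊥ := by
  refine Pool.Agent.W363.OT.Cart.main K U Δ (resR R Δ U hUΔ) (sIrr_res hU Δ hΔ hUΔ) _ ?_ ?_ ?_ ?_
  · rintro x ⟨hx, hx'⟩ y ⟨hy, hy'⟩
    refine ⟨hbr x hx y hy, fun z hz => ?_⟩
    rw [trace_br]
    exact hx' _ (hbr y hy z hz)
  · rintro g x ⟨hx, hx'⟩
    refine ⟨hconj g x hx, fun z hz => ?_⟩
    have h1 := hx' _ (by
      have := hconj g⁻¹ z hz
      exact this)
    have h2 : LinearMap.trace K U (resR R Δ U hUΔ g * x * resR R Δ U hUΔ g⁻¹ * z) =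
        LinearMap.trace K U (x * (resR R Δ U hUΔ g⁻¹ * z * resR R Δ U hUΔ g)) := by
      rw [mul_assoc, mul_assoc, LinearMap.trace_mul_comm, mul_assoc, mul_assoc]
    rw [h2]
    rw [inv_inv] at h1
    exact h1
  · rintro x ⟨hx, -⟩
    exact trace_sp om hnd (hsp x hx)
  · rintro x ⟨hx, hx'⟩ y ⟨hy, -⟩
    exact hx' y hy

include hss hU hΔ hnd hsim hbr hconj hsp in
/-- The operators in the Lie algebra of the group normalize the stable Lie algebras. -/
theorem normalizes {x : Module.End K X} (hx : x ∈ lieT R χ) {xb : Module.End K U}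
    (hxb : ∀ u : U, ((xb u : U) : X) = x u) (hxs : ∀ u w, om (xb u) w + om u (xb w) = 0)
    {y : Module.End K U} (hy : y ∈ L) : xb * y - y * xb ∈ L := by
  classical
  have hL := orth_self hU hΔ hUΔ om hnd hbr hconj hsp
  obtain ⟨P, hP1, hP2⟩ := exists_orth_proj L hL
  have hPL : ∀ y ∈ L, P y = y := fun y hy => orth_unique hL (hP1 y) hy (hP2 y)
  have hPg : ∀ (g : Δ) (y : Module.End K U), P (resR R Δ U hUΔ g * y * resR R Δ U hUΔ g⁻¹) =
      resR R Δ U hUΔ g * P y * resR R Δ U hUΔ g⁻¹ := by
    intro g y
    refine orth_unique hL (hP1 _) (hconj g _ (hP1 y)) fun c hc => ?_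
    have h1 := hconj g⁻¹ c hc
    rw [inv_inv] at h1
    have h2 : ∀ y, LinearMap.trace K U (resR R Δ U hUΔ g * y * resR R Δ U hUΔ g⁻¹ * c) =
        LinearMap.trace K U (y * (resR R Δ U hUΔ g⁻¹ * c * resR R Δ U hUΔ g)) := by
      intro y
      rw [mul_assoc, mul_assoc, LinearMap.trace_mul_comm, mul_assoc, mul_assoc]
    rw [hP2 _ c hc, h2, h2, hP2 _ _ h1]
  -- the projection to `U`
  obtain ⟨p, hp1, hp2, hp3⟩ := hss Δ hΔ U hUΔ
  let π : X →ₗ[K] U := p.codRestrict U hp1
  have hπ : ∀ u : U, π u = u := fun u => Subtype.ext (hp2 u u.2)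
  have hπg : ∀ (g : Δ) v, π (R g.1 v) = resR R Δ U hUΔ g (π v) := fun g v =>
    Subtype.ext (hp3 g.1 g.2 v)
  have hAg : ∀ (g : Δ) u v, AA om π (R g.1 u) (R g.1 v) =
      χ g.1 • (resR R Δ U hUΔ g * AA om π u v * resR R Δ U hUΔ g⁻¹) := by
    intro g u v
    refine LinearMap.ext fun w => ?_
    rw [AA_apply, hπg, hπg, LinearMap.smul_apply, Module.End.mul_apply, Module.End.mul_apply,
      AA_apply, map_smul, smul_smul, ← hsim]
    congr 3
    exact (Rinv' (R := resR R Δ U hUΔ) g w).symm
  have hAx : ∀ u v : X, AA om π (xb (π u)) v + AA om π u (xb (π v)) =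
      xb * AA om π u v - AA om π u v * xb := by
    intro u v
    refine LinearMap.ext fun w => ?_
    rw [LinearMap.add_apply, LinearMap.sub_apply, Module.End.mul_apply, Module.End.mul_apply,
      AA_apply, AA_apply, AA_apply, AA_apply, hπ, hπ, map_smul]
    have h1 := hxs (π u) w
    have h2 : om (xb (π u)) w = -om (π u) (xb w) := by linear_combination h1
    rw [h2, neg_smul]
    abel
  -- the form
  let bas := Module.finBasis K (Module.End K U)
  let C : Fin (finrank K (Module.End K U)) → Fin 2 → (X →ₗ[K] X →ₗ[K] K) := fun i =>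
    ![(AA om π).compr₂ ((bas.coord i).comp P),
      (AA om π).compr₂ ((LinearMap.trace K U).comp (LinearMap.mulLeft K (bas i)))]
  let φ : MultilinearMap K (fun _ : Fin 2 × Fin 2 => X) K := ∑ i, mmG 1 (C i)
  have hφ : ∀ v, φ v = LinearMap.trace K U (P (AA om π (v (0, 0)) (v (0, 1))) *
      AA om π (v (1, 0)) (v (1, 1))) := by
    intro v
    have h1 : P (AA om π (v (0, 0)) (v (0, 1))) =
        ∑ i, bas.coord i (P (AA om π (v (0, 0)) (v (0, 1)))) • bas i := (bas.sum_repr _).symm
    rw [h1, Finset.sum_mul, map_sum]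
    change (∑ i, mmG 1 (C i)) v = _
    rw [MultilinearMap.sum_apply]
    refine Finset.sum_congr rfl fun i _ => ?_
    rw [mmG_apply, Fin.prod_univ_two, smul_mul_assoc, map_smul, smul_eq_mul]
    rfl
  have hT : IsTate R χ 2 φ := by
    refine ⟨Δ, hΔ, fun g hg v => ?_⟩
    rw [hφ, hφ, hAg ⟨g, hg⟩, hAg ⟨g, hg⟩, map_smul, hPg, smul_mul_assoc, mul_smul_comm, map_smul,
      map_smul, smul_eq_mul, smul_eq_mul, ← mul_assoc, ← pow_two]
    congr 1
    have h1 : ∀ a b : Module.End K U, LinearMap.trace K U
        (resR R Δ U hUΔ ⟨g, hg⟩ * a * resR R Δ U hUΔ (⟨g, hg⟩ : Δ)⁻¹ *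
          (resR R Δ U hUΔ ⟨g, hg⟩ * b * resR R Δ U hUΔ (⟨g, hg⟩ : Δ)⁻¹)) =
        LinearMap.trace K U (a * b) := by
      intro a b
      have e1 : resR R Δ U hUΔ (⟨g, hg⟩ : Δ)⁻¹ * resR R Δ U hUΔ ⟨g, hg⟩ = 1 := by
        rw [← map_mul, inv_mul_cancel, map_one]
      have e2 : resR R Δ U hUΔ ⟨g, hg⟩ * a * resR R Δ U hUΔ (⟨g, hg⟩ : Δ)⁻¹ *
          (resR R Δ U hUΔ ⟨g, hg⟩ * b * resR R Δ U hUΔ (⟨g, hg⟩ : Δ)⁻¹) =
          resR R Δ U hUΔ ⟨g, hg⟩ * (a * b * resR R Δ U hUΔ (⟨g, hg⟩ : Δ)⁻¹) := by
        calc _ = resR R Δ U hUΔ ⟨g, hg⟩ * a * (resR R Δ U hUΔ (⟨g, hg⟩ : Δ)⁻¹ *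
            resR R Δ U hUΔ ⟨g, hg⟩) * b * resR R Δ U hUΔ (⟨g, hg⟩ : Δ)⁻¹ := by
              simp only [mul_assoc]
          _ = _ := by rw [e1, mul_one]; simp only [mul_assoc]
      rw [e2, LinearMap.trace_mul_comm, mul_assoc, e1, mul_one]
    exact h1 _ _
  -- the operator kills the form
  have key : ∀ a b c d : U, LinearMap.trace K U (P (xb * AA om π a b - AA om π a b * xb) *
      AA om π c d) + LinearMap.trace K U (P (AA om π a b) *
      (xb * AA om π c d - AA om π c d * xb)) = 0 := by
    intro a b c d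
    have h1 := hx 2 φ hT (fun k => ((if k.1 = 0 then (if k.2 = 0 then a else b) else
      (if k.2 = 0 then c else d) : U) : X))
    rw [Fintype.sum_prod_type, Fin.sum_univ_two, Fin.sum_univ_two, Fin.sum_univ_two, hφ, hφ, hφ,
      hφ] at h1
    have hx1 : ∀ u : U, x u = xb u := fun u => (hxb u).symm
    have e1 := hAx (a : X) (b : X)
    have e2 := hAx (c : X) (d : X)
    rw [hπ, hπ] at e1 e2
    rw [← e1, ← e2, map_add, add_mul, mul_add, map_add, map_add, ← add_assoc]
    simpa [Function.update_apply, hx1, add_assoc] using h1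
  -- all operators are sums of rank one operators
  have hspan : ∀ y : Module.End K U, y ∈ Submodule.span K
      {z | ∃ a b : U, z = AA om π (a : X) (b : X)} := by
    intro y
    have hinj : Function.Injective om := by
      rw [injective_iff_map_eq_zero]
      intro u hu
      exact hnd u fun v => by rw [hu, LinearMap.zero_apply]
    let B : U ≃ₗ[K] Dual K U := LinearEquiv.ofInjectiveOfFinrankEq om hinj
      (Subspace.dual_finrank_eq).symm
    let bU := Module.finBasis K U
    have h1 : y = ∑ i, AA om π ((B.symm (bU.coord i) : U) : X) ((y (bU i) : U) : X) := by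
      refine LinearMap.ext fun w => ?_
      rw [LinearMap.sum_apply]
      conv_lhs => rw [← bU.sum_repr w, map_sum]
      refine Finset.sum_congr rfl fun i _ => ?_
      rw [map_smul, AA_apply, hπ, hπ]
      congr 1
      have h2 : B (B.symm (bU.coord i)) = bU.coord i := B.apply_symm_apply _
      have h3 := congrArg (fun f : Dual K U => f w) h2
      exact h3.symm
    rw [h1]
    exact Submodule.sum_mem _ fun i _ => Submodule.subset_span ⟨_, _, rfl⟩
  have key2 : ∀ y z : Module.End K U, LinearMap.trace K U (P (xb * y - y * xb) * z) +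
      LinearMap.trace K U (P y * (xb * z - z * xb)) = 0 := by
    intro y z
    induction hspan y using Submodule.span_induction with
    | mem y hy =>
      obtain ⟨a, b, rfl⟩ := hy
      induction hspan z using Submodule.span_induction with
      | mem z hz =>
        obtain ⟨c, d, rfl⟩ := hz
        exact key a b c d
      | zero => simp
      | add z z' _ _ hz hz' =>
        have e1 : xb * (z + z') - (z + z') * xb = (xb * z - z * xb) + (xb * z' - z' * xb) := by
          rw [mul_add, add_mul]
          abel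
        rw [e1, mul_add, mul_add, map_add, map_add]
        linear_combination hz + hz'
      | smul c z _ hz =>
        have e1 : xb * (c • z) - (c • z) * xb = c • (xb * z - z * xb) := by
          rw [mul_smul_comm, smul_mul_assoc, smul_sub]
        rw [e1, mul_smul_comm, mul_smul_comm, map_smul, map_smul, ← smul_add, hz, smul_zero]
    | zero => simp
    | add y y' _ _ hy hy' =>
      have e1 : xb * (y + y') - (y + y') * xb = (xb * y - y * xb) + (xb * y' - y' * xb) := by
        rw [mul_add, add_mul]
        abel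
      rw [e1, map_add, map_add, add_mul, add_mul, map_add, map_add]
      linear_combination hy + hy'
    | smul c y _ hy =>
      have e1 : xb * (c • y) - (c • y) * xb = c • (xb * y - y * xb) := by
        rw [mul_smul_comm, smul_mul_assoc, smul_sub]
      rw [e1, map_smul, map_smul, smul_mul_assoc, smul_mul_assoc, map_smul, map_smul, ← smul_add,
        hy, smul_zero]
  have key3 : P (xb * y - y * xb) = xb * P y - P y * xb := by
    rw [← sub_eq_zero]
    refine trace_nondeg fun z => ?_
    have h1 := key2 y z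
    have h2 : LinearMap.trace K U (P y * (xb * z - z * xb)) =
        -LinearMap.trace K U ((xb * P y - P y * xb) * z) := by
      have h3 := trace_br xb (P y) z
      have h4 : LinearMap.trace K U (xb * (P y * z - z * P y)) =
          -LinearMap.trace K U (P y * (xb * z - z * xb)) := by
        rw [mul_sub, mul_sub, map_sub, map_sub]
        have e1 : LinearMap.trace K U (xb * (P y * z)) = LinearMap.trace K U (P y * (z * xb)) := by
          rw [LinearMap.trace_mul_comm, mul_assoc]
        have e2 : LinearMap.trace K U (xb * (z * P y)) = LinearMap.trace K U (P y * (xb * z)) := by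
          rw [← mul_assoc, LinearMap.trace_mul_comm]
        rw [e1, e2]
        ring
      rw [h3, h4, neg_neg]
    rw [sub_mul, map_sub, sub_eq_zero]
    rw [h2] at h1
    linear_combination h1
  rw [hPL y hy] at key3
  rw [← key3]
  exact hP1 _

include hss hU hΔ halt hnd hsim hbr hconj hsp in
/-- A nonzero stable Lie algebra contains the symplectic Lie algebra, if the Lie algebra of the
group does. -/
theorem all_SS (hSS : ∀ u : U, ∃ x ∈ lieT R χ, ∀ w : U, ((SS om u u w : U) : X) = x w)
    {N : Module.End K U} (hN : N ∈ L) (hN0 : N ≠ 0) : ∀ u v, SS om u v ∈ L := by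
  have hanti := alt_anti halt
  -- a vector with `om (N u) u` not zero
  obtain ⟨u, hu⟩ : ∃ u, om u (N u) ≠ 0 := by
    by_contra hcon
    push Not at hcon
    apply hN0
    refine LinearMap.ext fun w => ?_
    rw [LinearMap.zero_apply]
    refine hnd _ fun v => ?_
    have h1 := hcon (v + w)
    rw [map_add, map_add, map_add, LinearMap.add_apply, LinearMap.add_apply, hcon v, hcon w,
      add_zero, zero_add] at h1
    have h2 := hsp N hN v w
    rw [hanti (N v) w] at h2
    have h3 : (2 : K) * om (N w) v = 0 := by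
      rw [hanti (N w) v]
      linear_combination -h1 - h2
    exact (mul_eq_zero.1 h3).resolve_left two_ne_zero
  obtain ⟨x, hx, hxS⟩ := hSS u
  have hSsk : ∀ a b, om (SS om u u a) b + om a (SS om u u b) = 0 := by
    intro a b
    rw [SS_apply, SS_apply, map_add, map_add, map_smul, map_smul, LinearMap.add_apply,
      LinearMap.smul_apply, smul_eq_mul, smul_eq_mul, hanti a u]
    ring
  have hbr2 := fun {y : Module.End K U} (hy : y ∈ L) => normalizes hss hU hΔ hUΔ om hnd hsim hbr
    hconj hsp hx hxS hSsk hy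
  have h1 := hbr2 (hbr2 hN)
  have h2 : SS om u u * SS om u u = 0 := by
    refine LinearMap.ext fun w => ?_
    rw [Module.End.mul_apply, SS_apply, SS_apply]
    simp only [map_add, map_smul, halt, smul_zero, add_zero, zero_smul, LinearMap.zero_apply]
  have h3 : SS om u u * N * SS om u u = (2 * om u (N u)) • SS om u u := by
    refine LinearMap.ext fun w => ?_
    rw [Module.End.mul_apply, Module.End.mul_apply, LinearMap.smul_apply, SS_apply om u u w,
      map_add, map_smul, map_add, map_smul, SS_apply, ← add_smul, ← add_smul, ← add_smul,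
      smul_smul, smul_smul]
    congr 1
    ring
  have h4 : SS om u u * (SS om u u * N - N * SS om u u) -
      (SS om u u * N - N * SS om u u) * SS om u u = (-(4 * om u (N u))) • SS om u u := by
    have h5 : SS om u u * (SS om u u * N - N * SS om u u) -
        (SS om u u * N - N * SS om u u) * SS om u u = (SS om u u * SS om u u) * N +
        N * (SS om u u * SS om u u) - (2 : K) • (SS om u u * N * SS om u u) := by
      simp only [mul_sub, sub_mul, two_smul, mul_assoc]
      abel
    rw [h5, h2, h3, zero_mul, mul_zero, add_zero, zero_sub, smul_smul, ← neg_smul]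
    congr 1
    ring
  rw [h4] at h1
  have h5 : SS om u u ∈ L :=
    (Submodule.smul_mem_iff _ (neg_ne_zero.2 (mul_ne_zero (by norm_num) hu))).1 h1
  have hndr : ∀ u, (∀ v, om v u = 0) → u = 0 := fun u hu => hnd u fun v => by
    rw [hanti, hu, neg_zero]
  refine all_of_rank_one (resR R Δ U hUΔ) (χ.comp Δ.subtype) (sIrr_res hU Δ hΔ hUΔ) hbr hconj om
    halt hndr hsim hsp h5 ?_
  have h6 : LinearMap.range (SS om u u) = Submodule.span K {u} := by
    apply le_antisymm
    · rintro _ ⟨w, rfl⟩
      rw [SS_apply]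
      exact Submodule.add_mem _ (Submodule.smul_mem _ _ (Submodule.mem_span_singleton_self u))
        (Submodule.smul_mem _ _ (Submodule.mem_span_singleton_self u))
    · rw [Submodule.span_singleton_le_iff_mem]
      refine ⟨(2 * om u (N u))⁻¹ • N u, ?_⟩
      rw [map_smul, SS_apply, ← add_smul, smul_smul]
      have h2 : (2 * om u (N u))⁻¹ * (om u (N u) + om u (N u)) = 1 := by
        rw [← two_mul]
        exact inv_mul_cancel₀ (mul_ne_zero two_ne_zero hu)
      rw [h2, one_smul]
  rw [rk, h6]
  refine finrank_span_singleton fun h => hu ?_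
  rw [h, map_zero, LinearMap.zero_apply]

end main

end

end Pool.Agent.E8helper1.AP
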