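import Mathlib
import Pool.Agent.E8helper1.AP.Ideal
import Pool.Agent.TH118.CR.Refl

/-!
# The alternating forms of the strongly irreducible subspaces
-/

set_option autoImplicit false
set_option linter.unusedSectionVars false

namespace Pool.Agent.E8helper1.AP

open Module Pool.Agent.H204R3.CM Pool.Agent.H204R3.SP Pool.Agent.H204R3.GP Pool.Agent.W522.U
  Pool.Agent.W529.Ta Pool.Agent.W528.Odd Pool.Agent.Y126.OT Pool.Agent.Y126.Toric
  Pool.Agent.TH118.CR Pool.Agent.TH118.WC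
open Pool.Agent.W528.Tor (AltDual)

noncomputable section

variable {K : Type} [Field K] [CharZero K] {X : Type} [AddCommGroup X] [Module K X]
  [FiniteDimensional K X] {Γ : Type} [Group Γ] {R : Representation K Γ X} {χ : Γ →* K}
  {H : Subgroup Γ}

/-- The alternating form of a strongly irreducible subspace. -/
structure Om (R : Representation K Γ X) (χ : Γ →* K) (U : Submodule K X) where
  /-- the subgroup -/
  Δ : Subgroup Γ
  hΔ : Δ.FiniteIndex
  st : ∀ g ∈ Δ, ∀ u ∈ U, R g u ∈ U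
  /-- the form on the whole space -/
  B : X →ₗ[K] X →ₗ[K] K
  inv : ∀ g ∈ Δ, ∀ u ∈ U, ∀ v ∈ U, B (R g u) (R g v) = χ g * B u v
  alt : ∀ u ∈ U, B u u = 0
  ne : ∃ u ∈ U, ∃ v ∈ U, B u v ≠ 0

theorem exists_Om {U : Submodule K X} (hU : SI R U) (h : AltDual R χ U) : Nonempty (Om R χ U) := by
  obtain ⟨Δ1, hΔ1, h1⟩ := hU.2.1
  obtain ⟨Δ2, hΔ2, B, hB0, hBalt, hB⟩ := h
  exact ⟨⟨Δ1 ⊓ Δ2, inferInstance, fun g hg => h1 g hg.1, B, fun g hg => hB g hg.2, hBalt, hB0⟩⟩

namespace Om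

variable {U : Submodule K X} (O : Om R χ U)

/-- The form on the subspace. -/
def om : U →ₗ[K] U →ₗ[K] K := O.B.compl₁₂ U.subtype U.subtype

theorem om_apply (u v : U) : O.om u v = O.B u v := rfl

theorem om_alt (v : U) : O.om v v = 0 := O.alt v v.2

theorem om_nd (hU : SI R U) (u : U) (hu : ∀ v, O.om u v = 0) : u = 0 :=
  Subtype.ext (du_left hU hU.2.1 O.hΔ O.ne O.inv u u.2 fun v hv => hu ⟨v, hv⟩)

theorem om_sim (g : O.Δ) (u v : U) :
    O.om (resR R O.Δ U O.st g u) (resR R O.Δ U O.st g v) = χ g.1 * O.om u v :=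
  O.inv g.1 g.2 u u.2 v v.2

theorem om_eqp : ∃ Δ : Subgroup Γ, Δ.FiniteIndex ∧ ∀ g ∈ Δ, ∀ (u u' v v' : U),
    (u' : X) = R g u → (v' : X) = R g v → O.om u' v' = χ g * O.om u v := by
  refine ⟨O.Δ, O.hΔ, fun g hg u u' v v' hu hv => ?_⟩
  rw [om_apply, om_apply, hu, hv]
  exact O.inv g hg u u.2 v v.2

theorem om_ne : O.om ≠ 0 := by
  obtain ⟨u, hu, v, hv, h⟩ := O.ne
  intro h0
  apply h
  have h1 : O.om ⟨u, hu⟩ ⟨v, hv⟩ = 0 := by rw [h0]; rfl
  exact h1

end Om

theorem isTate2_zero : IsTate2 R χ 0 :=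
  ⟨⊤, inferInstance, fun s _ u v => by
    rw [LinearMap.zero_apply, LinearMap.zero_apply, LinearMap.zero_apply, LinearMap.zero_apply,
      mul_zero]⟩

theorem isTate2_sum {ι : Type} [Fintype ι] (b : ι → (X →ₗ[K] X →ₗ[K] K))
    (h : ∀ i, IsTate2 R χ (b i)) : IsTate2 R χ (∑ i, b i) := by
  choose Δ hΔ h using h
  refine ⟨⨅ i, Δ i, Subgroup.finiteIndex_iInf hΔ, fun s hs u v => ?_⟩
  simp only [LinearMap.sum_apply]
  rw [Finset.mul_sum]
  exact Finset.sum_congr rfl fun i _ => h i s (Subgroup.mem_iInf.1 hs i) u v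

section main

variable [IsAlgClosed K] (ω : X →ₗ[K] X →ₗ[K] K) (hnd : ∀ u, (∀ v, ω u v = 0) → u = 0)
  (hωR : ∀ g u v, ω (R g u) (R g v) = χ g * ω u v) (hss : HasProj R)
  (hgen : ∀ x : Module.End K X, (∀ b, IsTate2 R χ b → ∀ u v, b (x u) v + b u (x v) = 0) →
    x ∈ lieT R χ)
  {s : ℕ} {W : Fin s → Submodule K X} (h : Reps R W) (d : Dec R W) (O : ∀ i, Om R χ (W i))

include hgen h in
/-- Families of skew operators give elements of the Lie algebra. -/
theorem Th_mem (x : ∀ i, Module.End K (W i))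
    (hx : ∀ i u v, (O i).om (x i u) v + (O i).om u (x i v) = 0) : Th d x ∈ lieT R χ :=
  hgen _ fun _ hb u v => Th_skew d h (fun i => (O i).om) (fun i => (O i).om_eqp)
    (fun i => (O i).om_ne) x hx hb u v

include hgen h d in
theorem ss_mem (i : Fin s) (u : W i) :
    ∃ x ∈ lieT R χ, ∀ w : W i, ((SS (O i).om u u w : W i) : X) = x w := by
  classical
  refine ⟨Th d (Pi.single i (SS (O i).om u u)), Th_mem hgen h d O _ fun j a b => ?_,
    fun w => ?_⟩
  · by_cases hij : j = i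
    · subst hij
      have hanti := alt_anti (O j).om_alt
      rw [Pi.single_eq_same, SS_apply, SS_apply, map_add, map_add, map_smul, map_smul,
        LinearMap.add_apply, LinearMap.smul_apply, smul_eq_mul, smul_eq_mul, hanti a u]
      ring
    · rw [Pi.single_eq_of_ne hij, LinearMap.zero_apply, LinearMap.zero_apply, map_zero, map_zero,
        LinearMap.zero_apply, add_zero]
  · rw [Th_on d h, Pi.single_eq_same]

end main

end

end Pool.Agent.E8helper1.AP
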