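import Mathlib
import Pool.Agent.E8helper1.AP.Om

/-!
# The Lie algebra of a normal subgroup
-/

set_option autoImplicit false
set_option linter.unusedSectionVars false

namespace Pool.Agent.E8helper1.AP

open Module Pool.Agent.H204R3.CM Pool.Agent.H204R3.SP Pool.Agent.H204R3.GP Pool.Agent.W522.U
  Pool.Agent.W529.Ta Pool.Agent.W528.Odd Pool.Agent.Y126.OT Pool.Agent.Y126.Toric
  Pool.Agent.TH118.CR Pool.Agent.TH118.WC LieModule

attribute [local instance 100] LieRing.ofAssociativeRing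

noncomputable section

/-- A commutative stable space of operators of trace zero is zero. -/
theorem abel_zero {K : Type} [Field K] [IsAlgClosed K] [CharZero K] {V : Type} [AddCommGroup V]
    [Module K V] [FiniteDimensional K V] {G : Type} [Group G] (r : Representation K G V)
    (hirr : SIrr r) (𝔞 : Submodule K (Module.End K V))
    (hcomm : ∀ x ∈ 𝔞, ∀ y ∈ 𝔞, x * y - y * x = 0)
    (hconj : ∀ g, ∀ x ∈ 𝔞, r g * x * r g⁻¹ ∈ 𝔞) (htr : ∀ x ∈ 𝔞, LinearMap.trace K V x = 0) :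
    𝔞 = ⊥ := by
  rcases subsingleton_or_nontrivial V with hV | hV
  · rw [Submodule.eq_bot_iff]
    intro x _
    ext v
    exact Subsingleton.elim _ _
  have hlie : ∀ x ∈ 𝔞, ∀ y ∈ 𝔞, x * y - y * x ∈ 𝔞 := fun x hx y hy => by
    rw [hcomm x hx y hy]
    exact 𝔞.zero_mem
  let L : LieSubalgebra K (Module.End K V) := { 𝔞 with lie_mem' := fun {x y} hx hy => hlie x hx y hy }
  have habel : IsLieAbelian L := ⟨fun x y => Subtype.ext (hcomm x.1 x.2 y.1 y.2)⟩
  obtain ⟨χ, hχ⟩ := LieModule.exists_nontrivial_weightSpace_of_isSolvable K L V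
  -- weight spaces
  let W : (𝔞 → K) → Submodule K V := fun χ =>
    { carrier := {v | ∀ x : 𝔞, x.1 v = χ x • v}
      zero_mem' := fun x => by rw [map_zero, smul_zero]
      add_mem' := by
        intro a b ha hb x
        rw [map_add, ha x, hb x, smul_add]
      smul_mem' := by
        intro c a ha x
        rw [map_smul, ha x, smul_comm] }
  let _ := Pool.Agent.W363.OT.Cart.act r 𝔞 hconj
  have hsm : ∀ (g : G) (χ : 𝔞 → K) (x : 𝔞),
      (g • χ) x = χ ⟨r g⁻¹ * x.1 * r (g⁻¹)⁻¹, hconj g⁻¹ x.1 x.2⟩ := fun g χ x => rfl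
  have hW : ∀ (g : G) (χ : 𝔞 → K) (v : V), v ∈ W χ → r g v ∈ W (g • χ) := by
    intro g χ v hv x
    rw [Pool.Agent.W363.OT.Cart.conj_apply r g, hsm]
    have := hv ⟨r g⁻¹ * x.1 * r (g⁻¹)⁻¹, hconj g⁻¹ x.1 x.2⟩
    simp only at this
    rw [this, map_smul]
  have hfin : {χ : 𝔞 → K | W χ ≠ ⊥}.Finite := by
    have h1 := LieModule.finite_genWeightSpace_ne_bot K L V
    refine h1.subset ?_
    intro ψ hψ h2
    apply hψ
    rw [Submodule.eq_bot_iff]
    intro v hv
    have h3 : v ∈ weightSpace V (fun x : L => ψ x) := by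
      rw [mem_weightSpace]
      intro x
      exact hv x
    have h4 := weightSpace_le_genWeightSpace V (fun x : L => ψ x) h3
    have h5 : genWeightSpace V (fun x : L => ψ x) = ⊥ := h2
    rw [h5] at h4
    simpa using h4
  set χ0 : 𝔞 → K := fun x => χ x with hχ0
  have hWχ : W χ0 ≠ ⊥ := by
    obtain ⟨⟨v, hv⟩, hv0⟩ := exists_ne (0 : weightSpace V χ)
    have hvne : v ≠ 0 := fun h => hv0 (Subtype.ext h)
    refine (Submodule.ne_bot_iff _).2 ⟨v, ?_, hvne⟩
    rw [mem_weightSpace] at hv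
    intro x
    exact hv x
  -- the stabiliser
  have horb : (MulAction.orbit G χ0).Finite := by
    refine hfin.subset ?_
    rintro _ ⟨g, rfl⟩
    obtain ⟨v, hv, hv0⟩ := (Submodule.ne_bot_iff _).1 hWχ
    refine (Submodule.ne_bot_iff _).2 ⟨r g v, hW g χ0 v hv, ?_⟩
    intro h
    apply hv0
    have : (r g⁻¹ * r g) v = 0 := by
      rw [Module.End.mul_apply, h, map_zero]
    rwa [Pool.Agent.W363.OT.Cart.inv_mul', Module.End.one_apply] at this
  have hfi : (MulAction.stabilizer G χ0).FiniteIndex := by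
    have : Finite (MulAction.orbit G χ0) := horb
    have : Finite (G ⧸ MulAction.stabilizer G χ0) :=
      Finite.of_equiv _ (MulAction.orbitEquivQuotientStabilizer G χ0)
    exact Subgroup.finiteIndex_of_finite_quotient
  have htop : W χ0 = ⊤ := by
    refine (hirr _ hfi (W χ0) ?_).resolve_left hWχ
    intro g hg u hu
    have h1 := hW g χ0 u hu
    rw [MulAction.mem_stabilizer_iff] at hg
    rwa [hg] at h1
  rw [Submodule.eq_bot_iff]
  intro x hx
  have hx1 : x = χ0 ⟨x, hx⟩ • (1 : Module.End K V) := by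
    ext v
    have hv : v ∈ W χ0 := htop ▸ Submodule.mem_top
    exact hv ⟨x, hx⟩
  have h2 := htr x hx
  rw [hx1, map_smul, LinearMap.trace_one, smul_eq_mul, mul_eq_zero] at h2
  have h3 : (finrank K V : K) ≠ 0 := by
    rw [Nat.cast_ne_zero]
    exact (finrank_pos (R := K) (M := V)).ne'
  rw [hx1, h2.resolve_right h3, zero_smul]

variable {K : Type} [Field K] [CharZero K] {X : Type} [AddCommGroup X] [Module K X]
  [FiniteDimensional K X] {Γ : Type} [Group Γ] {R : Representation K Γ X} {χ : Γ →* K}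
  {H : Subgroup Γ}

/-- On a strongly irreducible subspace the elements of a stable Lie algebra with zero trace form
commute. -/
theorem comm_on (I : Submodule K (Module.End K X))
    (hbr : ∀ x ∈ I, ∀ y ∈ I, x * y - y * x ∈ I)
    (hconj : ∀ g : Γ, ∀ x ∈ I, R g * x * R g⁻¹ ∈ I)
    (hform : ∀ x ∈ I, ∀ y ∈ I, LinearMap.trace K X (x * y) = 0) {U : Submodule K X}
    (hU : SI R U) (hst : ∀ x ∈ I, ∀ u ∈ U, x u ∈ U) :
    ∀ x ∈ I, ∀ y ∈ I, ∀ u ∈ U, (x * y - y * x) u = 0 := by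
  let L : LieSubalgebra K (Module.End K X) := { I with lie_mem' := fun {x y} hx hy => hbr x hx y hy }
  have htf : LieModule.traceForm K L X = 0 := by
    ext x y
    rw [traceForm_apply_apply]
    exact hform x.1 x.2 y.1 y.2
  have hnil := LieModule.isNilpotent_derivedSeries_of_traceForm_eq_zero htf
  let N : LieSubmodule K (LieAlgebra.derivedSeries K L 1) X :=
    { U with lie_mem := fun {x u} hu => hst x.1.1 x.1.2 u hu }
  have hnilN : LieModule.IsNilpotent (LieAlgebra.derivedSeries K L 1) N :=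
    Function.Injective.lieModuleIsNilpotent (R := K) (f := LieHom.id)
      (g := (N.incl : N →ₗ[K] X)) (fun x m => rfl) N.injective_incl
  have hntN : Nontrivial N := by
    obtain ⟨u, hu, hu0⟩ := Submodule.exists_mem_ne_zero_of_ne_bot hU.1
    exact ⟨⟨u, hu⟩, 0, fun h => hu0 (congrArg Subtype.val h)⟩
  have hnt : Nontrivial (maxTrivSubmodule K (LieAlgebra.derivedSeries K L 1) N) :=
    nontrivial_max_triv_of_isNilpotent K (LieAlgebra.derivedSeries K L 1) N
  let V0 : Submodule K X :=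
    { carrier := {v | v ∈ U ∧ ∀ x ∈ I, ∀ y ∈ I, (x * y - y * x) v = 0}
      zero_mem' := ⟨U.zero_mem, fun x _ y _ => map_zero _⟩
      add_mem' := by
        intro a b ha hb
        refine ⟨U.add_mem ha.1 hb.1, fun x hx y hy => ?_⟩
        rw [map_add, ha.2 x hx y hy, hb.2 x hx y hy, add_zero]
      smul_mem' := by
        intro c a ha
        refine ⟨U.smul_mem _ ha.1, fun x hx y hy => ?_⟩
        rw [map_smul, ha.2 x hx y hy, smul_zero] }
  obtain ⟨Δ, hΔ, hΔU⟩ := hU.2.1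
  have hpot : Pot R V0 := by
    refine ⟨Δ, hΔ, fun g hg v hv => ⟨hΔU g hg v hv.1, fun x hx y hy => ?_⟩⟩
    have h2 := hv.2 (R g⁻¹ * x * R (g⁻¹)⁻¹) (hconj g⁻¹ x hx) (R g⁻¹ * y * R (g⁻¹)⁻¹)
      (hconj g⁻¹ y hy)
    rw [Pool.Agent.W363.OT.Cart.conj_apply R g]
    have h3 : R g⁻¹ * (x * y - y * x) * R (g⁻¹)⁻¹ =
        (R g⁻¹ * x * R (g⁻¹)⁻¹) * (R g⁻¹ * y * R (g⁻¹)⁻¹) -
        (R g⁻¹ * y * R (g⁻¹)⁻¹) * (R g⁻¹ * x * R (g⁻¹)⁻¹) := by
      have h4 : R (g⁻¹)⁻¹ * R g⁻¹ = 1 := by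
        rw [inv_inv]
        exact Pool.Agent.W363.OT.Cart.mul_inv' R g
      have e : ∀ a b : Module.End K X, (R g⁻¹ * a * R (g⁻¹)⁻¹) * (R g⁻¹ * b * R (g⁻¹)⁻¹) =
          R g⁻¹ * (a * b) * R (g⁻¹)⁻¹ := by
        intro a b
        calc (R g⁻¹ * a * R (g⁻¹)⁻¹) * (R g⁻¹ * b * R (g⁻¹)⁻¹)
            = R g⁻¹ * a * (R (g⁻¹)⁻¹ * R g⁻¹) * b * R (g⁻¹)⁻¹ := by simp only [mul_assoc]
          _ = R g⁻¹ * (a * b) * R (g⁻¹)⁻¹ := by rw [h4, mul_one]; simp only [mul_assoc]
      rw [e, e, mul_sub, sub_mul]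
    rw [h3, h2, map_zero]
  rcases hU.2.2 V0 (fun v hv => hv.1) hpot with h1 | h1
  · exfalso
    obtain ⟨⟨v, hv⟩, hv0⟩ := exists_ne
      (0 : maxTrivSubmodule K (LieAlgebra.derivedSeries K L 1) N)
    have hvne : v ≠ 0 := fun h => hv0 (Subtype.ext h)
    apply hvne
    have h2 : (v : X) ∈ V0 := by
      refine ⟨v.2, fun x hx y hy => ?_⟩
      rw [mem_maxTrivSubmodule] at hv
      have hmem : ⁅(⟨x, hx⟩ : L), (⟨y, hy⟩ : L)⁆ ∈ LieAlgebra.derivedSeries K L 1 := by
        rw [LieAlgebra.derivedSeries_def, LieAlgebra.derivedSeriesOfIdeal_succ,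
          LieAlgebra.derivedSeriesOfIdeal_zero]
        exact LieSubmodule.lie_mem_lie (LieSubmodule.mem_top _) (LieSubmodule.mem_top _)
      have h3 := hv ⟨_, hmem⟩
      exact congrArg Subtype.val h3
    rw [h1, Submodule.mem_bot] at h2
    exact Subtype.ext h2
  · intro x hx y hy u hu
    rw [← h1] at hu
    exact hu.2 x hx y hy

section main

variable [IsAlgClosed K] (ω : X →ₗ[K] X →ₗ[K] K) (hnd : ∀ u, (∀ v, ω u v = 0) → u = 0)
  (hωR : ∀ g u v, ω (R g u) (R g v) = χ g * ω u v) (hss : HasProj R)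

include hnd hωR hss in
/-- Elements of the Lie algebra commute with potentially equivariant maps. -/
theorem lieT_map {U : Submodule K X} (hU : Pot R U) {T : U →ₗ[K] X}
    (hT : ∃ Δ : Subgroup Γ, Δ.FiniteIndex ∧ ∀ g ∈ Δ, ∀ u u' : U, (u' : X) = R g u →
      T u' = R g (T u)) {x : Module.End K X} (hx : x ∈ lieT R χ) (u u' : U)
    (hu : (u' : X) = x u) : x (T u) = T u' := by
  obtain ⟨Δ', hΔ', h1⟩ := id hU
  obtain ⟨Δ, hΔ, hT⟩ := hT
  obtain ⟨p, hp1, hp2, hp3⟩ := hss (Δ ⊓ Δ') inferInstance U (fun g hg => h1 g hg.2)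
  let π : X →ₗ[K] U := p.codRestrict U hp1
  have hπ : ∀ u : U, π u = u := fun u => Subtype.ext (hp2 u u.2)
  have h2 := Pool.Agent.W839.OT.HTFam.comm R χ ω hnd hωR (Δ ⊓ Δ') inferInstance (T.comp π)
    (fun g hg v => hT g hg.1 (π v) (π (R g v)) (hp3 g hg v)) x hx u
  rw [LinearMap.comp_apply, LinearMap.comp_apply, hπ, ← hu, hπ] at h2
  exact h2

variable {s : ℕ} {W : Fin s → Submodule K X} (h : Reps R W) (d : Dec R W)
  (O : ∀ i, Om R χ (W i))

include hnd hωR hss h d in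
/-- Elements of the Lie algebra which vanish on the representatives are zero. -/
theorem lieT_zero {x : Module.End K X} (hx : x ∈ lieT R χ) (h0 : ∀ i, ∀ u ∈ W i, x u = 0) :
    x = 0 := by
  refine LinearMap.ext fun v => ?_
  rw [← d.sum v, map_sum, LinearMap.zero_apply]
  refine Finset.sum_eq_zero fun l _ => ?_
  rw [map_smul, lieT_map ω hnd hωR hss (h.si _).2.1 ⟨d.D, d.hD, fun g hg u u' huu =>
    d.hι l g hg u u' huu⟩ hx (d.p l v) 0 (h0 _ _ (SetLike.coe_mem _)).symm, map_zero, smul_zero]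

include hnd hωR hss h d O in
/-- The trace form on the Lie algebra of a normal subgroup is nondegenerate. -/
theorem orth_lieT [hHn : H.Normal] :
    orth (lieT (sub R H) (chr χ H)) (lieT (sub R H) (chr χ H)) = ⊥ := by
  set L := lieT (sub R H) (chr χ H) with hL
  have hLR : ∀ x ∈ L, x ∈ lieT R χ := fun x hx => lieT_sub_le hx
  have hIbr : ∀ x ∈ orth L L, ∀ y ∈ orth L L, x * y - y * x ∈ orth L L := by
    rintro x ⟨hx, hx'⟩ y ⟨hy, hy'⟩
    refine ⟨lieT_bracket _ _ hx hy, fun z hz => ?_⟩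
    rw [trace_br]
    exact hx' _ (lieT_bracket _ _ hy hz)
  have hIconj : ∀ g : Γ, ∀ x ∈ orth L L, R g * x * R g⁻¹ ∈ orth L L := by
    rintro g x ⟨hx, hx'⟩
    refine ⟨lieT_conj_sub g hx, fun z hz => ?_⟩
    have h1 := hx' _ (lieT_conj_sub g⁻¹ hz)
    have h2 : LinearMap.trace K X (R g * x * R g⁻¹ * z) =
        LinearMap.trace K X (x * (R g⁻¹ * z * R g)) := by
      rw [mul_assoc, mul_assoc, LinearMap.trace_mul_comm, mul_assoc, mul_assoc]
    rw [h2]
    rw [inv_inv] at h1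
    exact h1
  rw [eq_bot_iff]
  intro x hx
  rw [Submodule.mem_bot]
  refine lieT_zero ω hnd hωR hss h d (hLR x hx.1) fun i u hu => ?_
  have hst : ∀ x ∈ orth L L, ∀ u ∈ W i, x u ∈ W i := fun x hx =>
    lieT_stable ω hnd hωR hss (h.si i).2.1 (hLR x hx.1)
  have hcomm := comm_on (orth L L) hIbr hIconj (fun x hx y hy => hx.2 y hy.1) (h.si i) hst
  -- the restrictions
  let 𝔞 : Submodule K (Module.End K (W i)) :=
    { carrier := {Y | ∃ x ∈ orth L L, ∀ u : W i, ((Y u : W i) : X) = x u}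
      zero_mem' := ⟨0, (orth L L).zero_mem, fun u => rfl⟩
      add_mem' := by
        rintro Y Y' ⟨x, hx, hY⟩ ⟨x', hx', hY'⟩
        refine ⟨x + x', (orth L L).add_mem hx hx', fun u => ?_⟩
        rw [LinearMap.add_apply, LinearMap.add_apply, ← hY, ← hY']
        rfl
      smul_mem' := by
        rintro c Y ⟨x, hx, hY⟩
        refine ⟨c • x, (orth L L).smul_mem _ hx, fun u => ?_⟩
        rw [LinearMap.smul_apply, LinearMap.smul_apply, ← hY]
        rfl }
  have h𝔞 : 𝔞 = ⊥ := by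
    refine abel_zero (resR R (O i).Δ (W i) (O i).st) (sIrr_res (h.si i) (O i).Δ (O i).hΔ (O i).st)
      𝔞 ?_ ?_ ?_
    · rintro Y ⟨y, hy, hY⟩ Y' ⟨y', hy', hY'⟩
      refine LinearMap.ext fun u => Subtype.ext ?_
      have h1 := hcomm y hy y' hy' u u.2
      rw [LinearMap.sub_apply, Module.End.mul_apply, Module.End.mul_apply, ← hY', ← hY, ← hY,
        ← hY'] at h1
      exact h1
    · rintro g Y ⟨y, hy, hY⟩
      refine ⟨R g.1 * y * R g.1⁻¹, hIconj g.1 y hy, fun u => ?_⟩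
      change R g.1 ((Y (resR R (O i).Δ (W i) (O i).st g⁻¹ u) : W i) : X) = R g.1 (y (R g.1⁻¹ u))
      rw [hY]
      rfl
    · rintro Y ⟨y, hy, hY⟩
      refine trace_sp (O i).om ((O i).om_nd (h.si i)) fun a b => ?_
      rw [Om.om_apply, Om.om_apply, hY, hY]
      exact lieT_skew ω hnd hωR hss (h.si i).2.1 (O i).hΔ (O i).B (O i).inv (hLR y hy.1)
        a a.2 b b.2
  have h1 : (x.restrict (hst x hx)) ∈ 𝔞 := ⟨x, hx, fun u => rfl⟩
  rw [h𝔞, Submodule.mem_bot] at h1
  have h2 := congrArg (fun f : Module.End K (W i) => ((f ⟨u, hu⟩ : W i) : X)) h1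
  exact h2

end main

end

end Pool.Agent.E8helper1.AP
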