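import Mathlib
import Pool.Agent.E8helper1.AP.Cartan

/-!
# The Lie algebra of a normal subgroup is an ideal
-/

set_option autoImplicit false
set_option linter.unusedSectionVars false

namespace Pool.Agent.E8helper1.AP

open Module Pool.Agent.H204R3.CM Pool.Agent.H204R3.SP Pool.Agent.H204R3.GP Pool.Agent.W522.U
  Pool.Agent.W529.Ta Pool.Agent.W528.Odd Pool.Agent.Y126.OT Pool.Agent.Y126.Toric
  Pool.Agent.TH118.CR Pool.Agent.TH118.WC

noncomputable section

variable {K : Type} [Field K] [CharZero K] {X : Type} [AddCommGroup X] [Module K X]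
  [FiniteDimensional K X] {Γ : Type} [Group Γ] {R : Representation K Γ X} {χ : Γ →* K}
  {H : Subgroup Γ}

/-- The rank one operators, as a bilinear function. -/
def A1 (ω : X →ₗ[K] X →ₗ[K] K) : X →ₗ[K] X →ₗ[K] Module.End K X :=
  (LinearMap.smulRightₗ : Dual K X →ₗ[K] X →ₗ[K] Module.End K X).compl₁₂ ω
    (LinearMap.id : X →ₗ[K] X)

theorem A1_apply (ω : X →ₗ[K] X →ₗ[K] K) (u v w : X) : A1 ω u v w = ω u w • v := rfl

theorem span_A1 (ω : X →ₗ[K] X →ₗ[K] K) (hnd : ∀ u, (∀ v, ω u v = 0) → u = 0)
    (y : Module.End K X) : y ∈ Submodule.span K {z | ∃ a b : X, z = A1 ω a b} := by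
  have hinj : Function.Injective ω := by
    rw [injective_iff_map_eq_zero]
    intro u hu
    exact hnd u fun v => by rw [hu, LinearMap.zero_apply]
  let B : X ≃ₗ[K] Dual K X := LinearEquiv.ofInjectiveOfFinrankEq ω hinj
    (Subspace.dual_finrank_eq).symm
  let bU := Module.finBasis K X
  have h1 : y = ∑ i, A1 ω (B.symm (bU.coord i)) (y (bU i)) := by
    refine LinearMap.ext fun w => ?_
    rw [LinearMap.sum_apply]
    conv_lhs => rw [← bU.sum_repr w, map_sum]
    refine Finset.sum_congr rfl fun i _ => ?_
    rw [map_smul, A1_apply]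
    congr 1
    have h2 : B (B.symm (bU.coord i)) = bU.coord i := B.apply_symm_apply _
    have h3 := congrArg (fun f : Dual K X => f w) h2
    exact h3.symm
  rw [h1]
  exact Submodule.sum_mem _ fun i _ => Submodule.subset_span ⟨_, _, rfl⟩

/-- The operators in the Lie algebra of the group normalize the stable Lie algebras. -/
theorem normalizes_all (ω : X →ₗ[K] X →ₗ[K] K) (hnd : ∀ u, (∀ v, ω u v = 0) → u = 0)
    (hωR : ∀ g u v, ω (R g u) (R g v) = χ g * ω u v)
    {L : Submodule K (Module.End K X)} (hL : orth L L = ⊥)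
    (hconj : ∀ g : Γ, ∀ y ∈ L, R g * y * R g⁻¹ ∈ L) {x : Module.End K X} (hx : x ∈ lieT R χ)
    {y : Module.End K X} (hy : y ∈ L) : x * y - y * x ∈ L := by
  classical
  have hxs : ∀ u w, ω (x u) w + ω u (x w) = 0 := fun u w => lieT_sp R χ ω hωR hx u w
  obtain ⟨P, hP1, hP2⟩ := exists_orth_proj L hL
  have hPL : ∀ y ∈ L, P y = y := fun y hy => orth_unique hL (hP1 y) hy (hP2 y)
  have hPg : ∀ (g : Γ) (y : Module.End K X), P (R g * y * R g⁻¹) = R g * P y * R g⁻¹ := by
    intro g y
    refine orth_unique hL (hP1 _) (hconj g _ (hP1 y)) fun c hc => ?_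
    have h1 := hconj g⁻¹ c hc
    rw [inv_inv] at h1
    have h2 : ∀ y, LinearMap.trace K X (R g * y * R g⁻¹ * c) =
        LinearMap.trace K X (y * (R g⁻¹ * c * R g)) := by
      intro y
      rw [mul_assoc, mul_assoc, LinearMap.trace_mul_comm, mul_assoc, mul_assoc]
    rw [hP2 _ c hc, h2, h2, hP2 _ _ h1]
  have hAg : ∀ (g : Γ) u v, A1 ω (R g u) (R g v) = χ g • (R g * A1 ω u v * R g⁻¹) := by
    intro g u v
    refine LinearMap.ext fun w => ?_
    rw [A1_apply, LinearMap.smul_apply, Module.End.mul_apply, Module.End.mul_apply,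
      A1_apply, map_smul, smul_smul, ← hωR, Rinv']
  have hAx : ∀ u v : X, A1 ω (x u) v + A1 ω u (x v) = x * A1 ω u v - A1 ω u v * x := by
    intro u v
    refine LinearMap.ext fun w => ?_
    rw [LinearMap.add_apply, LinearMap.sub_apply, Module.End.mul_apply, Module.End.mul_apply,
      A1_apply, A1_apply, A1_apply, A1_apply, map_smul]
    have h1 := hxs u w
    have h2 : ω (x u) w = -ω u (x w) := by linear_combination h1
    rw [h2, neg_smul]
    abel
  -- the form
  let bas := Module.finBasis K (Module.End K X)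
  let C : Fin (finrank K (Module.End K X)) → Fin 2 → (X →ₗ[K] X →ₗ[K] K) := fun i =>
    ![(A1 ω).compr₂ ((bas.coord i).comp P),
      (A1 ω).compr₂ ((LinearMap.trace K X).comp (LinearMap.mulLeft K (bas i)))]
  let φ : MultilinearMap K (fun _ : Fin 2 × Fin 2 => X) K := ∑ i, mmG 1 (C i)
  have hφ : ∀ v, φ v = LinearMap.trace K X (P (A1 ω (v (0, 0)) (v (0, 1))) *
      A1 ω (v (1, 0)) (v (1, 1))) := by
    intro v
    have h1 : P (A1 ω (v (0, 0)) (v (0, 1))) =
        ∑ i, bas.coord i (P (A1 ω (v (0, 0)) (v (0, 1)))) • bas i := (bas.sum_repr _).symm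
    rw [h1, Finset.sum_mul, map_sum]
    change (∑ i, mmG 1 (C i)) v = _
    have h2 : ∀ s : Finset (Fin (finrank K (Module.End K X))), (∑ i ∈ s, mmG 1 (C i)) v =
        ∑ i ∈ s, mmG 1 (C i) v := by
      intro s
      induction s using Finset.induction_on with
      | empty => rfl
      | insert j s hj ih =>
        rw [Finset.sum_insert hj, Finset.sum_insert hj, ← ih]
        rfl
    rw [h2]
    refine Finset.sum_congr rfl fun i _ => ?_
    rw [mmG_apply, Fin.prod_univ_two, smul_mul_assoc, map_smul, smul_eq_mul]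
    rfl
  have hT : IsTate R χ 2 φ := by
    refine ⟨⊤, inferInstance, fun g _ v => ?_⟩
    rw [hφ, hφ, hAg, hAg, map_smul, hPg, smul_mul_assoc, mul_smul_comm, map_smul,
      map_smul, smul_eq_mul, smul_eq_mul, ← mul_assoc, ← pow_two]
    congr 1
    have h1 : ∀ a b : Module.End K X, LinearMap.trace K X
        (R g * a * R g⁻¹ * (R g * b * R g⁻¹)) = LinearMap.trace K X (a * b) := by
      intro a b
      have e1 : R g⁻¹ * R g = 1 := by
        rw [← map_mul, inv_mul_cancel, map_one]
      have e2 : R g * a * R g⁻¹ * (R g * b * R g⁻¹) = R g * (a * b * R g⁻¹) := by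
        calc _ = R g * a * (R g⁻¹ * R g) * b * R g⁻¹ := by simp only [mul_assoc]
          _ = _ := by rw [e1, mul_one]; simp only [mul_assoc]
      rw [e2, LinearMap.trace_mul_comm, mul_assoc, e1, mul_one]
    exact h1 _ _
  -- the operator kills the form
  have key : ∀ a b c d : X, LinearMap.trace K X (P (x * A1 ω a b - A1 ω a b * x) *
      A1 ω c d) + LinearMap.trace K X (P (A1 ω a b) *
      (x * A1 ω c d - A1 ω c d * x)) = 0 := by
    intro a b c d
    have h1 := hx 2 φ hT (fun k => if k.1 = 0 then (if k.2 = 0 then a else b) else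
      (if k.2 = 0 then c else d))
    rw [Fintype.sum_prod_type, Fin.sum_univ_two, Fin.sum_univ_two, Fin.sum_univ_two, hφ, hφ, hφ,
      hφ] at h1
    rw [← hAx, ← hAx, map_add, add_mul, mul_add, map_add, map_add, ← add_assoc]
    simpa [Function.update_apply, add_assoc] using h1
  have hspan := span_A1 ω hnd
  have key2 : ∀ y z : Module.End K X, LinearMap.trace K X (P (x * y - y * x) * z) +
      LinearMap.trace K X (P y * (x * z - z * x)) = 0 := by
    intro y z
    induction hspan y using Submodule.span_induction with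
    | mem y hy =>
      obtain ⟨a, b, rfl⟩ := hy
      induction hspan z using Submodule.span_induction with
      | mem z hz =>
        obtain ⟨c, d, rfl⟩ := hz
        exact key a b c d
      | zero => simp
      | add z z' _ _ hz hz' =>
        have e1 : x * (z + z') - (z + z') * x = (x * z - z * x) + (x * z' - z' * x) := by
          rw [mul_add, add_mul]
          abel
        rw [e1, mul_add, mul_add, map_add, map_add]
        linear_combination hz + hz'
      | smul c z _ hz =>
        have e1 : x * (c • z) - (c • z) * x = c • (x * z - z * x) := by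
          rw [mul_smul_comm, smul_mul_assoc, smul_sub]
        rw [e1, mul_smul_comm, mul_smul_comm, map_smul, map_smul, ← smul_add, hz, smul_zero]
    | zero => simp
    | add y y' _ _ hy hy' =>
      have e1 : x * (y + y') - (y + y') * x = (x * y - y * x) + (x * y' - y' * x) := by
        rw [mul_add, add_mul]
        abel
      rw [e1, map_add, map_add, add_mul, add_mul, map_add, map_add]
      linear_combination hy + hy'
    | smul c y _ hy =>
      have e1 : x * (c • y) - (c • y) * x = c • (x * y - y * x) := by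
        rw [mul_smul_comm, smul_mul_assoc, smul_sub]
      rw [e1, map_smul, map_smul, smul_mul_assoc, smul_mul_assoc, map_smul, map_smul, ← smul_add,
        hy, smul_zero]
  have key3 : P (x * y - y * x) = x * P y - P y * x := by
    rw [← sub_eq_zero]
    refine trace_nondeg fun z => ?_
    have h1 := key2 y z
    have h2 : LinearMap.trace K X (P y * (x * z - z * x)) =
        -LinearMap.trace K X ((x * P y - P y * x) * z) := by
      have h3 := trace_br x (P y) z
      have h4 : LinearMap.trace K X (x * (P y * z - z * P y)) =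
          -LinearMap.trace K X (P y * (x * z - z * x)) := by
        rw [mul_sub, mul_sub, map_sub, map_sub]
        have e1 : LinearMap.trace K X (x * (P y * z)) = LinearMap.trace K X (P y * (z * x)) := by
          rw [LinearMap.trace_mul_comm, mul_assoc]
        have e2 : LinearMap.trace K X (x * (z * P y)) = LinearMap.trace K X (P y * (x * z)) := by
          rw [← mul_assoc, LinearMap.trace_mul_comm]
        rw [e1, e2]
        ring
      rw [h3, h4, neg_neg]
    rw [sub_mul, map_sub, sub_eq_zero]
    rw [h2] at h1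
    linear_combination h1
  rw [hPL y hy] at key3
  rw [← key3]
  exact hP1 _

section main

variable [IsAlgClosed K] (ω : X →ₗ[K] X →ₗ[K] K) (hnd : ∀ u, (∀ v, ω u v = 0) → u = 0)
  (hωR : ∀ g u v, ω (R g u) (R g v) = χ g * ω u v) (hss : HasProj R)
  (hgen : ∀ x : Module.End K X, (∀ b, IsTate2 R χ b → ∀ u v, b (x u) v + b u (x v) = 0) →
    x ∈ lieT R χ)
  {s : ℕ} {W : Fin s → Submodule K X} (h : Reps R W) (d : Dec R W)
  (O : ∀ i, Om R χ (W i))

/-- The transvection supported on the subspace `W i`. -/
def Yu (i : Fin s) (u : W i) : Module.End K X := by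
  classical
  exact Th d (Pi.single i (SS (O i).om u u))

include hgen h in
theorem Yu_mem (i : Fin s) (u : W i) : Yu d O i u ∈ lieT R χ := by
  classical
  refine Th_mem hgen h d O _ fun j a b => ?_
  by_cases hij : j = i
  · subst hij
    have hanti := alt_anti (O j).om_alt
    rw [Pi.single_eq_same, SS_apply, SS_apply, map_add, map_add, map_smul, map_smul,
      LinearMap.add_apply, LinearMap.smul_apply, smul_eq_mul, smul_eq_mul, hanti a u]
    ring
  · rw [Pi.single_eq_of_ne hij, LinearMap.zero_apply, LinearMap.zero_apply, map_zero, map_zero,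
      LinearMap.zero_apply, add_zero]

include h in
theorem Yu_on (i : Fin s) (u w : W i) : Yu d O i u w = SS (O i).om u u w := by
  classical
  unfold Yu
  rw [Th_on d h, Pi.single_eq_same]

include hnd hωR hss h in
/-- The product of an operator of the Lie algebra and of transvections. -/
theorem Yu_mul (i : Fin s) (u : W i) {z : Module.End K X} (hz : z ∈ lieT R χ) (zu : W i)
    (hzu : (zu : X) = z u) :
    Yu d O i u * z * Yu d O i u = (2 * (O i).om u zu) • Yu d O i u := by
  classical
  refine LinearMap.ext fun v => ?_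
  rw [Module.End.mul_apply, Module.End.mul_apply, LinearMap.smul_apply]
  unfold Yu
  rw [Th_apply d _ v, map_sum, map_sum, Finset.smul_sum]
  refine Finset.sum_congr rfl fun l _ => ?_
  rw [map_smul, map_smul, smul_comm]
  congr 1
  obtain ⟨x, hx⟩ : ∃ x : ∀ i, Module.End K (W i), x = Pi.single i (SS (O i).om u u) := ⟨_, rfl⟩
  rw [← hx]
  have hst := lieT_stable ω hnd hωR hss (h.si (d.idx l)).2.1 hz
  rw [lieT_map ω hnd hωR hss (h.si _).2.1 ⟨d.D, d.hD, fun g hg u u' huu =>
    d.hι l g hg u u' huu⟩ hz (x (d.idx l) (d.p l v)) ⟨_, hst _ (SetLike.coe_mem _)⟩ rfl,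
    Th_ι d h, ← map_smul]
  congr 1
  generalize d.p l v = w
  generalize hj : d.idx l = j at *
  by_cases hij : j = i
  · subst hij
    have hxj : x j = SS (O j).om u u := by rw [hx, Pi.single_eq_same]
    rw [hxj]
    have h1 : (⟨z (SS (O j).om u u w), hst _ (SetLike.coe_mem _)⟩ : W j) =
        (2 * (O j).om u w) • zu := by
      apply Subtype.ext
      change z ((SS (O j).om u u w : W j) : X) = _
      rw [Submodule.coe_smul, hzu, SS_apply, ← add_smul, ← two_mul, Submodule.coe_smul, map_smul]
    rw [h1, SS_apply, SS_apply, map_smul, ← add_smul, ← add_smul, ← add_smul, smul_smul]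
    congr 1
    rw [smul_eq_mul]
    ring
  · have hxj : x j = 0 := by rw [hx, Pi.single_eq_of_ne hij]
    rw [hxj, LinearMap.zero_apply, LinearMap.zero_apply, smul_zero]

include h in
theorem Yu_sq (i : Fin s) (u : W i) : Yu d O i u * Yu d O i u = 0 := by
  classical
  refine LinearMap.ext fun v => ?_
  rw [Module.End.mul_apply]
  unfold Yu
  rw [Th_apply d _ v, map_sum, LinearMap.zero_apply]
  refine Finset.sum_eq_zero fun l _ => ?_
  rw [map_smul, Th_ι d h, ← Module.End.mul_apply, ← Pi.mul_apply, ← Pi.single_mul,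
    Pool.Agent.W528.Tor.SS_sq_zero _ (O i).om_alt ((O i).om_alt _), Pi.single_zero,
    Pi.zero_apply, LinearMap.zero_apply, map_zero, smul_zero]

include hnd hωR hss hgen h in
/-- A Lie algebra of a normal subgroup which acts on `W i` contains transvections. -/
theorem Yu_sub [hHn : H.Normal] (i : Fin s)
    (hN : ∃ z ∈ lieT (sub R H) (chr χ H), ∃ u ∈ W i, z u ≠ 0) :
    ∃ u : W i, u ≠ 0 ∧ Yu d O i u ∈ lieT (sub R H) (chr χ H) := by
  obtain ⟨z, hz, w, hw, hzw⟩ := hN
  have hzR : z ∈ lieT R χ := lieT_sub_le hz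
  have hst := lieT_stable ω hnd hωR hss (h.si i).2.1 hzR
  obtain ⟨zi, hzi⟩ : ∃ zi : Module.End K (W i), ∀ u, ((zi u : W i) : X) = z u :=
    ⟨z.restrict hst, fun u => rfl⟩
  have hanti := alt_anti (O i).om_alt
  have hsk : ∀ a b, (O i).om (zi a) b + (O i).om a (zi b) = 0 := by
    intro a b
    rw [Om.om_apply, Om.om_apply, hzi, hzi]
    exact lieT_skew ω hnd hωR hss (h.si i).2.1 (O i).hΔ (O i).B (O i).inv hzR a a.2 b b.2
  obtain ⟨u, hu⟩ : ∃ u, (O i).om u (zi u) ≠ 0 := by
    by_contra hcon
    push Not at hcon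
    apply hzw
    have h0 : zi ⟨w, hw⟩ = 0 := by
      refine (O i).om_nd (h.si i) _ fun v => ?_
      have h1 := hcon (v + ⟨w, hw⟩)
      rw [map_add, map_add, map_add, LinearMap.add_apply, LinearMap.add_apply, hcon v, hcon _,
        add_zero, zero_add] at h1
      have h2 := hsk v ⟨w, hw⟩
      rw [hanti (zi v) _] at h2
      have h3 : (2 : K) * (O i).om (zi ⟨w, hw⟩) v = 0 := by
        rw [hanti (zi _) v]
        linear_combination -h1 - h2
      exact (mul_eq_zero.1 h3).resolve_left two_ne_zero
    have h1 := hzi ⟨w, hw⟩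
    rw [h0] at h1
    exact h1.symm
  refine ⟨u, fun h0 => hu (by rw [h0, map_zero, LinearMap.zero_apply]), ?_⟩
  have horth := orth_lieT (H := H) ω hnd hωR hss h d O
  have hnorm := fun {y : Module.End K X} (hy : y ∈ lieT (sub R H) (chr χ H)) =>
    normalizes_all ω hnd hωR horth (fun g y hy => lieT_conj_sub g hy) (Yu_mem hgen h d O i u) hy
  have h1 := hnorm (hnorm hz)
  have h3 := Yu_mul ω hnd hωR hss h d O i u hzR (zi u) (hzi u)
  have h2 := Yu_sq h d O i u
  have h4 : Yu d O i u * (Yu d O i u * z - z * Yu d O i u) -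
      (Yu d O i u * z - z * Yu d O i u) * Yu d O i u = (-(4 * (O i).om u (zi u))) • Yu d O i u := by
    have h5 : Yu d O i u * (Yu d O i u * z - z * Yu d O i u) -
        (Yu d O i u * z - z * Yu d O i u) * Yu d O i u = (Yu d O i u * Yu d O i u) * z +
        z * (Yu d O i u * Yu d O i u) - (2 : K) • (Yu d O i u * z * Yu d O i u) := by
      simp only [mul_sub, sub_mul, two_smul, mul_assoc]
      abel
    rw [h5, h2, h3, zero_mul, mul_zero, add_zero, zero_sub, smul_smul, ← neg_smul]
    congr 1
    ring
  rw [h4] at h1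
  exact (Submodule.smul_mem_iff _ (neg_ne_zero.2 (mul_ne_zero (by norm_num) hu))).1 h1

end main

end

end Pool.Agent.E8helper1.AP
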