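import Mathlib
import Pool.Agent.E8helper1.AP.Glob
import Pool.Agent.TH118.CR.Refl

/-!
# The forms on which a normal subgroup acts trivially
-/

set_option autoImplicit false
set_option linter.unusedSectionVars false

namespace Pool.Agent.E8helper1.AP

open Module Pool.Agent.H204R3.CM Pool.Agent.H204R3.SP Pool.Agent.H204R3.GP Pool.Agent.W522.U
  Pool.Agent.W529.Ta Pool.Agent.W528.Odd Pool.Agent.Y126.OT Pool.Agent.Y126.Toric
  Pool.Agent.TH118.CR Pool.Agent.TH118.WC
open Pool.Agent.W528.Tor (AltDual)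

noncomputable section

variable {K : Type} [Field K] [CharZero K] {X : Type} [AddCommGroup X] [Module K X]
  [FiniteDimensional K X] {Γ : Type} [Group Γ] {R : Representation K Γ X} {χ : Γ →* K}
  {H : Subgroup Γ}

section main

variable [IsAlgClosed K] (ω : X →ₗ[K] X →ₗ[K] K) (hnd : ∀ u, (∀ v, ω u v = 0) → u = 0)
  (hωR : ∀ g u v, ω (R g u) (R g v) = χ g * ω u v) (hss : HasProj R)
  (hgen : ∀ x : Module.End K X, (∀ b, IsTate2 R χ b → ∀ u v, b (x u) v + b u (x v) = 0) →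
    x ∈ lieT R χ)
  {s : ℕ} {W : Fin s → Submodule K X} (h : Reps R W) (d : Dec R W) (O : ∀ i, Om R χ (W i))

section sub

variable [hHn : H.Normal]
  (hN : ∀ i, ∃ z ∈ lieT (sub R H) (chr χ H), ∃ u ∈ W i, z u ≠ 0)

theorem resL_conj_sub {U : Submodule K X} (Δ : Subgroup Γ)
    (hUΔ : ∀ g ∈ Δ, ∀ u ∈ U, R g u ∈ U) : ∀ g : Δ, ∀ Y ∈ resL (sub R H) (chr χ H) U,
      resR R Δ U hUΔ g * Y * resR R Δ U hUΔ g⁻¹ ∈ resL (sub R H) (chr χ H) U := by
  rintro g Y ⟨x, hx, hY⟩
  refine ⟨R g.1 * x * R g.1⁻¹, lieT_conj_sub g.1 hx, fun u => ?_⟩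
  change R g.1 ((Y (resR R Δ U hUΔ g⁻¹ u) : U) : X) = R g.1 (x (R g.1⁻¹ u))
  rw [hY]
  rfl

include hnd hωR hss hgen h d hN in
theorem all_SS_sub (i : Fin s) :
    ∀ u v, SS (O i).om u v ∈ resL (sub R H) (chr χ H) (W i) := by
  obtain ⟨z, hz, w, hw, hzw⟩ := hN i
  have hst := lieT_stable ω hnd hωR hss (h.si i).2.1 (lieT_sub_le hz)
  refine all_SS hss (h.si i) (O i).hΔ (O i).st (O i).om (O i).om_alt ((O i).om_nd (h.si i))
    (O i).om_sim resL_br (resL_conj_sub _ _) ?_ (ss_mem hgen h d O i)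
    (N := z.restrict hst) ⟨z, hz, fun u => rfl⟩ ?_
  · rintro Y ⟨y, hy, hYy⟩ u w
    rw [Om.om_apply, Om.om_apply, hYy, hYy]
    exact lieT_skew ω hnd hωR hss (h.si i).2.1 (O i).hΔ (O i).B (O i).inv (lieT_sub_le hy)
      u u.2 w w.2
  · intro h0
    apply hzw
    have h1 : z.restrict hst ⟨w, hw⟩ = 0 := by rw [h0]; rfl
    exact congrArg Subtype.val h1

include hnd hωR hss hgen h d O hN in
/-- The representatives are strongly irreducible for the subgroup. -/
theorem si_sub (i : Fin s) : SI (sub R H) (W i) := by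
  refine ⟨(h.si i).1, pot_sub (h.si i).2.1, fun W' hW' hpot => ?_⟩
  by_cases h0 : W' = ⊥
  · exact Or.inl h0
  right
  refine le_antisymm hW' fun w hw => ?_
  obtain ⟨v, hv, hv0⟩ := Submodule.exists_mem_ne_zero_of_ne_bot h0
  have hall := all_SS_sub ω hnd hωR hss hgen h d O hN i
  have key : ∀ z : W i, (O i).om z ⟨v, hW' hv⟩ ≠ 0 → (z : X) ∈ W' := by
    intro z hz
    obtain ⟨x, hx, hxz⟩ := hall z z
    have h1 := lieT_stable ω hnd (fun g => hωR g.1) (hasProj_sub hss) hpot hx v hv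
    have h2 := hxz ⟨v, hW' hv⟩
    rw [← h2, SS_apply, ← add_smul, ← two_mul] at h1
    exact (Submodule.smul_mem_iff _ (mul_ne_zero two_ne_zero hz)).1 h1
  by_cases hw0 : (O i).om ⟨w, hw⟩ ⟨v, hW' hv⟩ = 0
  · obtain ⟨z, hz⟩ : ∃ z, (O i).om z ⟨v, hW' hv⟩ ≠ 0 := by
      by_contra hcon
      push Not at hcon
      apply hv0
      have hanti := alt_anti (O i).om_alt
      have h3 := (O i).om_nd (h.si i) ⟨v, hW' hv⟩ fun y => by rw [hanti, hcon, neg_zero]
      exact congrArg Subtype.val h3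
    have h1 := key z hz
    have h2 := key (⟨w, hw⟩ + z) (by
      rw [map_add, LinearMap.add_apply, hw0, zero_add]
      exact hz)
    have h3 := W'.sub_mem h2 h1
    rw [Submodule.coe_add, add_sub_cancel_right] at h3
    exact h3
  · exact key ⟨w, hw⟩ hw0

include hnd hωR hss hgen h d O hN in
theorem exists_one (i : Fin s) :
    ∃ e ∈ lieT (sub R H) (chr χ H), e * e = 0 ∧ finrank K ((W i).map e) = 1 := by
  obtain ⟨a, ha0, ha⟩ := Yu_sub ω hnd hωR hss hgen h d O i (hN i)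
  obtain ⟨b, hw⟩ : ∃ b, (O i).om a b ≠ 0 := by
    by_contra hcon
    push Not at hcon
    exact ha0 ((O i).om_nd (h.si i) a hcon)
  refine ⟨Yu d O i a, ha, Yu_sq h d O i a, ?_⟩
  have h1 : (W i).map (Yu d O i a) = Submodule.span K {(a : X)} := by
    apply le_antisymm
    · rintro _ ⟨z, hz, rfl⟩
      have h2 := Yu_on h d O i a ⟨z, hz⟩
      rw [h2, SS_apply, ← add_smul]
      exact Submodule.smul_mem _ _ (Submodule.mem_span_singleton_self _)
    · rw [Submodule.span_singleton_le_iff_mem]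
      refine ⟨(2 * (O i).om a b)⁻¹ • (b : X), (W i).smul_mem _ b.2, ?_⟩
      rw [map_smul, Yu_on h d O i a b, SS_apply, ← add_smul, Submodule.coe_smul, smul_smul]
      have h2 : (2 * (O i).om a b)⁻¹ * ((O i).om a b + (O i).om a b) = 1 := by
        rw [← two_mul]
        exact inv_mul_cancel₀ (mul_ne_zero two_ne_zero hw)
      rw [h2, one_smul]
  rw [h1]
  exact finrank_span_singleton fun h0 => ha0 (Subtype.ext h0)

omit hHn [IsAlgClosed K] in
include d in
/-- Every strongly irreducible subspace for the subgroup maps to a representative. -/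
theorem tw_rep {U : Submodule K X} (hU : SI (sub R H) U) :
    ∃ i, Tw (sub R H) (fun _ => 1) U (W i) := by
  obtain ⟨u, hu, hu0⟩ := Submodule.exists_mem_ne_zero_of_ne_bot hU.1
  have h1 : ∃ l, d.p l u ≠ 0 := by
    by_contra hcon
    push Not at hcon
    apply hu0
    rw [← d.sum u]
    refine Finset.sum_eq_zero fun l _ => ?_
    rw [hcon, map_zero, smul_zero]
  obtain ⟨l, hl⟩ := h1
  have := d.hD
  refine ⟨d.idx l, d.D.subgroupOf H, inferInstance, (W (d.idx l)).subtype.comp (d.p l),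
    fun v _ => SetLike.coe_mem _, ⟨u, hu, fun h0 => hl (Subtype.ext h0)⟩, fun g hg v _ => ?_⟩
  rw [one_smul]
  exact d.hp l g.1 hg v

include hnd hωR hss hgen h d O hN in
/-- **Generation in degree two for the subgroup.** -/
theorem pt_sub {m : ℕ} (φ : MultilinearMap K (fun _ : Fin m × Fin 2 => X) K)
    (hφ : IsTate (sub R H) (chr χ H) m φ) :
    φ ∈ Submodule.span K (PT (sub R H) (chr χ H) m) := by
  have hsi := si_sub ω hnd hωR hss hgen h d O hN
  have hdu : ∀ i, Du (sub R H) (chr χ H) (W i) (W i) := fun i =>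
    du_sub ⟨(O i).Δ, (O i).hΔ, (O i).B, (O i).ne, (O i).inv⟩
  have hall : ∀ U, SI (sub R H) U → Du (sub R H) (chr χ H) U U := by
    intro U hU
    obtain ⟨i, hi⟩ := tw_rep d hU
    have h1 := Tw.du (hsi i) hU hi (hdu i)
    exact Tw.du (hsi i) hU hi h1.symm
  refine pt_of_det hall ?_
  refine nil_det ω hnd (fun g => hωR g.1) ?_ (hasProj_sub hss) ?_ ?_ φ hφ
  · intro U hU _
    obtain ⟨i, hi⟩ := tw_rep d hU
    obtain ⟨e, he, he2, hr⟩ := exists_one ω hnd hωR hss hgen h d O hN i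
    refine ⟨e, he, he2, ?_⟩
    rw [← hr]
    exact rank_transfer ω hnd (fun g => hωR g.1) (hasProj_sub hss) (hsi i) hU
      (hi.symm1 hU (hsi i)) he
  · intro U hU h1
    obtain ⟨i, hi⟩ := tw_rep d hU
    obtain ⟨Δ, hΔ, T, hTU, h0, hT⟩ := hi
    obtain ⟨e, -⟩ := tw_equiv hU (hsi i) hΔ hTU h0 hT
    have h2 := e.finrank_eq
    have h3 : 2 ≤ finrank K (W i) := altDual_two_le (R := R) (χ := χ)
      ⟨(O i).Δ, (O i).hΔ, (O i).B, (O i).ne, (O i).alt, (O i).inv⟩
    omega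
  · intro U U' hU _ _ hnot
    exact absurd (hall U hU) hnot

include hnd hωR hss hgen h d O hN in
/-- The representatives for the subgroup. -/
theorem reps_sub : Reps (sub R H) W := by
  have hsi := si_sub ω hnd hωR hss hgen h d O hN
  have hdu : ∀ i, Du R χ (W i) (W i) := fun i =>
    ⟨(O i).Δ, (O i).hΔ, (O i).B, (O i).ne, (O i).inv⟩
  exact ⟨hsi, fun i j hij =>
    h.ne i j (tw_of_sub (h.si i) (h.si j) (hsi i) (hsi j) (hdu i) (hdu j) hij)⟩

include hnd hωR hss hgen h d O hN in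
/-- The forms of degree two for the subgroup are Tate forms. -/
theorem two_sub {b : X →ₗ[K] X →ₗ[K] K} (hb : IsTate2 (sub R H) (chr χ H) b) :
    IsTate2 R χ b := by
  classical
  have hr := reps_sub ω hnd hωR hss hgen h d O hN
  have hdu : ∀ i, Du (sub R H) (chr χ H) (W i) (W i) := fun i =>
    du_sub ⟨(O i).Δ, (O i).hΔ, (O i).B, (O i).ne, (O i).inv⟩
  have hdD := d.hD
  obtain ⟨Δ, hΔ, hb⟩ := hb
  have hexp : b = ∑ L : Fin d.n × Fin d.n, (d.c L.1 * d.c L.2) •
      b.compl₁₂ ((d.ι L.1).comp (d.p L.1)) ((d.ι L.2).comp (d.p L.2)) := by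
    refine LinearMap.ext fun u => LinearMap.ext fun v => ?_
    conv_lhs => rw [← d.sum u, ← d.sum v]
    rw [bil_sum, Fintype.sum_prod_type]
    simp only [LinearMap.sum_apply, LinearMap.smul_apply, smul_eq_mul]
    rfl
  rw [hexp]
  refine isTate2_sum _ fun L => ?_
  obtain ⟨l, l'⟩ := L
  have hE : EqP (sub R H) (chr χ H) (b.compl₁₂ (d.ι l) (d.ι l')) := by
    refine ⟨Δ ⊓ d.D.subgroupOf H, inferInstance, fun g hg u u' v v' huu hvv => ?_⟩
    rw [LinearMap.compl₁₂_apply, LinearMap.compl₁₂_apply, d.hι l g.1 hg.2 u u' huu,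
      d.hι l' g.1 hg.2 v v' hvv]
    exact hb g hg.1 _ _
  -- a multiple of the form of the representative
  have hc : ∀ (l l' : Fin d.n), EqP (sub R H) (chr χ H) (b.compl₁₂ (d.ι l) (d.ι l')) →
      ∃ Δ : Subgroup Γ, Δ.FiniteIndex ∧ ∀ g ∈ Δ, ∀ (u u' : W (d.idx l)) (v v' : W (d.idx l')),
        (u' : X) = R g u → (v' : X) = R g v →
        b (d.ι l u') (d.ι l' v') = χ g * b (d.ι l u) (d.ι l' v) := by
    intro l l' hE
    generalize hβ : b.compl₁₂ (d.ι l) (d.ι l') = β at hE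
    have hβ' : ∀ u v, b (d.ι l u) (d.ι l' v) = β u v := fun u v => by rw [← hβ]; rfl
    simp only [hβ']
    clear hβ hβ'
    revert β
    generalize d.idx l = i
    generalize d.idx l' = j
    intro β hE
    by_cases hij : i = j
    · subst hij
      obtain ⟨Δ', β', hΔ', hβ', hβg⟩ := eqP_du hr hE
      obtain ⟨c, hc⟩ := pair_unique (R := sub R H) (χ := chr χ H) (hr.si i) (hr.si i)
        (Δ := (O i).Δ.subgroupOf H) (by
          have := (O i).hΔ
          infer_instance) (B := (O i).B) (O i).ne (fun g hg => (O i).inv g.1 hg) hΔ' hβg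
      refine ⟨(O i).Δ, (O i).hΔ, fun g hg u u' v v' huu hvv => ?_⟩
      rw [← hβ', ← hβ', hc _ u'.2 _ v'.2, hc _ u.2 _ v.2, huu, hvv,
        (O i).inv g hg u u.2 v v.2]
      ring
    · have h0 := pairing_zero hr hdu hij hE
      exact ⟨⊤, inferInstance, fun g _ u u' v v' _ _ => by
        rw [h0, LinearMap.zero_apply, LinearMap.zero_apply, LinearMap.zero_apply,
          LinearMap.zero_apply, mul_zero]⟩
  obtain ⟨Δ', hΔ', h1⟩ := hc l l' hE
  refine ⟨Δ' ⊓ d.D, inferInstance, fun g hg u v => ?_⟩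
  simp only [LinearMap.smul_apply, LinearMap.compl₁₂_apply, LinearMap.comp_apply, smul_eq_mul]
  rw [h1 g hg.1 (d.p l u) (d.p l (R g u)) (d.p l' v) (d.p l' (R g v)) (d.hp l g hg.2 u)
    (d.hp l' g hg.2 v)]
  ring

end sub

end main

end

end Pool.Agent.E8helper1.AP
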