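import Mathlib
import Pool.Agent.E8helper1.AP.Main

/-!
# Forms of odd degree vanish
-/

set_option autoImplicit false
set_option linter.unusedSectionVars false

namespace Pool.Agent.E8helper1.AP

open Module Pool.Agent.H204R3.CM Pool.Agent.H204R3.SP Pool.Agent.H204R3.GP Pool.Agent.W522.U
  Pool.Agent.W529.Ta Pool.Agent.W528.Odd Pool.Agent.Y126.OT Pool.Agent.Y126.Toric

noncomputable section

section lin

variable {K : Type} [Field K] [CharZero K] {W : Type} [AddCommGroup W] [Module K W]

/-- A skew involution of a symplectic space. -/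
theorem exists_x [FiniteDimensional K W] (om : W →ₗ[K] W →ₗ[K] K)
    (halt : ∀ u, om u u = 0) (hnd : ∀ u, (∀ v, om u v = 0) → u = 0) :
    ∃ x : Module.End K W, x * x = 1 ∧ ∀ u v, om (x u) v + om u (x v) = 0 := by
  obtain ⟨m, e, lab, -, -, h3, -⟩ := exists_sb om (alt_anti halt) halt (fun _ : Unit => ⊤) id
    (fun _ => rfl) (fun c d hcd => absurd rfl hcd) hnd (by simp)
  let sg : Fin m ⊕ Fin m → K := Sum.elim (fun _ => 1) (fun _ => -1)
  have hsg : ∀ y, sg y * sg y = 1 := by
    rintro (y | y)
    · change (1 : K) * 1 = 1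
      ring
    · change (-1 : K) * -1 = 1
      ring
  have hsw : ∀ y, sg y + sg y.swap = 0 := by
    rintro (y | y)
    · change (1 : K) + -1 = 0
      ring
    · change (-1 : K) + 1 = 0
      ring
  let x : Module.End K W := e.constr K (fun y => sg y • e y)
  have hxe : ∀ y, x (e y) = sg y • e y := fun y => Basis.constr_basis _ _ _ _
  refine ⟨x, e.ext fun y => ?_, fun u v => ?_⟩
  · rw [Module.End.mul_apply, hxe, map_smul, hxe, smul_smul, hsg, one_smul]
    rfl
  · have h1 : om.comp x + (om.flip.comp x).flip = 0 := by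
      refine LinearMap.ext_basis e e fun y z => ?_
      change om (x (e y)) (e z) + om (e y) (x (e z)) = 0
      rw [hxe, hxe, map_smul, map_smul, LinearMap.smul_apply, smul_eq_mul, smul_eq_mul, ← add_mul]
      by_cases hz : z = y.swap
      · rw [hz, hsw, zero_mul]
      · rw [h3 y z hz, mul_zero]
    exact congrArg (fun b : W →ₗ[K] W →ₗ[K] K => b u v) h1

/-- Forms of odd degree killed by an involution vanish. -/
theorem odd_zero {k : ℕ} (hk : Odd k) (f : MultilinearMap K (fun _ : Fin k => W) K)
    {x : Module.End K W} (hx : x * x = 1)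
    (hf : ∀ v, ∑ j, f (Function.update v j (x (v j))) = 0) : f = 0 := by
  classical
  have hxx : ∀ v, x (x v) = v := fun v => by
    rw [← Module.End.mul_apply, hx]
    rfl
  have key : ∀ (s : Finset (Fin k)) (w : Fin k → W),
      (∀ j, x (w j) = (if j ∈ s then (1 : K) else -1) • w j) → f w = 0 := by
    intro s w hw
    have h1 := hf w
    have h2 : ∀ j, f (Function.update w j (x (w j))) = (if j ∈ s then (1 : K) else -1) * f w := by
      intro j
      rw [hw, MultilinearMap.map_update_smul, Function.update_eq_self, smul_eq_mul]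
    rw [Finset.sum_congr rfl fun j _ => h2 j, ← Finset.sum_mul] at h1
    refine (mul_eq_zero.1 h1).resolve_left ?_
    rw [Finset.sum_ite, Finset.sum_const, Finset.sum_const]
    have h3 : (Finset.univ.filter fun j => j ∈ s) = s := by
      ext j
      simp
    have h4 : (Finset.univ.filter fun j => j ∉ s) = sᶜ := by
      ext j
      simp
    rw [h3, h4, Finset.card_compl, Fintype.card_fin]
    have h5 : s.card ≤ k := by
      have := s.card_le_univ
      rwa [Fintype.card_fin] at this
    intro h6
    rw [nsmul_eq_mul, nsmul_eq_mul, mul_one, Nat.cast_sub h5] at h6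
    have h7 : ((2 * s.card : ℕ) : K) = (k : K) := by
      push_cast
      linear_combination h6
    have h8 : 2 * s.card = k := Nat.cast_injective h7
    obtain ⟨l, hl⟩ := hk
    omega
  refine MultilinearMap.ext fun v => ?_
  change f v = 0
  have h2 : v = (fun j => (2⁻¹ : K) • (v j + x (v j))) + fun j => (2⁻¹ : K) • (v j - x (v j)) := by
    funext j
    rw [Pi.add_apply, ← smul_add]
    have h3 : v j + x (v j) + (v j - x (v j)) = (2 : K) • v j := by
      rw [two_smul]
      abel
    rw [h3, smul_smul, inv_mul_cancel₀ two_ne_zero, one_smul]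
  rw [h2, MultilinearMap.map_add_univ]
  refine Finset.sum_eq_zero fun s _ => key s _ fun j => ?_
  by_cases hj : j ∈ s
  · rw [Finset.piecewise_eq_of_mem _ _ _ hj, if_pos hj, one_smul, map_smul, map_add, hxx, add_comm]
  · rw [Finset.piecewise_eq_of_notMem _ _ _ hj, if_neg hj, map_smul, map_sub, hxx, neg_one_smul,
      ← smul_neg, neg_sub]

/-- The index of a square. -/
def sqE (k : ℕ) : Fin k ⊕ Fin k ≃ Fin k × Fin 2 where
  toFun := Sum.elim (fun i => (i, 0)) (fun i => (i, 1))
  invFun p := if p.2 = 0 then Sum.inl p.1 else Sum.inr p.1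
  left_inv := by
    rintro (i | i) <;> simp
  right_inv := by
    rintro ⟨i, j⟩
    fin_cases j <;> simp

/-- The tensor square of a form. -/
def sqF {k : ℕ} (f : MultilinearMap K (fun _ : Fin k => W) K) :
    MultilinearMap K (fun _ : Fin k × Fin 2 => W) K :=
  ((LinearMap.mul' K K).compMultilinearMap (f.domCoprod f)).domDomCongr (sqE k)

theorem sqF_apply {k : ℕ} (f : MultilinearMap K (fun _ : Fin k => W) K) (v : Fin k × Fin 2 → W) :
    sqF f v = f (fun i => v (i, 0)) * f (fun i => v (i, 1)) := rfl

theorem kill_of_sq {k : ℕ} (f : MultilinearMap K (fun _ : Fin k => W) K) {x : Module.End K W}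
    (hf : ∀ v, ∑ j, sqF f (Function.update v j (x (v j))) = 0) :
    ∀ v, ∑ j, f (Function.update v j (x (v j))) = 0 := by
  classical
  have h1 : ∀ v w : Fin k → W, (∑ j, f (Function.update v j (x (v j)))) * f w +
      f v * ∑ j, f (Function.update w j (x (w j))) = 0 := by
    intro v w
    obtain ⟨F, hF0, hF1⟩ : ∃ F : Fin k × Fin 2 → W, (∀ i, F (i, 0) = v i) ∧ ∀ i, F (i, 1) = w i :=
      ⟨fun p => if p.2 = 0 then v p.1 else w p.1, fun i => rfl, fun i => rfl⟩
    have hup : ∀ (j : Fin k) (ε : Fin 2) (y : W),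
        (fun i => Function.update F (j, ε) y (i, ε)) = Function.update (fun i => F (i, ε)) j y := by
      intro j ε y
      funext i
      by_cases hi : i = j
      · subst hi
        rw [Function.update_self, Function.update_self]
      · rw [Function.update_of_ne hi, Function.update_of_ne (fun h => hi (congrArg Prod.fst h))]
    have hup' : ∀ (j : Fin k) (ε ε' : Fin 2) (y : W), ε' ≠ ε →
        (fun i => Function.update F (j, ε) y (i, ε')) = fun i => F (i, ε') := by
      intro j ε ε' y hε
      funext i
      rw [Function.update_of_ne (fun h => hε (congrArg Prod.snd h))]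
    rw [← hf F, Fintype.sum_prod_type_right, Fin.sum_univ_two, Finset.sum_mul, Finset.mul_sum]
    congr 1
    · refine Finset.sum_congr rfl fun j _ => ?_
      rw [sqF_apply, hup, hup' j 0 1 _ (by decide)]
      simp only [hF0, hF1]
    · refine Finset.sum_congr rfl fun j _ => ?_
      rw [sqF_apply, hup, hup' j 1 0 _ (by decide)]
      simp only [hF0, hF1]
  by_cases h0 : ∀ v, f v = 0
  · intro v
    exact Finset.sum_eq_zero fun j _ => h0 _
  · push Not at h0
    obtain ⟨w, hw⟩ := h0
    have h2 : ∑ j, f (Function.update w j (x (w j))) = 0 := by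
      have h3 := h1 w w
      have h4 : (2 * f w) * ∑ j, f (Function.update w j (x (w j))) = 0 := by
        linear_combination h3
      exact (mul_eq_zero.1 h4).resolve_left (mul_ne_zero two_ne_zero hw)
    intro v
    have h3 := h1 v w
    rw [h2, mul_zero, add_zero] at h3
    exact (mul_eq_zero.1 h3).resolve_right hw

end lin

variable {K : Type} [Field K] [CharZero K] {X : Type} [AddCommGroup X] [Module K X]
  {Γ : Type} [Group Γ] {R : Representation K Γ X} {χ : Γ →* K}

/-- Operators that are skew for the forms of degree two kill the forms generated by them. -/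
theorem pt_kill {x : Module.End K X}
    (hx : ∀ b, IsTate2 R χ b → ∀ u v, b (x u) v + b u (x v) = 0) {m : ℕ}
    {φ : MultilinearMap K (fun _ : Fin m × Fin 2 => X) K}
    (hφ : φ ∈ Submodule.span K (PT R χ m)) (w : Fin m × Fin 2 → X) :
    ∑ j, φ (Function.update w j (x (w j))) = 0 := by
  classical
  induction hφ using Submodule.span_induction with
  | mem φ hφ =>
    obtain ⟨σ, B, hB, rfl⟩ := hφ
    rw [← Equiv.sum_comp σ, Fintype.sum_prod_type]
    refine Finset.sum_eq_zero fun l _ => ?_
    rw [Fin.sum_univ_two, mmG_apply, mmG_apply]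
    have hne : ∀ (s : Fin m) (ε ε' : Fin 2), s ≠ l → σ (s, ε) ≠ σ (l, ε') := by
      intro s ε ε' hs h
      exact hs (congrArg Prod.fst (σ.injective h))
    have h01 : σ (l, 0) ≠ σ (l, 1) := by
      intro h
      have h2 : (0 : Fin 2) = 1 := congrArg Prod.snd (σ.injective h)
      exact absurd h2 (by decide)
    rw [← Finset.mul_prod_erase _ _ (Finset.mem_univ l),
      ← Finset.mul_prod_erase _ _ (Finset.mem_univ l)]
    have e : ∀ ε' : Fin 2, ∏ s ∈ Finset.univ.erase l,
        B s (Function.update w (σ (l, ε')) (x (w (σ (l, ε')))) (σ (s, 0)))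
          (Function.update w (σ (l, ε')) (x (w (σ (l, ε')))) (σ (s, 1))) =
        ∏ s ∈ Finset.univ.erase l, B s (w (σ (s, 0))) (w (σ (s, 1))) := by
      intro ε'
      refine Finset.prod_congr rfl fun s hs => ?_
      have hs' := Finset.ne_of_mem_erase hs
      rw [Function.update_of_ne (hne s 0 ε' hs'), Function.update_of_ne (hne s 1 ε' hs')]
    rw [e 0, e 1, ← add_mul, Function.update_self, Function.update_of_ne h01.symm,
      Function.update_self, Function.update_of_ne h01, hx (B l) (hB l), zero_mul]
  | zero => exact Finset.sum_eq_zero fun _ _ => rfl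
  | add a b _ _ ha hb =>
    have h1 : ∀ j, (a + b) (Function.update w j (x (w j))) =
      a (Function.update w j (x (w j))) + b (Function.update w j (x (w j))) := fun _ => rfl
    rw [Finset.sum_congr rfl fun j _ => h1 j, Finset.sum_add_distrib, ha, hb, add_zero]
  | smul c a _ ha =>
    have h1 : ∀ j, (c • a) (Function.update w j (x (w j))) =
      c * a (Function.update w j (x (w j))) := fun _ => rfl
    rw [Finset.sum_congr rfl fun j _ => h1 j, ← Finset.mul_sum, ha, mul_zero]

section main

variable [FiniteDimensional K X] {H : Subgroup Γ}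
  [IsAlgClosed K] (ω : X →ₗ[K] X →ₗ[K] K) (hnd : ∀ u, (∀ v, ω u v = 0) → u = 0)
  (hωR : ∀ g u v, ω (R g u) (R g v) = χ g * ω u v) (hss : HasProj R)
  (hgen : ∀ x : Module.End K X, (∀ b, IsTate2 R χ b → ∀ u v, b (x u) v + b u (x v) = 0) →
    x ∈ lieT R χ)
  {s : ℕ} {W : Fin s → Submodule K X} (h : Reps R W) (d : Dec R W) (O : ∀ i, Om R χ (W i))
  [hHn : H.Normal] (hχ : ∀ g ∈ H, χ g = 1)
  (hN : ∀ i, ∃ z ∈ lieT (sub R H) (chr χ H), ∃ u ∈ W i, z u ≠ 0)

include hnd hωR hss hgen h d O hχ hN in
/-- Forms of odd degree fixed by a subgroup of finite index of `H` vanish. -/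
theorem odd_sub {k : ℕ} (hk : Odd k) (f : MultilinearMap K (fun _ : Fin k => X) K)
    (hf : ∃ Δ : Subgroup H, Δ.FiniteIndex ∧ ∀ g ∈ Δ, ∀ v, f (fun j => sub R H g (v j)) = f v) :
    f = 0 := by
  choose x hx1 hx2 using fun i => exists_x (O i).om (O i).om_alt ((O i).om_nd (h.si i))
  have hsq := Th_sq d h x hx1
  refine odd_zero hk f hsq (kill_of_sq f fun v => ?_)
  have hT : IsTate (sub R H) (chr χ H) k (sqF f) := by
    obtain ⟨Δ, hΔ, hf⟩ := hf
    refine ⟨Δ, hΔ, fun g hg v => ?_⟩
    have h1 : chr χ H g = 1 := hχ g.1 g.2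
    rw [sqF_apply, sqF_apply, h1, one_pow, one_mul, hf g hg, hf g hg]
  have h2 := pt_sub ω hnd hωR hss hgen h d O hN (sqF f) hT
  refine pt_kill (fun b hb => ?_) h2 v
  exact Th_skew d h (fun i => (O i).om) (fun i => (O i).om_eqp) (fun i => (O i).om_ne) x hx2
    (two_sub ω hnd hωR hss hgen h d O hN hb)

end main

end

end Pool.Agent.E8helper1.AP
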