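import Mathlib

/-!
# The logarithm of a unipotent operator kills the invariant forms
-/

set_option autoImplicit false
set_option linter.unusedSectionVars false

namespace Pool.Agent.E8helper1.AP

open Module

noncomputable section

variable {K : Type} [Field K] [CharZero K] {X : Type} [AddCommGroup X] [Module K X]

/-- The binomial polynomials. -/
def bp (K : Type) [Field K] (j : ℕ) : Polynomial K :=
  Polynomial.C ((j.factorial : K)⁻¹) * descPochhammer K j

theorem bp_eval (j t : ℕ) : (bp K j).eval (t : K) = (t.choose j : K) := by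
  unfold bp
  rw [Polynomial.eval_mul, Polynomial.eval_C, descPochhammer_eval_eq_descFactorial,
    Nat.descFactorial_eq_factorial_mul_choose]
  push_cast
  rw [← mul_assoc, inv_mul_cancel₀ (Nat.cast_ne_zero.2 (Nat.factorial_ne_zero j)), one_mul]

theorem bp_zero : bp K 0 = 1 := by
  unfold bp
  rw [descPochhammer_zero, Nat.factorial_zero, Nat.cast_one, inv_one, map_one, one_mul]

theorem bp_one : bp K 1 = Polynomial.X := by
  unfold bp
  rw [descPochhammer_one, Nat.factorial_one, Nat.cast_one, inv_one, map_one, one_mul]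

/-- The powers of a unipotent operator. -/
theorem unip_expand {N : Module.End K X} {n : ℕ} (hN : N ^ n = 0) (t : ℕ) :
    (1 + N) ^ t = ∑ j ∈ Finset.range n, ((t.choose j : ℕ) : K) • N ^ j := by
  have h0 : ∀ m, n ≤ m → N ^ m = 0 := fun m hm => by
    obtain ⟨k, rfl⟩ := Nat.exists_eq_add_of_le hm
    rw [pow_add, hN, zero_mul]
  have h1 : (1 + N) ^ t = ∑ j ∈ Finset.range (t + 1), ((t.choose j : ℕ) : K) • N ^ j := by
    rw [add_comm, (Commute.one_right N).add_pow]
    refine Finset.sum_congr rfl fun j _ => ?_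
    rw [one_pow, mul_one, ← nsmul_eq_mul', Nat.cast_smul_eq_nsmul]
  rw [h1]
  have h2 : ∑ j ∈ Finset.range (t + 1), ((t.choose j : ℕ) : K) • N ^ j =
      ∑ j ∈ Finset.range (n + (t + 1)), ((t.choose j : ℕ) : K) • N ^ j := by
    refine Finset.sum_subset (Finset.range_subset_range.2 (by omega)) fun j _ hj => ?_
    rw [Nat.choose_eq_zero_of_lt (by rw [Finset.mem_range] at hj; omega), Nat.cast_zero, zero_smul]
  have h3 : ∑ j ∈ Finset.range n, ((t.choose j : ℕ) : K) • N ^ j =
      ∑ j ∈ Finset.range (n + (t + 1)), ((t.choose j : ℕ) : K) • N ^ j := by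
    refine Finset.sum_subset (Finset.range_subset_range.2 (by omega)) fun j _ hj => ?_
    rw [h0 j (by rw [Finset.mem_range] at hj; omega), smul_zero]
  rw [h2, h3]

/-- The logarithm of `1 + N`. -/
def lg (N : Module.End K X) (n : ℕ) : Module.End K X :=
  ∑ j ∈ Finset.range n, ((bp K j).derivative.eval 0) • N ^ j

/-- The logarithm kills the invariant forms. -/
theorem lg_kill {N : Module.End K X} {n : ℕ} (hN : N ^ n = 0) {κ : Type} [Fintype κ]
    [DecidableEq κ] (φ : MultilinearMap K (fun _ : κ => X) K) {M : ℕ} (hM : M ≠ 0)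
    (hφ : ∀ v, φ (fun k => ((1 + N) ^ M) (v k)) = φ v) (v : κ → X) :
    ∑ k, φ (Function.update v k (lg N n (v k))) = 0 := by
  -- expansion
  have hexp : ∀ a : κ → Fin n → K, φ (fun k => ∑ j : Fin n, a k j • (N ^ (j : ℕ)) (v k)) =
      ∑ J : κ → Fin n, (∏ k, a k (J k)) * φ (fun k => (N ^ (J k : ℕ)) (v k)) := by
    intro a
    rw [MultilinearMap.map_sum]
    refine Finset.sum_congr rfl fun J _ => ?_
    rw [MultilinearMap.map_smul_univ, smul_eq_mul]
  have hpow : ∀ (t : ℕ) (w : X), ((1 + N) ^ t) w =
      ∑ j : Fin n, ((t.choose j : ℕ) : K) • (N ^ (j : ℕ)) w := by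
    intro t w
    rw [unip_expand hN, LinearMap.sum_apply, Finset.sum_range]
    rfl
  let P : Polynomial K := ∑ J : κ → Fin n, (∏ k, bp K (J k)) *
    Polynomial.C (φ (fun k => (N ^ (J k : ℕ)) (v k)))
  have hP : ∀ t : ℕ, P.eval (t : K) = φ (fun k => ((1 + N) ^ t) (v k)) := by
    intro t
    simp only [hpow]
    rw [hexp (fun _ j => ((t.choose j : ℕ) : K)), Polynomial.eval_finsetSum]
    refine Finset.sum_congr rfl fun J _ => ?_
    rw [Polynomial.eval_mul, Polynomial.eval_C, Polynomial.eval_prod]
    congr 1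
    exact Finset.prod_congr rfl fun k _ => bp_eval _ _
  have hinv : ∀ i : ℕ, φ (fun k => ((1 + N) ^ (M * i)) (v k)) = φ v := by
    intro i
    induction i with
    | zero => rw [mul_zero, pow_zero]; rfl
    | succ i ih =>
      rw [← ih, ← hφ (fun k => ((1 + N) ^ (M * i)) (v k))]
      congr 1
      funext k
      rw [← Module.End.mul_apply, ← pow_add, mul_add, mul_one, add_comm (M * i) M]
  have hP0 : P - Polynomial.C (φ v) = 0 := by
    refine Polynomial.eq_zero_of_infinite_isRoot _ ?_
    refine Set.infinite_of_injective_forall_mem (f := fun k : ℕ => ((M * k : ℕ) : K)) ?_ ?_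
    · intro a b hab
      have h3 : M * a = M * b := Nat.cast_injective (R := K) hab
      exact Nat.eq_of_mul_eq_mul_left (Nat.pos_of_ne_zero hM) h3
    · intro k
      change (P - Polynomial.C (φ v)).IsRoot _
      rw [Polynomial.IsRoot, Polynomial.eval_sub, hP, Polynomial.eval_C, hinv, sub_self]
  have h1 : P.derivative.eval 0 = 0 := by
    rw [sub_eq_zero.1 hP0, Polynomial.derivative_C, Polynomial.eval_zero]
  have h2 : P.derivative.eval 0 = ∑ J : κ → Fin n, (∑ k, (∏ l ∈ Finset.univ.erase k,
      (bp K (J l)).eval 0) * (bp K (J k)).derivative.eval 0) *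
      φ (fun k => (N ^ (J k : ℕ)) (v k)) := by
    simp only [P]
    rw [Polynomial.derivative_sum, Polynomial.eval_finsetSum]
    refine Finset.sum_congr rfl fun J _ => ?_
    rw [Polynomial.derivative_mul, Polynomial.derivative_C, mul_zero, add_zero,
      Polynomial.eval_mul, Polynomial.eval_C, Polynomial.derivative_prod_finset,
      Polynomial.eval_finsetSum]
    congr 1
    refine Finset.sum_congr rfl fun k _ => ?_
    rw [Polynomial.eval_mul, Polynomial.eval_prod]
  rw [h2] at h1
  simp only [Finset.sum_mul] at h1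
  rw [Finset.sum_comm] at h1
  rw [← h1]
  refine Finset.sum_congr rfl fun k _ => ?_
  let a : κ → Fin n → K := fun l j => if l = k then (bp K j).derivative.eval 0 else (bp K j).eval 0
  have h3 : Function.update v k (lg N n (v k)) =
      fun l => ∑ j : Fin n, a l j • (N ^ (j : ℕ)) (v l) := by
    funext l
    by_cases hl : l = k
    · subst hl
      rw [Function.update_self]
      unfold lg
      rw [LinearMap.sum_apply, Finset.sum_range]
      refine Finset.sum_congr rfl fun j _ => ?_
      simp only [a, if_pos rfl]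
      rfl
    · rw [Function.update_of_ne hl]
      have h4 := hpow 0 (v l)
      rw [pow_zero, Module.End.one_apply] at h4
      rw [h4]
      refine Finset.sum_congr rfl fun j _ => ?_
      simp only [a, if_neg hl]
      congr 1
      rw [← bp_eval, Nat.cast_zero]
      rw [← h4]
  rw [h3, hexp]
  refine Finset.sum_congr rfl fun J _ => ?_
  congr 1
  rw [← Finset.prod_erase_mul _ _ (Finset.mem_univ k)]
  congr 1
  · refine Finset.prod_congr rfl fun l hl => ?_
    simp only [a, if_neg (Finset.ne_of_mem_erase hl)]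
  · simp only [a, if_pos rfl]

/-- The logarithm is not zero on a stable subspace on which `N` is not zero. -/
theorem lg_ne {N : Module.End K X} {n : ℕ} (hN : N ^ n = 0) {U : Submodule K X}
    (hU : ∀ u ∈ U, N u ∈ U) (h : ∃ u ∈ U, N u ≠ 0) : ∃ u ∈ U, lg N n u ≠ 0 := by
  classical
  obtain ⟨u, hu, hu0⟩ := h
  have hpU : ∀ i : ℕ, (N ^ i) u ∈ U := by
    intro i
    induction i with
    | zero => exact hu
    | succ i ih =>
      rw [pow_succ', Module.End.mul_apply]
      exact hU _ ih
  have hex : ∃ i, (N ^ (i + 1)) u = 0 := ⟨n, by rw [pow_succ', hN, mul_zero]; rfl⟩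
  obtain ⟨i, hi⟩ : ∃ i, Nat.find hex = i + 1 := by
    refine Nat.exists_eq_succ_of_ne_zero fun h0 => hu0 ?_
    have h1 := Nat.find_spec hex
    rw [h0, zero_add, pow_one] at h1
    exact h1
  have h1 : (N ^ (i + 1 + 1)) u = 0 := by
    have := Nat.find_spec hex
    rwa [hi] at this
  have h2 : (N ^ (i + 1)) u ≠ 0 := Nat.find_min hex (by rw [hi]; exact Nat.lt_succ_self i)
  have hn : 2 ≤ n := by
    by_contra hcon
    apply h2
    have h3 : N ^ (i + 1) = 0 := by
      obtain ⟨k, hk⟩ := Nat.exists_eq_add_of_le (show n ≤ i + 1 by omega)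
      rw [hk, pow_add, hN, zero_mul]
    rw [h3]
    rfl
  refine ⟨(N ^ i) u, hpU i, ?_⟩
  have h3 : lg N n ((N ^ i) u) = N ((N ^ i) u) := by
    unfold lg
    rw [LinearMap.sum_apply]
    rw [Finset.sum_eq_single 1]
    · rw [LinearMap.smul_apply, bp_one, Polynomial.derivative_X, Polynomial.eval_one, one_smul,
        pow_one]
    · intro j _ hj
      rw [LinearMap.smul_apply]
      rcases Nat.eq_zero_or_pos j with h0 | h0
      · rw [h0, bp_zero, Polynomial.derivative_one, Polynomial.eval_zero, zero_smul]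
      · obtain ⟨k, rfl⟩ : ∃ k, j = k + 2 := ⟨j - 2, by omega⟩
        rw [← Module.End.mul_apply, ← pow_add]
        have h4 : N ^ (k + 2 + i) = N ^ k * N ^ (i + 1 + 1) := by
          rw [← pow_add]
          congr 1
          omega
        rw [h4, Module.End.mul_apply, h1, map_zero, smul_zero]
    · intro h0
      rw [Finset.mem_range] at h0
      omega
  rw [h3, ← Module.End.mul_apply, ← pow_succ']
  exact h2

end

end Pool.Agent.E8helper1.AP
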