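import Mathlib
import Pool.Agent.E8helper1.AP.Path
import Pool.Agent.E8helper1.AP.Glob
import Pool.Agent.TH118.CR.Torus

/-!
# Elements of infinite order give nonzero elements of the Lie algebra
-/

set_option autoImplicit false
set_option linter.unusedSectionVars false

namespace Pool.Agent.E8helper1.AP

open Module Pool.Agent.H204R3.SP Pool.Agent.H204R3.GP Pool.Agent.W522.U Pool.Agent.TH118.CR

noncomputable section

variable {K : Type} [Field K] {X : Type} [AddCommGroup X] [Module K X]

/-- A basis of generalized eigenvectors. -/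
structure Jb (g : Module.End K X) where
  /-- the index set -/
  ι : Type
  fι : Fintype ι
  dι : DecidableEq ι
  /-- the basis -/
  e : Basis ι K X
  /-- the eigenvalues -/
  lam : ι → K
  mem : ∀ p, e p ∈ g.maxGenEigenspace (lam p)
  repr : ∀ c, ∀ u ∈ g.maxGenEigenspace c, ∀ p, e.repr u p ≠ 0 → lam p = c

theorem exists_jb [IsAlgClosed K] [FiniteDimensional K X] (g : Module.End K X) :
    Nonempty (Jb g) := by
  classical
  have hI : DirectSum.IsInternal g.maxGenEigenspace :=
    DirectSum.isInternal_submodule_of_iSupIndep_of_iSup_eq_top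
      g.independent_maxGenEigenspace g.iSup_maxGenEigenspace_eq_top
  let e := hI.collectedBasis (fun c => Module.finBasis K (g.maxGenEigenspace c))
  refine ⟨⟨_, FiniteDimensional.fintypeBasisIndex e, inferInstance, e, fun p => p.1,
    fun p => hI.collectedBasis_mem _ p, fun c u hu p hp => ?_⟩⟩
  by_contra hne
  apply hp
  exact hI.collectedBasis_repr_of_mem_ne _ (Ne.symm hne) hu

variable {g : Module.End K X}

/-- The operator given by the operator `F c` on the generalized eigenspace of `c`. -/
def Jb.op (J : Jb g) (F : K → Module.End K X) : Module.End K X :=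
  J.e.constr K (fun p => F (J.lam p) (J.e p))

theorem Jb.op_on (J : Jb g) (F : K → Module.End K X) {c : K} {u : X}
    (hu : u ∈ g.maxGenEigenspace c) : J.op F u = F c u := by
  have _ := J.fι
  conv_lhs => rw [← J.e.sum_repr u]
  conv_rhs => rw [← J.e.sum_repr u]
  rw [map_sum, map_sum]
  refine Finset.sum_congr rfl fun p _ => ?_
  rw [map_smul, map_smul]
  unfold Jb.op
  rw [Basis.constr_basis]
  by_cases h0 : J.e.repr u p = 0
  · rw [h0, zero_smul, zero_smul]
  · rw [J.repr c u hu p h0]

theorem mem_pow {c : K} {v : X} (hv : v ∈ g.maxGenEigenspace c) (M : ℕ) :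
    v ∈ (g ^ M).maxGenEigenspace (c ^ M) := by
  rw [Module.End.mem_maxGenEigenspace] at hv ⊢
  obtain ⟨k, hk⟩ := hv
  refine ⟨k, ?_⟩
  have hc : Commute g (c • (1 : Module.End K X)) := (Commute.one_right g).smul_right c
  have h1 := hc.mul_geom_sum₂ M
  have h2 : (c • (1 : Module.End K X)) ^ M = c ^ M • 1 := by rw [smul_pow, one_pow]
  rw [h2] at h1
  have h3 : Commute (g - c • (1 : Module.End K X))
      (∑ i ∈ Finset.range M, g ^ i * (c • (1 : Module.End K X)) ^ (M - 1 - i)) := by
    refine Commute.sum_right _ _ _ fun i _ => ?_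
    refine Commute.mul_right ?_ ?_
    · exact ((Commute.refl g).sub_left hc.symm).pow_right i
    · exact (hc.sub_left (Commute.refl _)).pow_right _
  rw [← h1, h3.mul_pow, (h3.pow_pow k k).eq, Module.End.mul_apply, hk, map_zero]

/-- An invariant form vanishes on generalized eigenvectors such that the product of the eigenvalues
is not one. -/
theorem vanish {κ : Type} [Fintype κ] [DecidableEq κ] (G : Module.End K X)
    (φ : MultilinearMap K (fun _ : κ => X) K) (hφ : ∀ v, φ (fun k => G (v k)) = φ v)
    (lam : κ → K) (hlam : ∏ k, lam k ≠ 1) (N : ℕ) :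
    ∀ (n : κ → ℕ), ∑ k, n k = N → ∀ v : κ → X,
      (∀ k, ((G - lam k • (1 : Module.End K X)) ^ n k) (v k) = 0) → φ v = 0 := by
  induction N using Nat.strong_induction_on with
  | _ N ih =>
    intro n hn v hv
    -- the decomposition of `G (v k)`
    have h1 : (fun k => G (v k)) = (fun k => lam k • v k) +
        fun k => (G - lam k • (1 : Module.End K X)) (v k) := by
      funext k
      rw [Pi.add_apply, LinearMap.sub_apply, LinearMap.smul_apply, Module.End.one_apply]
      abel
    have h2 := hφ v
    rw [h1, MultilinearMap.map_add_univ] at h2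
    rw [← Finset.sum_erase_add _ _ (Finset.mem_univ Finset.univ)] at h2
    have h3 : ∑ s ∈ Finset.univ.erase Finset.univ, φ (s.piecewise (fun k => lam k • v k)
        fun k => (G - lam k • (1 : Module.End K X)) (v k)) = 0 := by
      refine Finset.sum_eq_zero fun s hs => ?_
      obtain ⟨k0, hk0⟩ : ∃ k, k ∉ s := by
        by_contra hcon
        push Not at hcon
        exact Finset.ne_of_mem_erase hs (Finset.eq_univ_iff_forall.2 hcon)
      by_cases h0 : n k0 = 0
      · have h4 : v k0 = 0 := by
          have := hv k0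
          rwa [h0, pow_zero, Module.End.one_apply] at this
        refine φ.map_coord_zero k0 ?_
        rw [Finset.piecewise_eq_of_notMem _ _ _ hk0, h4, map_zero]
      · refine ih (∑ k, (if k ∈ s then n k else n k - 1)) ?_ _ rfl _ fun k => ?_
        · rw [← hn]
          refine Finset.sum_lt_sum (fun k _ => ?_) ⟨k0, Finset.mem_univ _, ?_⟩
          · split_ifs <;> omega
          · rw [if_neg hk0]
            omega
        · by_cases hk : k ∈ s
          · rw [if_pos hk, Finset.piecewise_eq_of_mem _ _ _ hk, map_smul, hv, smul_zero]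
          · rw [if_neg hk, Finset.piecewise_eq_of_notMem _ _ _ hk, ← Module.End.mul_apply,
              ← pow_succ]
            by_cases h4 : n k = 0
            · have h5 : v k = 0 := by
                have := hv k
                rwa [h4, pow_zero, Module.End.one_apply] at this
              rw [h5, map_zero]
            · have h5 : n k - 1 + 1 = n k := by omega
              rw [h5, hv]
    rw [h3, zero_add] at h2
    have h4 : (Finset.univ : Finset κ).piecewise (fun k => lam k • v k)
        (fun k => (G - lam k • (1 : Module.End K X)) (v k)) = fun k => lam k • v k := by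
      funext k
      rw [Finset.piecewise_eq_of_mem _ _ _ (Finset.mem_univ k)]
    rw [h4, MultilinearMap.map_smul_univ, smul_eq_mul] at h2
    have h5 : (∏ k, lam k - 1) * φ v = 0 := by
      rw [sub_mul, h2, one_mul, sub_self]
    exact (mul_eq_zero.1 h5).resolve_left (sub_ne_zero.2 hlam)

theorem vanish' {κ : Type} [Fintype κ] [DecidableEq κ] (G : Module.End K X)
    (φ : MultilinearMap K (fun _ : κ => X) K) (hφ : ∀ v, φ (fun k => G (v k)) = φ v)
    (lam : κ → K) (v : κ → X) (hv : ∀ k, v k ∈ G.maxGenEigenspace (lam k)) (h0 : φ v ≠ 0) :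
    ∏ k, lam k = 1 := by
  by_contra hlam
  choose n hn using fun k => (Module.End.mem_maxGenEigenspace _ _ _).1 (hv k)
  exact h0 (vanish G φ hφ lam hlam _ n rfl v hn)

variable [CharZero K] [FiniteDimensional K X] [IsAlgClosed K] {Γ : Type} [Group Γ]
  {R : Representation K Γ X} {χ : Γ →* K}

/-- The multiplicative functional. -/
def fK (a : Additive Kˣ →+ K) (c : K) : K := by
  classical
  exact if h : c = 0 then 0 else a (Additive.ofMul (Units.mk0 c h))

theorem fK_unit (a : Additive Kˣ →+ K) (c : Kˣ) : fK a c = a (Additive.ofMul c) := by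
  unfold fK
  rw [dif_neg c.ne_zero]
  congr 2
  exact Units.ext rfl

/-- The semisimple part. -/
theorem slope_lieT {γ : Γ} (hχ : χ γ = 1) (J : Jb (R γ)) (a : Additive Kˣ →+ K) :
    J.op (fun c => fK a c • 1) ∈ lieT R χ := by
  classical
  intro m φ hφ
  obtain ⟨Δ, hΔ, hφ⟩ := hφ
  obtain ⟨M, hM0, hM⟩ := exists_pow_mem Δ hΔ γ
  have hφM : ∀ v, φ (fun k => (R γ ^ M) (v k)) = φ v := by
    intro v
    have h1 := hφ _ hM v
    rwa [map_pow χ, hχ, one_pow, one_pow, one_mul, map_pow R] at h1
  have _ := J.fι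
  refine kills_of_basis J.e _ _ fun I => ?_
  have h1 : ∀ l : Fin m × Fin 2, φ (Function.update (fun l => J.e (I l)) l
      (J.op (fun c => fK a c • 1) (J.e (I l)))) =
      fK a (J.lam (I l)) * φ (fun l => J.e (I l)) := by
    intro l
    rw [J.op_on _ (J.mem (I l)), LinearMap.smul_apply, Module.End.one_apply,
      MultilinearMap.map_update_smul, smul_eq_mul, Function.update_eq_self]
  rw [Finset.sum_congr rfl fun l _ => h1 l, ← Finset.sum_mul]
  by_cases h0 : φ (fun l => J.e (I l)) = 0
  · rw [h0, mul_zero]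
  have h2 := vanish' (R γ ^ M) φ hφM (fun l => J.lam (I l) ^ M) _
    (fun l => mem_pow (J.mem (I l)) M) h0
  have h3 : ∀ l, J.lam (I l) ≠ 0 := by
    intro l hl
    rw [Finset.prod_eq_zero (Finset.mem_univ l) (by rw [hl, zero_pow hM0])] at h2
    exact zero_ne_one h2
  let c : Fin m × Fin 2 → Kˣ := fun l => Units.mk0 _ (h3 l)
  have h5 : ∏ l, c l ^ M = 1 := by
    apply Units.ext
    push_cast
    exact h2
  have h6 : (M : K) * ∑ l, a (Additive.ofMul (c l)) = 0 := by
    have h7 := congrArg (fun x : Kˣ => a (Additive.ofMul x)) h5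
    simp only [ofMul_prod, ofMul_pow, map_sum, map_nsmul, nsmul_eq_mul, ofMul_one, map_zero] at h7
    rw [Finset.mul_sum, h7]
  have h7 := (mul_eq_zero.1 h6).resolve_left (Nat.cast_ne_zero.2 hM0)
  have h8 : ∀ l, fK a (J.lam (I l)) = a (Additive.ofMul (c l)) := fun l => fK_unit a (c l)
  rw [Finset.sum_congr rfl fun l _ => h8 l, h7, zero_mul]

/-- The unipotent part. -/
def Jb.un (J : Jb g) : Module.End K X := J.op (fun c => c⁻¹ • g)

theorem Jb.lam_ne {γ : Γ} (J : Jb (R γ)) (p : J.ι) : J.lam p ≠ 0 := by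
  intro h0
  have h1 := J.mem p
  rw [h0, Module.End.mem_maxGenEigenspace] at h1
  obtain ⟨k, hk⟩ := h1
  rw [zero_smul, sub_zero, ← map_pow] at hk
  exact Rne (R := R) _ (J.e.ne_zero p) hk

omit [CharZero K] [FiniteDimensional K X] [IsAlgClosed K] in
theorem stable_gen {c : K} {v : X} (hv : v ∈ g.maxGenEigenspace c) :
    (g - c • (1 : Module.End K X)) v ∈ g.maxGenEigenspace c := by
  rw [Module.End.mem_maxGenEigenspace] at hv ⊢
  obtain ⟨k, hk⟩ := hv
  refine ⟨k, ?_⟩
  rw [← Module.End.mul_apply, ← pow_succ, pow_succ', Module.End.mul_apply, hk, map_zero]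

omit [CharZero K] [FiniteDimensional K X] [IsAlgClosed K] in
/-- The powers of the nilpotent part on a generalized eigenspace. -/
theorem Jb.nil_pow (J : Jb g) {c : K} (hc : c ≠ 0) (k : ℕ) {v : X}
    (hv : v ∈ g.maxGenEigenspace c) :
    ((J.un - 1) ^ k) v = (c⁻¹) ^ k • ((g - c • (1 : Module.End K X)) ^ k) v := by
  have h1 : ∀ v ∈ g.maxGenEigenspace c, (J.un - 1) v =
      c⁻¹ • (g - c • (1 : Module.End K X)) v := by
    intro v hv
    unfold Jb.un
    rw [LinearMap.sub_apply, J.op_on _ hv, LinearMap.smul_apply, Module.End.one_apply,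
      LinearMap.sub_apply, LinearMap.smul_apply, Module.End.one_apply, smul_sub, smul_smul,
      inv_mul_cancel₀ hc, one_smul]
  induction k generalizing v with
  | zero => rw [pow_zero, pow_zero, pow_zero, one_smul]
  | succ k ih =>
    rw [pow_succ, Module.End.mul_apply, h1 v hv, map_smul, ih (stable_gen hv),
      ← Module.End.mul_apply, ← pow_succ, smul_smul, ← pow_succ']

theorem Jb.nil {γ : Γ} (J : Jb (R γ)) : (J.un - 1) ^ finrank K X = 0 := by
  refine J.e.ext fun p => ?_
  rw [J.nil_pow (J.lam_ne p) _ (J.mem p)]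
  have h1 := J.mem p
  rw [Module.End.maxGenEigenspace_eq_genEigenspace_finrank, Module.End.mem_genEigenspace_nat,
    LinearMap.mem_ker] at h1
  rw [h1, smul_zero, LinearMap.zero_apply]

omit [CharZero K] [FiniteDimensional K X] [IsAlgClosed K] in
theorem Jb.un_pow (J : Jb g) {c : K} (k : ℕ) {v : X}
    (hv : v ∈ g.maxGenEigenspace c) : (J.un ^ k) v = (c⁻¹) ^ k • (g ^ k) v := by
  have hst : ∀ v ∈ g.maxGenEigenspace c, g v ∈ g.maxGenEigenspace c := by
    intro v hv
    have h1 := stable_gen hv
    rw [LinearMap.sub_apply, LinearMap.smul_apply, Module.End.one_apply] at h1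
    have h2 := Submodule.add_mem _ h1 (Submodule.smul_mem _ c hv)
    rwa [sub_add_cancel] at h2
  induction k generalizing v with
  | zero => rw [pow_zero, pow_zero, pow_zero, one_smul]
  | succ k ih =>
    have h1 : J.un v = c⁻¹ • g v := by
      unfold Jb.un
      rw [J.op_on _ hv, LinearMap.smul_apply]
    rw [pow_succ, Module.End.mul_apply, h1, map_smul, ih (hst v hv), ← Module.End.mul_apply,
      ← pow_succ, smul_smul, ← pow_succ']

/-- The unipotent part preserves the invariant forms. -/
theorem un_lieT {γ : Γ} (hχ : χ γ = 1) (J : Jb (R γ)) :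
    lg (J.un - 1) (finrank K X) ∈ lieT R χ := by
  classical
  intro m φ hφ v
  obtain ⟨Δ, hΔ, hφ⟩ := hφ
  obtain ⟨M, hM0, hM⟩ := exists_pow_mem Δ hΔ γ
  have hφM : ∀ v, φ (fun k => (R γ ^ M) (v k)) = φ v := by
    intro v
    have h1 := hφ _ hM v
    rwa [map_pow χ, hχ, one_pow, one_pow, one_mul, map_pow R] at h1
  refine lg_kill J.nil φ hM0 (fun v => ?_) v
  have h1 : (1 + (J.un - 1)) = J.un := by abel
  rw [h1]
  have h2 : φ.compLinearMap (fun _ => J.un ^ M) = φ := by
    refine Basis.ext_multilinear (fun _ => J.e) fun I => ?_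
    rw [MultilinearMap.compLinearMap_apply]
    have h3 : ∀ l, (J.un ^ M) (J.e (I l)) =
        ((J.lam (I l))⁻¹) ^ M • (R γ ^ M) (J.e (I l)) := fun l => J.un_pow M (J.mem (I l))
    simp only [h3]
    rw [MultilinearMap.map_smul_univ, hφM]
    by_cases h0 : φ (fun l => J.e (I l)) = 0
    · rw [h0, smul_zero]
    have h4 := vanish' (R γ ^ M) φ hφM (fun l => J.lam (I l) ^ M) _
      (fun l => mem_pow (J.mem (I l)) M) h0
    have h5 : ∏ l, ((J.lam (I l))⁻¹) ^ M = 1 := by
      have h6 : ∏ l, ((J.lam (I l))⁻¹) ^ M = (∏ l, J.lam (I l) ^ M)⁻¹ := by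
        rw [← Finset.prod_inv_distrib]
        exact Finset.prod_congr rfl fun l _ => inv_pow _ _
      rw [h6, h4, inv_one]
    rw [h5, one_smul]
  exact congrArg (fun F : MultilinearMap K (fun _ : Fin m × Fin 2 => X) K => F v) h2

/-- **Elements of infinite order.** -/
theorem exists_lie {γ : Γ} (hχ : χ γ = 1) {U : Submodule K X} (hst : ∀ u ∈ U, R γ u ∈ U)
    (hinf : ∀ j : ℕ, 0 < j → ∃ u ∈ U, R (γ ^ j) u ≠ u) :
    ∃ z ∈ lieT R χ, ∃ u ∈ U, z u ≠ 0 := by
  classical
  by_cases hA : ∃ c : Kˣ, (∃ u ∈ U, u ≠ 0 ∧ R γ u = (c : K) • u) ∧ ∀ k : ℕ, 0 < k → c ^ k ≠ 1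
  · obtain ⟨c, ⟨u, hu, hu0, huc⟩, hc⟩ := hA
    obtain ⟨a, ha⟩ := exists_add c hc
    obtain ⟨J⟩ := exists_jb (R γ)
    refine ⟨_, slope_lieT hχ J a, u, hu, ?_⟩
    have h1 : u ∈ Module.End.maxGenEigenspace (R γ) (c : K) := by
      rw [Module.End.mem_maxGenEigenspace]
      refine ⟨1, ?_⟩
      rw [pow_one, LinearMap.sub_apply, LinearMap.smul_apply, Module.End.one_apply, huc, sub_self]
    rw [J.op_on _ h1, LinearMap.smul_apply, Module.End.one_apply, fK_unit]
    exact smul_ne_zero ha hu0
  · push Not at hA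
    -- the eigenvalues are roots of unity
    obtain ⟨G, hG⟩ : ∃ G : Module.End K U, G = (R γ).restrict hst := ⟨_, rfl⟩
    have hGu : ∀ u : U, ((G u : U) : X) = R γ u := fun u => by rw [hG]; rfl
    have hfin := Module.End.finite_hasEigenvalue G
    have hroot : ∀ c, G.HasEigenvalue c → ∃ k : ℕ, 0 < k ∧ c ^ k = 1 := by
      intro c hc
      obtain ⟨u, hu⟩ := hc.exists_hasEigenvector
      have h1 : R γ (u : X) = c • (u : X) := by
        rw [← hGu, hu.apply_eq_smul, Submodule.coe_smul]
      have hu0 : (u : X) ≠ 0 := fun h => hu.2 (Subtype.ext h)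
      have hc0 : c ≠ 0 := by
        rintro rfl
        rw [zero_smul] at h1
        exact Rne (R := R) γ hu0 h1
      obtain ⟨k, hk, hk1⟩ := hA (Units.mk0 c hc0) ⟨u, u.2, hu0, h1⟩
      exact ⟨k, hk, congrArg Units.val hk1⟩
    choose! ord hord0 hord using hroot
    obtain ⟨j, hj0, hj⟩ : ∃ j : ℕ, 0 < j ∧ ∀ c, G.HasEigenvalue c → c ^ j = 1 := by
      refine ⟨∏ c ∈ hfin.toFinset, ord c, Finset.prod_pos fun c hc =>
        hord0 c (hfin.mem_toFinset.1 hc), fun c hc => ?_⟩
      obtain ⟨k, hk⟩ := Finset.dvd_prod_of_mem ord (hfin.mem_toFinset.2 hc)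
      rw [hk, pow_mul, hord c hc, one_pow]
    -- the power is unipotent on `U`
    have hstj : ∀ u ∈ U, R (γ ^ j) u ∈ U := by
      have h1 : ∀ (i : ℕ), ∀ u ∈ U, R (γ ^ i) u ∈ U := by
        intro i
        induction i with
        | zero => intro u hu; rw [pow_zero, map_one]; exact hu
        | succ i ih =>
          intro u hu
          rw [pow_succ, map_mul, Module.End.mul_apply]
          exact ih _ (hst u hu)
      exact h1 j
    have hGj : ∀ u : U, (((G ^ j) u : U) : X) = R (γ ^ j) u := by
      have h1 : ∀ (i : ℕ) (u : U), (((G ^ i) u : U) : X) = R (γ ^ i) u := by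
        intro i
        induction i with
        | zero => intro u; rw [pow_zero, pow_zero, map_one]; rfl
        | succ i ih =>
          intro u
          rw [pow_succ, pow_succ, map_mul, Module.End.mul_apply, Module.End.mul_apply, ih, hGu]
      exact h1 j
    have htop : ∀ u : U, u ∈ (G ^ j).maxGenEigenspace 1 := by
      intro u
      have h1 : u ∈ ⨆ c, G.maxGenEigenspace c := by
        rw [Module.End.iSup_maxGenEigenspace_eq_top]
        trivial
      have h2 : ⨆ c, G.maxGenEigenspace c ≤ (G ^ j).maxGenEigenspace 1 := by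
        refine iSup_le fun c v hv => ?_
        by_cases hc : G.HasEigenvalue c
        · have h3 := mem_pow hv j
          rwa [hj c hc] at h3
        · have h3 : G.maxGenEigenspace c = ⊥ := by
            by_contra hne
            apply hc
            rw [Module.End.maxGenEigenspace_eq_genEigenspace_finrank] at hne
            exact Module.End.hasEigenvalue_of_hasGenEigenvalue (k := finrank K U) hne
          rw [h3, Submodule.mem_bot] at hv
          rw [hv]
          exact Submodule.zero_mem _
      exact h2 h1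
    have htop' : ∀ u ∈ U, u ∈ Module.End.maxGenEigenspace (R (γ ^ j)) 1 := by
      intro u hu
      obtain ⟨k, hk⟩ := (Module.End.mem_maxGenEigenspace _ _ _).1 (htop ⟨u, hu⟩)
      rw [Module.End.mem_maxGenEigenspace]
      refine ⟨k, ?_⟩
      have h1 : ∀ (k : ℕ) (v : U), ((((G ^ j - (1 : K) • (1 : Module.End K U)) ^ k) v : U) : X) =
          ((R (γ ^ j) - (1 : K) • (1 : Module.End K X)) ^ k) v := by
        intro k
        induction k with
        | zero => intro v; rw [pow_zero, pow_zero]; rfl
        | succ k ih =>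
          intro v
          rw [pow_succ, pow_succ, Module.End.mul_apply, Module.End.mul_apply, ih]
          congr 1
          rw [LinearMap.sub_apply, LinearMap.sub_apply, Submodule.coe_sub, hGj]
          rfl
      rw [← h1 k ⟨u, hu⟩, hk]
      rfl
    have hχj : χ (γ ^ j) = 1 := by rw [map_pow, hχ, one_pow]
    obtain ⟨J⟩ := exists_jb (R (γ ^ j))
    have hun : ∀ u ∈ U, (J.un - 1) u = R (γ ^ j) u - u := by
      intro u hu
      have h1 := J.nil_pow one_ne_zero 1 (htop' u hu)
      rw [pow_one, pow_one, inv_one, one_smul, pow_one] at h1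
      rw [h1, LinearMap.sub_apply, LinearMap.smul_apply, Module.End.one_apply, one_smul]
    obtain ⟨u, hu, hu0⟩ := hinf j hj0
    have h1 := lg_ne J.nil (U := U) (fun u hu => by
      rw [hun u hu]
      exact U.sub_mem (hstj u hu) hu) ⟨u, hu, by
        rw [hun u hu]
        exact sub_ne_zero.2 hu0⟩
    exact ⟨_, un_lieT hχj J, h1⟩

end

end Pool.Agent.E8helper1.AP
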