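import Mathlib
import Pool.Agent.E8helper1.AP.Odd
import Pool.Agent.E8helper1.AP.Slope

/-!
# The theorem over an algebraically closed field
-/

set_option autoImplicit false
set_option linter.unusedSectionVars false

namespace Pool.Agent.E8helper1.AP

open Module Pool.Agent.H204R3.CM Pool.Agent.H204R3.SP Pool.Agent.H204R3.GP Pool.Agent.W522.U
  Pool.Agent.W529.Ta Pool.Agent.W528.Odd Pool.Agent.Y126.OT Pool.Agent.Y126.Toric
open Pool.Agent.W528.Tor (AltDual)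

noncomputable section

variable {K : Type} [Field K] [CharZero K] {X : Type} [AddCommGroup X] [Module K X]
  [FiniteDimensional K X] {Γ : Type} [Group Γ] {R : Representation K Γ X} {χ : Γ →* K}
  {H : Subgroup Γ}

theorem exists_mem_pow (Δ : Subgroup Γ) (hΔ : Δ.FiniteIndex) (g : Γ) :
    ∃ M : ℕ, M ≠ 0 ∧ g ^ M ∈ Δ := exists_pow_mem Δ hΔ g

/-- **The theorem over an algebraically closed field.** -/
theorem closed [IsAlgClosed K] (ω : X →ₗ[K] X →ₗ[K] K) (hnd : ∀ u, (∀ v, ω u v = 0) → u = 0)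
    (hωR : ∀ g u v, ω (R g u) (R g v) = χ g * ω u v) (hss : HasProj R)
    (hgen : ∀ x : Module.End K X, (∀ b, IsTate2 R χ b → ∀ u v, b (x u) v + b u (x v) = 0) →
      x ∈ lieT R χ)
    (halt : ∀ U, SI R U → AltDual R χ U) [H.Normal] (hχ : ∀ g ∈ H, χ g = 1)
    (hinf : ∀ U, SI R U → ∃ γ ∈ H, ∀ j : ℕ, 0 < j → ∃ u ∈ U, R (γ ^ j) u ≠ u) :
    (∀ (m : ℕ) (φ : MultilinearMap K (fun _ : Fin m × Fin 2 => X) K),
      IsTate (sub R H) (chr χ H) m φ → φ ∈ Submodule.span K (PT (sub R H) (chr χ H) m)) ∧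
    (∀ b, IsTate2 (sub R H) (chr χ H) b → IsTate2 R χ b) ∧
    ∀ (k : ℕ) (_ : Odd k) (f : MultilinearMap K (fun _ : Fin k => X) K),
      (∃ Δ : Subgroup H, Δ.FiniteIndex ∧ ∀ g ∈ Δ, ∀ v, f (fun j => sub R H g (v j)) = f v) →
      f = 0 := by
  obtain ⟨s, W, hW, hWW, hall⟩ := exists_reps hss
  have h : Reps R W := ⟨hW, hWW⟩
  obtain ⟨d⟩ := exists_dec hss W hW hall
  have O : ∀ i, Om R χ (W i) := fun i => (exists_Om (hW i) (halt _ (hW i))).some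
  have hN : ∀ i, ∃ z ∈ lieT (sub R H) (chr χ H), ∃ u ∈ W i, z u ≠ 0 := by
    intro i
    obtain ⟨γ, hγH, hγ⟩ := hinf _ (hW i)
    obtain ⟨Δ, hΔ, hst⟩ := (hW i).2.1
    obtain ⟨M, hM0, hM⟩ := exists_mem_pow Δ hΔ γ
    refine exists_lie (R := sub R H) (χ := chr χ H) (γ := ⟨γ ^ M, H.pow_mem hγH M⟩)
      (hχ _ (H.pow_mem hγH M)) (hst _ hM) fun j hj => ?_
    obtain ⟨u, hu, hu0⟩ := hγ (M * j) (Nat.mul_pos (Nat.pos_of_ne_zero hM0) hj)
    refine ⟨u, hu, ?_⟩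
    rw [pow_mul] at hu0
    exact hu0
  exact ⟨fun m φ hφ => pt_sub ω hnd hωR hss hgen h d O hN φ hφ,
    fun b hb => two_sub ω hnd hωR hss hgen h d O hN hb,
    fun k hk f hf => odd_sub ω hnd hωR hss hgen h d O hχ hN hk f hf⟩

end

end Pool.Agent.E8helper1.AP
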