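import Mathlib
import Pool.Agent.Y126.Notions
import Pool.Agent.Y126.AV.Wedge
import Pool.Agent.E8helper1.AP.Closed

/-!
# From alternating forms on the powers to multilinear forms
-/

set_option autoImplicit false
set_option linter.unusedSectionVars false

namespace Pool.Agent.E8helper1.AP

open Module Pool.Agent.H204R3.CM Pool.Agent.H204R3.SP Pool.Agent.H204R3.GP Pool.Agent.Y126.AV
  Pool.Agent.Y126.Notions

noncomputable section

variable {k V Γ : Type} [Field k] [CharZero k] [AddCommGroup V] [Module k V] [Group Γ]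
  {ρ : Representation k Γ V} {χ : Γ →* k}

/-- The vectors supported in different coordinates. -/
def sg {m : ℕ} (u : Fin m × Fin 2 → V) : Fin m × Fin 2 → Fin (m * 2) → V :=
  fun l => Pi.single (finProdFinEquiv l) (u l)

theorem sg_ne {m : ℕ} (u : Fin m × Fin 2 → V) {l l' : Fin m × Fin 2} (h : l' ≠ l) :
    sg u l' (finProdFinEquiv l) = 0 := by
  unfold sg
  rw [Pi.single_eq_of_ne (fun h' => h (finProdFinEquiv.injective h').symm)]

theorem sg_self {m : ℕ} (u : Fin m × Fin 2 → V) (l : Fin m × Fin 2) :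
    sg u l (finProdFinEquiv l) = u l := by
  unfold sg
  rw [Pi.single_eq_same]

/-- The evaluation of a form of the span. -/
theorem sg_span {m : ℕ} {g : (Fin (m * 2) → V) [⋀^Fin m × Fin 2]→ₗ[k] k}
    (hg : g ∈ Submodule.span k {g : (Fin (m * 2) → V) [⋀^Fin m × Fin 2]→ₗ[k] k |
      ∃ B : Fin m → (Fin (m * 2) → V) [⋀^Fin 2]→ₗ[k] k, (∀ l, IsTateClassTwo ρ χ (B l)) ∧
        ∀ v, g v = ∑ σ : Equiv.Perm (Fin m × Fin 2), ((Equiv.Perm.sign σ : ℤ) : k) *
          ∏ l, B l ![v (σ (l, 0)), v (σ (l, 1))]}) :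
    ∃ ψ ∈ Submodule.span k (PT ρ χ m), ∀ u, ψ u = g (sg u) := by
  classical
  induction hg using Submodule.span_induction with
  | mem g hg =>
    obtain ⟨B, hB, hg⟩ := hg
    refine ⟨∑ σ : Equiv.Perm (Fin m × Fin 2), ((Equiv.Perm.sign σ : ℤ) : k) •
      mmG σ (fun l => (toBil (B l)).compl₁₂
        (LinearMap.single k (fun _ => V) (finProdFinEquiv (σ (l, 0))))
        (LinearMap.single k (fun _ => V) (finProdFinEquiv (σ (l, 1))))), ?_, fun u => ?_⟩
    · refine Submodule.sum_mem _ fun σ _ => Submodule.smul_mem _ _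
        (Submodule.subset_span ⟨σ, _, fun l => ?_, rfl⟩)
      obtain ⟨Δ, hΔ, h⟩ := hB l
      refine ⟨Δ, hΔ, fun s hs a c => ?_⟩
      rw [LinearMap.compl₁₂_apply, LinearMap.compl₁₂_apply, toBil_apply, toBil_apply,
        ← h s hs]
      congr 1
      funext j i
      fin_cases j
      · change (Pi.single (finProdFinEquiv (σ (l, 0))) (ρ s a) : Fin (m * 2) → V) i =
          ρ s ((Pi.single (finProdFinEquiv (σ (l, 0))) a : Fin (m * 2) → V) i)
        by_cases hi : i = finProdFinEquiv (σ (l, 0))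
        · rw [hi, Pi.single_eq_same, Pi.single_eq_same]
        · rw [Pi.single_eq_of_ne hi, Pi.single_eq_of_ne hi, map_zero]
      · change (Pi.single (finProdFinEquiv (σ (l, 1))) (ρ s c) : Fin (m * 2) → V) i =
          ρ s ((Pi.single (finProdFinEquiv (σ (l, 1))) c : Fin (m * 2) → V) i)
        by_cases hi : i = finProdFinEquiv (σ (l, 1))
        · rw [hi, Pi.single_eq_same, Pi.single_eq_same]
        · rw [Pi.single_eq_of_ne hi, Pi.single_eq_of_ne hi, map_zero]
    · rw [hg]
      have h2 : ∀ (S : Finset (Equiv.Perm (Fin m × Fin 2)))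
          (F : Equiv.Perm (Fin m × Fin 2) → MultilinearMap k (fun _ : Fin m × Fin 2 => V) k),
          (∑ σ ∈ S, ((Equiv.Perm.sign σ : ℤ) : k) • F σ) u =
          ∑ σ ∈ S, ((Equiv.Perm.sign σ : ℤ) : k) * F σ u := by
        intro S F
        induction S using Finset.induction_on with
        | empty => rfl
        | insert j s hj ih =>
          rw [Finset.sum_insert hj, Finset.sum_insert hj, ← ih]
          rfl
      rw [h2]
      refine Finset.sum_congr rfl fun σ _ => ?_
      rw [mmG_apply]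
      rfl
  | zero => exact ⟨0, Submodule.zero_mem _, fun u => rfl⟩
  | add a b _ _ ha hb =>
    obtain ⟨ψ, hψ, h1⟩ := ha
    obtain ⟨ψ', hψ', h2⟩ := hb
    refine ⟨ψ + ψ', Submodule.add_mem _ hψ hψ', fun u => ?_⟩
    rw [AlternatingMap.add_apply, ← h1, ← h2]
    rfl
  | smul c a _ ha =>
    obtain ⟨ψ, hψ, h1⟩ := ha
    refine ⟨c • ψ, Submodule.smul_mem _ _ hψ, fun u => ?_⟩
    rw [AlternatingMap.smul_apply, ← h1]
    rfl

/-- If the Tate classes on the powers are generated in degree two, so are the Tate forms. -/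
theorem tate_mem_of_gen (hg : GeneratedInDegreeTwo ρ χ) {m : ℕ}
    {φ : MultilinearMap k (fun _ : Fin m × Fin 2 => V) k} (hφ : IsTate ρ χ m φ) :
    φ ∈ Submodule.span k (PT ρ χ m) := by
  classical
  let F : MultilinearMap k (fun _ : Fin m × Fin 2 => Fin (m * 2) → V) k :=
    φ.compLinearMap (fun l => LinearMap.proj (finProdFinEquiv l))
  have hF : ∀ v, F v = φ (fun l => v l (finProdFinEquiv l)) := fun v => rfl
  let f := MultilinearMap.alternatization F
  have hf : ∀ v, f v = ∑ σ : Equiv.Perm (Fin m × Fin 2), ((Equiv.Perm.sign σ : ℤ) : k) *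
      φ (fun l => v (σ l) (finProdFinEquiv l)) := by
    intro v
    simp only [f]
    rw [MultilinearMap.alternatization_apply]
    refine Finset.sum_congr rfl fun σ _ => ?_
    rw [Units.smul_def, zsmul_eq_mul]
    rfl
  have hT : IsTateClass ρ χ f := by
    obtain ⟨Δ, hΔ, h⟩ := hφ
    refine ⟨Δ, hΔ, fun s hs v => ?_⟩
    rw [hf, hf, Finset.mul_sum]
    refine Finset.sum_congr rfl fun σ _ => ?_
    rw [h s hs (fun l => v (σ l) (finProdFinEquiv l))]
    ring
  obtain ⟨ψ, hψ, h1⟩ := sg_span (hg (m * 2) m f hT)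
  have h2 : ψ = φ := by
    refine MultilinearMap.ext fun u => ?_
    rw [h1, hf, Finset.sum_eq_single 1]
    · rw [Equiv.Perm.sign_one, Units.val_one, Int.cast_one, one_mul]
      congr 1
      funext l
      exact sg_self u l
    · intro σ _ hσ
      obtain ⟨l, hl⟩ : ∃ l, σ l ≠ l := by
        by_contra hcon
        push Not at hcon
        exact hσ (Equiv.ext hcon)
      rw [φ.map_coord_zero l (sg_ne u hl), mul_zero]
    · intro h
      exact absurd (Finset.mem_univ _) h
  rwa [← h2]

end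

end Pool.Agent.E8helper1.AP
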