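import Mathlib
import Pool.Agent.E8helper1.AP.FromAlt

/-!
# Extension of scalars
-/

set_option autoImplicit false
set_option linter.unusedSectionVars false

namespace Pool.Agent.E8helper1.AP

open Module TensorProduct Pool.Agent.H204R3.CM Pool.Agent.H204R3.SP Pool.Agent.H204R3.GP
  Pool.Agent.Y126.AV Pool.Agent.Y126.Notions Pool.Agent.W522.U

noncomputable section

variable {k Ω : Type} [Field k] [CharZero k] [Field Ω] [CharZero Ω] [Algebra k Ω]
  {V Γ : Type} [AddCommGroup V] [Module k V] [FiniteDimensional k V] [Group Γ]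
  {ρ : Representation k Γ V} {χ : Γ →* k}

theorem ext_one {κ : Type} [Fintype κ] [DecidableEq κ]
    {φ ψ : MultilinearMap Ω (fun _ : κ => Ω ⊗[k] V) Ω}
    (h : ∀ v : κ → V, φ (fun l => (1 : Ω) ⊗ₜ[k] v l) = ψ (fun l => (1 : Ω) ⊗ₜ[k] v l)) : φ = ψ := by
  refine Basis.ext_multilinear (fun _ => (Module.finBasis k V).baseChange Ω) fun I => ?_
  have h1 := h (fun l => Module.finBasis k V (I l))
  simp only [Basis.baseChange_apply]
  exact h1

theorem isTate2_bcb {B : V →ₗ[k] V →ₗ[k] k} (hB : IsTate2 ρ χ B) :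
    IsTate2 (bcr ρ Ω) (bcc χ Ω) (bcb Ω B) := by
  obtain ⟨Δ, hΔ, h⟩ := hB
  refine ⟨Δ, hΔ, fun s hs u v => ?_⟩
  induction u with
  | zero => simp only [map_zero, LinearMap.zero_apply, mul_zero]
  | add u u' hu hu' => simp only [map_add, LinearMap.add_apply, hu, hu', mul_add]
  | tmul a u =>
    induction v with
    | zero => simp only [map_zero, mul_zero]
    | add v v' hv hv' => simp only [map_add, hv, hv', mul_add]
    | tmul c v =>
      rw [bcr_tmul, bcr_tmul, bcb_tmul, bcb_tmul, h s hs, bcc_apply, mul_smul,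
        Algebra.smul_def (χ s)]

theorem isTate2_of_bcb {B : V →ₗ[k] V →ₗ[k] k} (hB : IsTate2 (bcr ρ Ω) (bcc χ Ω) (bcb Ω B)) :
    IsTate2 ρ χ B := by
  obtain ⟨Δ, hΔ, h⟩ := hB
  refine ⟨Δ, hΔ, fun s hs u v => ?_⟩
  have h1 := h s hs ((1 : Ω) ⊗ₜ[k] u) ((1 : Ω) ⊗ₜ[k] v)
  rw [bcr_tmul, bcr_tmul, bcb_one, bcb_one, bcc_apply, ← map_mul] at h1
  exact (algebraMap k Ω).injective h1

/-- The extension of scalars of the forms generated in degree two. -/
theorem bcm_span {m : ℕ} {φ : MultilinearMap k (fun _ : Fin m × Fin 2 => V) k}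
    (hφ : φ ∈ Submodule.span k (PT ρ χ m)) :
    bcm (Ω := Ω) (Module.finBasis k V) φ ∈ Submodule.span Ω (PT (bcr ρ Ω) (bcc χ Ω) m) := by
  classical
  have key : ∃ ψ ∈ Submodule.span Ω (PT (bcr ρ Ω) (bcc χ Ω) m),
      ∀ v : Fin m × Fin 2 → V, ψ (fun l => (1 : Ω) ⊗ₜ[k] v l) = algebraMap k Ω (φ v) := by
    induction hφ using Submodule.span_induction with
    | mem φ hφ =>
      obtain ⟨σ, B, hB, rfl⟩ := hφ
      refine ⟨mmG σ (fun l => bcb Ω (B l)), Submodule.subset_span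
        ⟨σ, _, fun l => isTate2_bcb (hB l), rfl⟩, fun v => ?_⟩
      rw [mmG_apply, mmG_apply, map_prod]
      exact Finset.prod_congr rfl fun s _ => bcb_one _ _ _
    | zero => exact ⟨0, Submodule.zero_mem _, fun v => by
        change (0 : Ω) = algebraMap k Ω 0
        rw [map_zero]⟩
    | add a b _ _ ha hb =>
      obtain ⟨ψ, hψ, h1⟩ := ha
      obtain ⟨ψ', hψ', h2⟩ := hb
      refine ⟨ψ + ψ', Submodule.add_mem _ hψ hψ', fun v => ?_⟩
      change ψ _ + ψ' _ = algebraMap k Ω (a v + b v)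
      rw [h1, h2, map_add]
    | smul c a _ ha =>
      obtain ⟨ψ, hψ, h1⟩ := ha
      refine ⟨algebraMap k Ω c • ψ, Submodule.smul_mem _ _ hψ, fun v => ?_⟩
      change algebraMap k Ω c * ψ _ = algebraMap k Ω (c * a v)
      rw [h1, map_mul]
  obtain ⟨ψ, hψ, h⟩ := key
  have h1 : bcm (Ω := Ω) (Module.finBasis k V) φ = ψ := ext_one fun v => by rw [bcm_one, h]
  rwa [h1]

/-- A component of a form. -/
def cmp {κ : Type} {β : Type} (w : Basis β k Ω)
    (φ : MultilinearMap Ω (fun _ : κ => Ω ⊗[k] V) Ω) (i : β) :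
    MultilinearMap k (fun _ : κ => V) k :=
  (w.coord i).compMultilinearMap
    ((φ.restrictScalars k).compLinearMap (fun _ => TensorProduct.mk k Ω V 1))

theorem cmp_apply {κ : Type} {β : Type} (w : Basis β k Ω)
    (φ : MultilinearMap Ω (fun _ : κ => Ω ⊗[k] V) Ω) (i : β) (v : κ → V) :
    cmp w φ i v = w.repr (φ (fun l => (1 : Ω) ⊗ₜ[k] v l)) i := rfl

theorem cmp_tate {m : ℕ} {β : Type} (w : Basis β k Ω)
    {φ : MultilinearMap Ω (fun _ : Fin m × Fin 2 => Ω ⊗[k] V) Ω}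
    (hφ : IsTate (bcr ρ Ω) (bcc χ Ω) m φ) (i : β) : IsTate ρ χ m (cmp w φ i) := by
  obtain ⟨Δ, hΔ, h⟩ := hφ
  refine ⟨Δ, hΔ, fun s hs v => ?_⟩
  rw [cmp_apply, cmp_apply]
  have h1 := h s hs (fun l => (1 : Ω) ⊗ₜ[k] v l)
  simp only [bcr_tmul] at h1
  rw [h1, bcc_apply, ← map_pow, ← Algebra.smul_def, map_smul, Finsupp.smul_apply, smul_eq_mul]

/-- A form is a combination of its components. -/
theorem cmp_sum {κ : Type} [Fintype κ] [DecidableEq κ] {β : Type} (w : Basis β k Ω)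
    (φ : MultilinearMap Ω (fun _ : κ => Ω ⊗[k] V) Ω) :
    ∃ F : Finset β, ∀ v, φ v = ∑ i ∈ F, w i * bcm (Ω := Ω) (Module.finBasis k V) (cmp w φ i) v := by
  classical
  let b := Module.finBasis k V
  let F : Finset β := Finset.univ.biUnion (fun I : κ → Fin (finrank k V) =>
    (w.repr (φ (fun l => (1 : Ω) ⊗ₜ[k] b (I l)))).support)
  refine ⟨F, ?_⟩
  have hsum : ∀ (S : Finset β) (v : κ → Ω ⊗[k] V),
      (∑ i ∈ S, w i • bcm (Ω := Ω) b (cmp w φ i)) v = ∑ i ∈ S, w i * bcm (Ω := Ω) b (cmp w φ i) v := by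
    intro S v
    induction S using Finset.induction_on with
    | empty => rfl
    | insert j s hj ih =>
      rw [Finset.sum_insert hj, Finset.sum_insert hj, ← ih]
      rfl
  have h1 : φ = ∑ i ∈ F, w i • bcm (Ω := Ω) b (cmp w φ i) := by
    refine Basis.ext_multilinear (fun _ => b.baseChange Ω) fun I => ?_
    rw [hsum]
    simp only [bcm_basis, cmp_apply]
    simp only [Basis.baseChange_apply]
    have h2 : (w.repr (φ (fun l => (1 : Ω) ⊗ₜ[k] b (I l)))).support ⊆ F := by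
      intro i hi
      exact Finset.mem_biUnion.2 ⟨I, Finset.mem_univ _, hi⟩
    conv_lhs => rw [← w.linearCombination_repr (φ (fun l => (1 : Ω) ⊗ₜ[k] b (I l))),
      Finsupp.linearCombination_apply, Finsupp.sum_of_support_subset _ h2 (fun i a => a • w i)
        (fun i _ => zero_smul _ _)]
    refine Finset.sum_congr rfl fun i _ => ?_
    rw [Algebra.smul_def, mul_comm]
  intro v
  conv_lhs => rw [h1]
  exact hsum F v

/-- **Operators that are skew for the Tate forms of degree two are in the Lie algebra.** -/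
theorem hgen_of (hg : GeneratedInDegreeTwo ρ χ) (x : Module.End Ω (Ω ⊗[k] V))
    (hx : ∀ b, IsTate2 (bcr ρ Ω) (bcc χ Ω) b → ∀ u v, b (x u) v + b u (x v) = 0) :
    x ∈ lieT (bcr ρ Ω) (bcc χ Ω) := by
  classical
  intro m φ hφ v
  obtain ⟨F, hF⟩ := cmp_sum (Basis.ofVectorSpace k Ω) φ
  simp only [hF]
  rw [Finset.sum_comm]
  refine Finset.sum_eq_zero fun i _ => ?_
  rw [← Finset.mul_sum, pt_kill hx (bcm_span (tate_mem_of_gen hg (cmp_tate _ hφ i))) v, mul_zero]

end

end Pool.Agent.E8helper1.AP
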