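import Mathlib
import Pool.Agent.E8helper1.AP.Base

/-!
# Classes fixed by a normal subgroup
-/

set_option autoImplicit false
set_option linter.unusedSectionVars false

namespace Pool.Agent.E8helper1.AP

open Module TensorProduct Pool.Agent.H204R3.CM Pool.Agent.H204R3.SP Pool.Agent.H204R3.GP
  Pool.Agent.Y126.AV Pool.Agent.W522.U
open Pool.Agent.Y126.Notions (GeneratedInDegreeTwo PotentiallySemisimple StronglyIrreducible
  IsSymplectic extend)
open Pool.Agent.W528.Tor (AltDual)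

noncomputable section

variable {k V Γ : Type} [Field k] [CharZero k] [AddCommGroup V] [Module k V]
  [FiniteDimensional k V] [Group Γ] {ρ : Representation k Γ V} {χ : Γ →* k} {H : Subgroup Γ}

/-- The conclusions of the theorem over the algebraic closure. -/
theorem core {ω : V →ₗ[k] V →ₗ[k] k} (halt : ∀ v, ω v v = 0)
    (hnd : ∀ u, (∀ v, ω v u = 0) → u = 0) (hω : ∀ s u v, ω (ρ s u) (ρ s v) = χ s * ω u v)
    (hss : PotentiallySemisimple ρ) (hg : GeneratedInDegreeTwo ρ χ)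
    (hsym : ∀ U, StronglyIrreducible (extend (AlgebraicClosure k) ρ) U →
      IsSymplectic (extend (AlgebraicClosure k) ρ)
        ((algebraMap k (AlgebraicClosure k) : k →* _).comp χ) U)
    [H.Normal] (hχ : ∀ g ∈ H, χ g = 1)
    (hinf : ∀ U, StronglyIrreducible (extend (AlgebraicClosure k) ρ) U → ∃ γ ∈ H,
      ∀ j : ℕ, 0 < j → ∃ u ∈ U, extend (AlgebraicClosure k) ρ (γ ^ j) u ≠ u) :
    TateGeneratedInDegreeTwo (sub ρ H) (chr χ H) ∧
    (∀ b, IsTate2 (sub ρ H) (chr χ H) b → IsTate2 ρ χ b) ∧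
    ∀ (r : ℕ) (_ : Odd r) (f : MultilinearMap k (fun _ : Fin r => V) k),
      (∃ Δ : Subgroup H, Δ.FiniteIndex ∧ ∀ g ∈ Δ, ∀ v, f (fun j => sub ρ H g (v j)) = f v) →
      f = 0 := by
  have h1 : ∀ U, SI (bcr ρ (AlgebraicClosure k)) U → AltDual (bcr ρ (AlgebraicClosure k))
    (bcc χ (AlgebraicClosure k)) U := hsym
  have h2 : ∀ U, SI (bcr ρ (AlgebraicClosure k)) U → ∃ γ ∈ H,
      ∀ j : ℕ, 0 < j → ∃ u ∈ U, bcr ρ (AlgebraicClosure k) (γ ^ j) u ≠ u := hinf
  have h3 : HasProj (bcr ρ (AlgebraicClosure k)) := hasProj_bcr ρ _ hss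
  have h4 := bcb_inv (Ω := AlgebraicClosure k) ρ χ ω hω
  have h5 : ∀ u, (∀ v, bcb (AlgebraicClosure k) ω u v = 0) → u = 0 := fun u hu =>
    bcb_nondeg_left ω hnd (left_nondeg ω halt hnd) u hu
  have h6 := hgen_of (Ω := AlgebraicClosure k) hg
  have h7 := closed (R := bcr ρ (AlgebraicClosure k))
    (χ := bcc χ (AlgebraicClosure k)) (H := H) (bcb (AlgebraicClosure k) ω) h5 h4 h3 h6 h1
    (fun g hg => by rw [bcc_apply, hχ g hg, map_one]) h2
  obtain ⟨a1, a2, a3⟩ := h7
  have c1 : TateGeneratedInDegreeTwo (sub ρ H) (chr χ H) :=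
    generated_of_ext (sub ρ H) (chr χ H) (AlgebraicClosure k) a1
  have c2 : ∀ b, IsTate2 (sub ρ H) (chr χ H) b → IsTate2 ρ χ b := fun b hb => by
    have e1 : IsTate2 (bcr (sub ρ H) (AlgebraicClosure k)) (bcc (chr χ H) (AlgebraicClosure k))
      (bcb (AlgebraicClosure k) b) := isTate2_bcb hb
    exact isTate2_of_bcb (a2 _ e1)
  have c3 : ∀ (r : ℕ) (_ : Odd r) (f : MultilinearMap k (fun _ : Fin r => V) k),
      (∃ Δ : Subgroup H, Δ.FiniteIndex ∧ ∀ g ∈ Δ, ∀ v, f (fun j => sub ρ H g (v j)) = f v) →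
      f = 0 := by
    rintro r hr f ⟨Δ, hΔ, hf⟩
    obtain ⟨F, hF⟩ : ∃ F, F = bcm (Ω := AlgebraicClosure k) (Module.finBasis k V) f := ⟨_, rfl⟩
    have hF1 : ∀ v : Fin r → V, F (fun l => (1 : AlgebraicClosure k) ⊗ₜ[k] v l) =
        algebraMap k (AlgebraicClosure k) (f v) := fun v => by rw [hF, bcm_one]
    have h8 : ∀ g ∈ Δ, F.compLinearMap (fun _ => bcr ρ (AlgebraicClosure k) g.1) = F := by
      intro g hg
      refine ext_one fun v => ?_
      rw [MultilinearMap.compLinearMap_apply]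
      simp only [bcr_tmul]
      rw [hF1, hF1]
      congr 1
      exact hf g hg v
    have h9 : F = 0 := a3 r hr F ⟨Δ, hΔ, fun g hg v =>
      congrArg (fun G : MultilinearMap (AlgebraicClosure k)
      (fun _ : Fin r => AlgebraicClosure k ⊗[k] V) (AlgebraicClosure k) => G v) (h8 g hg)⟩
    refine MultilinearMap.ext fun v => ?_
    have h10 := hF1 v
    rw [h9] at h10
    have h11 : algebraMap k (AlgebraicClosure k) (f v) = 0 := h10.symm
    exact (map_eq_zero _).1 h11
  exact ⟨c1, c2, c3⟩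

/-- The components of a class of degree two. -/
def cB {n : ℕ} (B : (Fin n → V) [⋀^Fin 2]→ₗ[k] k) (i j : Fin n) : V →ₗ[k] V →ₗ[k] k :=
  (toBil B).compl₁₂ (LinearMap.single k (fun _ => V) i) (LinearMap.single k (fun _ => V) j)

omit [FiniteDimensional k V] in
theorem cB_sum {n : ℕ} (B : (Fin n → V) [⋀^Fin 2]→ₗ[k] k) (v : Fin 2 → Fin n → V) :
    B v = ∑ i, ∑ j, cB B i j (v 0 i) (v 1 j) := by
  have h1 : v = ![v 0, v 1] := by
    funext i
    fin_cases i <;> rfl
  conv_lhs => rw [h1, ← toBil_apply, ← Finset.univ_sum_single (v 0),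
    ← Finset.univ_sum_single (v 1), LinearMap.map_sum₂]
  refine Finset.sum_congr rfl fun i _ => ?_
  rw [map_sum]
  rfl

omit [FiniteDimensional k V] in
theorem single_act (ρ : Representation k Γ V) {n : ℕ} (s : Γ) (i : Fin n) (a : V) :
    (fun j => ρ s ((Pi.single i a : Fin n → V) j)) = Pi.single i (ρ s a) := by
  funext j
  by_cases hj : j = i
  · rw [hj, Pi.single_eq_same, Pi.single_eq_same]
  · rw [Pi.single_eq_of_ne hj, Pi.single_eq_of_ne hj, map_zero]

omit [FiniteDimensional k V] in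
/-- Classes of degree two which are Tate classes for the normal subgroup are Tate classes. -/
theorem two_classes (h2 : ∀ b, IsTate2 (sub ρ H) (chr χ H) b → IsTate2 ρ χ b) {n : ℕ}
    {B : (Fin n → V) [⋀^Fin 2]→ₗ[k] k} (hB : IsTateClass (sub ρ H) (chr χ H) 1 B) :
    Pool.Agent.Y126.Notions.IsTateClassTwo ρ χ B := by
  have h3 : ∀ i j, IsTate2 (sub ρ H) (chr χ H) (cB B i j) := by
    intro i j
    obtain ⟨Δ, hΔ, h⟩ := hB
    refine ⟨Δ, hΔ, fun s hs a c => ?_⟩
    have h4 := h s hs ![Pi.single i a, Pi.single j c]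
    rw [pow_one] at h4
    change B ![Pi.single i (ρ s.1 a), Pi.single j (ρ s.1 c)] = chr χ H s * B ![_, _]
    change _ = chr χ H s * B ![Pi.single i a, Pi.single j c]
    rw [← h4]
    congr 1
    funext l
    fin_cases l
    · exact (single_act ρ s.1 i a).symm
    · exact (single_act ρ s.1 j c).symm
  choose Δ hΔ h4 using fun i => fun j => h2 _ (h3 i j)
  have h5 : ∀ i, (⨅ j, Δ i j).FiniteIndex := fun i => Subgroup.finiteIndex_iInf (hΔ i)
  refine ⟨⨅ i, ⨅ j, Δ i j, Subgroup.finiteIndex_iInf h5, fun s hs v => ?_⟩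
  rw [cB_sum, cB_sum, Finset.mul_sum]
  refine Finset.sum_congr rfl fun i _ => ?_
  rw [Finset.mul_sum]
  refine Finset.sum_congr rfl fun j _ => ?_
  exact h4 i j s (Subgroup.mem_iInf.1 (Subgroup.mem_iInf.1 hs i) j) _ _

omit [FiniteDimensional k V] in
/-- Alternating forms of odd degree vanish. -/
theorem odd_classes (h3 : ∀ (r : ℕ) (_ : Odd r) (f : MultilinearMap k (fun _ : Fin r => V) k),
      (∃ Δ : Subgroup H, Δ.FiniteIndex ∧ ∀ g ∈ Δ, ∀ v, f (fun j => sub ρ H g (v j)) = f v) →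
      f = 0) {n r : ℕ} (hr : Odd r) {f : (Fin n → V) [⋀^Fin r]→ₗ[k] k}
    (hf : ∃ Δ : Subgroup H, Δ.FiniteIndex ∧ ∀ g ∈ Δ, ∀ v : Fin r → Fin n → V,
      f (fun l j => ρ g.1 (v l j)) = f v) : f = 0 := by
  classical
  let fc : (Fin r → Fin n) → MultilinearMap k (fun _ : Fin r => V) k := fun c =>
    f.toMultilinearMap.compLinearMap (fun l => LinearMap.single k (fun _ : Fin n => V) (c l))
  have hfc : ∀ c, fc c = 0 := by
    intro c
    refine h3 r hr _ ?_
    obtain ⟨Δ, hΔ, hf⟩ := hf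
    refine ⟨Δ, hΔ, fun g hg v => ?_⟩
    have h1 := hf g hg (fun l => Pi.single (c l) (v l))
    change f (fun l => Pi.single (c l) (ρ g.1 (v l))) = f (fun l => Pi.single (c l) (v l))
    rw [← h1]
    congr 1
    funext l
    exact (single_act ρ g.1 (c l) (v l)).symm
  ext v
  have h1 : v = fun l => ∑ i, Pi.single i (v l i) := by
    funext l
    exact (Finset.univ_sum_single (v l)).symm
  conv_lhs => rw [h1]
  have h2 := f.toMultilinearMap.map_sum (fun l i => (Pi.single i (v l i) : Fin n → V))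
  change f.toMultilinearMap _ = _
  rw [h2, AlternatingMap.zero_apply]
  refine Finset.sum_eq_zero fun c _ => ?_
  have h4 := congrArg (fun F : MultilinearMap k (fun _ : Fin r => V) k => F fun l => v l (c l))
    (hfc c)
  exact h4

end

end Pool.Agent.E8helper1.AP
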