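import Mathlib
import Pool.Agent.Y126.Notions

/-!
# Tate classes on products of an abelian variety and another variety

`V` is the rational Tate module of an abelian variety `A` over a field with absolute Galois group
`Γ`, `ρ` the action of `Γ` on it, `χ` the cyclotomic character and `M` a cohomology group of another
variety `Z`, with the action `σ` of `Γ`. The cohomology group `H ^ r (A ^ n)` is the space of the
alternating forms in `r` variables on `V ^ n`.
-/

set_option autoImplicit false

namespace Pool.Agent.E8helper1.AP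

open TensorProduct Pool.Agent.Y126.Notions

variable {k V M Γ : Type} [Field k] [AddCommGroup V] [Module k V] [AddCommGroup M] [Module k M]
  [Group Γ]

/-- The element `F` of `H ^ r (A ^ n) ⊗ M (m)` is a Tate class: a subgroup of finite index fixes
it. -/
def IsTateOnProduct (ρ : Representation k Γ V) (χ : Γ →* k) (σ : Representation k Γ M) (m : ℕ)
    {n r : ℕ} (F : (Fin n → V) [⋀^Fin r]→ₗ[k] M) : Prop :=
  ∃ Δ : Subgroup Γ, Δ.FiniteIndex ∧ ∀ s ∈ Δ, ∀ v : Fin r → Fin n → V,
    F (fun l j => ρ s (v l j)) = χ s ^ m • σ s (F v)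

/-- The element `x` of `M (i)` is a Tate class on `Z`. -/
def IsTateOn (χ : Γ →* k) (σ : Representation k Γ M) (i : ℕ) (x : M) : Prop :=
  ∃ Δ : Subgroup Γ, Δ.FiniteIndex ∧ ∀ s ∈ Δ, χ s ^ i • σ s x = x

/-- The class `f` on `A ^ n` is (up to a nonzero rational factor) the cup product of `a` Tate classes
of degree two. -/
def IsProductOfTwo (ρ : Representation k Γ V) (χ : Γ →* k) {n r : ℕ} (a : ℕ)
    (f : (Fin n → V) [⋀^Fin r]→ₗ[k] k) : Prop :=
  ∃ (e : Fin a × Fin 2 ≃ Fin r) (B : Fin a → (Fin n → V) [⋀^Fin 2]→ₗ[k] k),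
    (∀ l, IsTateClassTwo ρ χ (B l)) ∧ ∀ v, f v = ∑ τ : Equiv.Perm (Fin a × Fin 2),
      ((Equiv.Perm.sign τ : ℤ) : k) * ∏ l, B l ![v (e (τ (l, 0))), v (e (τ (l, 1)))]

/-- The span of the products `f ⊗ x` in `H ^ r (A ^ n) ⊗ M (m)`, where `f` is a cup product of `a`
Tate classes of degree two on `A ^ n` and `x` is a Tate class in `M (i)`, `m = a + i`. -/
def productClasses (ρ : Representation k Γ V) (χ : Γ →* k) (σ : Representation k Γ M) (n r m : ℕ) :
    Submodule k ((Fin n → V) [⋀^Fin r]→ₗ[k] M) :=
  Submodule.span k {F | ∃ (a i : ℕ) (f : (Fin n → V) [⋀^Fin r]→ₗ[k] k) (x : M), m = a + i ∧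
    IsProductOfTwo ρ χ a f ∧ IsTateOn χ σ i x ∧ ∀ v, F v = f v • x}

/-- The abelian variety is independent of the variety `Z`: on each strongly irreducible subspace `U`
of the Tate module (with coefficients extended to the algebraic closure) an element of the Galois
group that acts trivially on the cohomology of `Z` and on the roots of unity acts as an operator of
infinite order. -/
def IsIndependent (ρ : Representation k Γ V) (χ : Γ →* k) (σ : Representation k Γ M) : Prop :=
  ∀ U : Submodule (AlgebraicClosure k) (AlgebraicClosure k ⊗[k] V),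
    StronglyIrreducible (extend (AlgebraicClosure k) ρ) U → ∃ γ : Γ, χ γ = 1 ∧ σ γ = 1 ∧
      ∀ j : ℕ, 0 < j → ∃ u ∈ U, extend (AlgebraicClosure k) ρ (γ ^ j) u ≠ u

end Pool.Agent.E8helper1.AP
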