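import Mathlib
import Pool.Agent.E8helper1.AP.Classes
import Pool.Agent.E8helper1.AP.Defs

/-!
# Tate classes on the products
-/

set_option autoImplicit false
set_option linter.unusedSectionVars false

namespace Pool.Agent.E8helper1.AP

open Module TensorProduct Pool.Agent.H204R3.CM Pool.Agent.H204R3.SP Pool.Agent.H204R3.GP
  Pool.Agent.Y126.AV Pool.Agent.W522.U
open Pool.Agent.Y126.Notions (GeneratedInDegreeTwo PotentiallySemisimple StronglyIrreducible
  IsSymplectic extend IsTateClassTwo)

noncomputable section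

variable {k V M Γ : Type} [Field k] [AddCommGroup V] [Module k V] [AddCommGroup M] [Module k M]
  [Group Γ]

theorem alt_sum_apply {ι N : Type} [AddCommGroup N] [Module k N] (s : Finset ι) {n r : ℕ}
    (f : ι → (Fin n → V) [⋀^Fin r]→ₗ[k] N) (w : Fin r → Fin n → V) :
    (∑ i ∈ s, f i) w = ∑ i ∈ s, f i w := by
  classical
  induction s using Finset.induction_on with
  | empty => rfl
  | insert i s hi ih => rw [Finset.sum_insert hi, Finset.sum_insert hi, AlternatingMap.add_apply, ih]

/-- Linear independence of forms. -/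
theorem indep_coeff {n r q : ℕ} {h : Fin q → (Fin n → V) [⋀^Fin r]→ₗ[k] k}
    (hi : LinearIndependent k h) {z : Fin q → M} (hz : ∀ w, ∑ j, h j w • z j = 0) (j : Fin q) :
    z j = 0 := by
  rw [← Module.forall_dual_apply_eq_zero_iff k (z j)]
  intro mu
  have h1 : ∑ j, mu (z j) • h j = 0 := by
    ext w
    rw [alt_sum_apply]
    have h2 := congrArg mu (hz w)
    rw [map_sum, map_zero] at h2
    rw [AlternatingMap.zero_apply, ← h2]
    refine Finset.sum_congr rfl fun i _ => ?_
    rw [AlternatingMap.smul_apply, map_smul, smul_eq_mul, smul_eq_mul, mul_comm]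
  exact Fintype.linearIndependent_iff.1 hi _ h1 j

/-- A finite family in terms of a linearly independent family. -/
theorem exists_indep {E : Type} [AddCommGroup E] [Module k E] {s : ℕ} (f1 : Fin s → E) :
    ∃ (q : ℕ) (h : Fin q → E) (c : Fin s → Fin q → k), LinearIndependent k h ∧
      (∀ i, h i ∈ Submodule.span k (Set.range f1)) ∧ ∀ j, f1 j = ∑ i, c j i • h i := by
  let H : Submodule k E := Submodule.span k (Set.range f1)
  have hH : FiniteDimensional k H := FiniteDimensional.span_of_finite k (Set.finite_range _)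
  let h := Module.finBasis k H
  refine ⟨finrank k H, fun i => (h i : E),
    fun j i => h.repr ⟨f1 j, Submodule.subset_span ⟨j, rfl⟩⟩ i, ?_, fun i => (h i).2, fun j => ?_⟩
  · exact h.linearIndependent.map' H.subtype H.ker_subtype
  · have h4 := congrArg (fun x : H => (x : E))
      (h.sum_repr ⟨f1 j, Submodule.subset_span ⟨j, rfl⟩⟩)
    simp only [Submodule.coe_sum, Submodule.coe_smul] at h4
    exact h4.symm

/-- The expansion of a class with values in a vector space. -/
theorem exists_expansion [FiniteDimensional k V] {n r : ℕ} (F : (Fin n → V) [⋀^Fin r]→ₗ[k] M)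
    (P : Submodule k ((Fin n → V) [⋀^Fin r]→ₗ[k] k))
    (hP : ∀ π : M →ₗ[k] k, π.compAlternatingMap F ∈ P) :
    ∃ (q : ℕ) (h : Fin q → (Fin n → V) [⋀^Fin r]→ₗ[k] k) (z : Fin q → M),
      LinearIndependent k h ∧ (∀ j, h j ∈ P) ∧ ∀ w, F w = ∑ j, h j w • z j := by
  classical
  let b := Pi.basis (fun _ : Fin n => Module.finBasis k V)
  -- the span of the values
  let S : Submodule k M := Submodule.span k
    (Set.range fun I : Fin r → (_ : Fin n) × Fin (finrank k V) => F (fun l => b (I l)))
  have hS : FiniteDimensional k S := FiniteDimensional.span_of_finite k (Set.finite_range _)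
  have hval : ∀ w, F w ∈ S := by
    intro w
    have h1 : w = fun l => ∑ p, b.repr (w l) p • b p := funext fun l => (b.sum_repr (w l)).symm
    rw [h1]
    have h2 := F.toMultilinearMap.map_sum (fun l p => b.repr (w l) p • b p)
    change F.toMultilinearMap _ ∈ S
    rw [h2]
    refine Submodule.sum_mem _ fun I _ => ?_
    rw [MultilinearMap.map_smul_univ]
    exact Submodule.smul_mem _ _ (Submodule.subset_span ⟨I, rfl⟩)
  obtain ⟨pr, hpr⟩ := S.subtype.exists_leftInverse_of_injective S.ker_subtype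
  have hpr' : ∀ x : M, x ∈ S → ((pr x : S) : M) = x := by
    intro x hx
    have := LinearMap.congr_fun hpr ⟨x, hx⟩
    rw [LinearMap.comp_apply, LinearMap.id_apply] at this
    change pr x = _ at this
    rw [this]
  let y := Module.finBasis k S
  let f1 : Fin (finrank k S) → (Fin n → V) [⋀^Fin r]→ₗ[k] k := fun j =>
    ((y.coord j).comp pr).compAlternatingMap F
  have hf1 : ∀ w, F w = ∑ j, f1 j w • (y j : M) := by
    intro w
    have h1 : pr (F w) = ∑ j, y.repr (pr (F w)) j • y j := (y.sum_repr _).symm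
    have h2 := congrArg (fun x : S => (x : M)) h1
    rw [hpr' _ (hval w)] at h2
    rw [h2]
    simp only [Submodule.coe_sum, Submodule.coe_smul]
    rfl
  obtain ⟨q, h, c, hli, hsp, hc⟩ := exists_indep (k := k) f1
  have hP' : Submodule.span k (Set.range f1) ≤ P := by
    refine Submodule.span_le.2 ?_
    rintro _ ⟨j, rfl⟩
    exact hP _
  refine ⟨q, h, fun i => ∑ j, c j i • (y j : M), hli, fun i => hP' (hsp i), fun w => ?_⟩
  rw [hf1 w]
  have h3 : ∀ j, f1 j w = ∑ i, c j i * h i w := by
    intro j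
    have h4 := congrArg (fun f : (Fin n → V) [⋀^Fin r]→ₗ[k] k => f w) (hc j)
    rw [alt_sum_apply] at h4
    exact h4
  simp only [h3, Finset.sum_smul, Finset.smul_sum, smul_smul]
  rw [Finset.sum_comm]
  refine Finset.sum_congr rfl fun i _ => Finset.sum_congr rfl fun j _ => ?_
  rw [mul_comm]

theorem chi_ne_zero (χ : Γ →* k) (s : Γ) : χ s ≠ 0 := by
  intro h
  have h1 : χ s * χ s⁻¹ = 1 := by rw [← map_mul, mul_inv_cancel, map_one]
  rw [h, zero_mul] at h1
  exact zero_ne_one h1

/-- Products of Tate classes of degree two are Tate classes. -/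
theorem tate_of_two {ρ : Representation k Γ V} {χ : Γ →* k} {n r a : ℕ}
    {f : (Fin n → V) [⋀^Fin r]→ₗ[k] k} (hf : IsProductOfTwo ρ χ a f) :
    ∃ Δ : Subgroup Γ, Δ.FiniteIndex ∧ ∀ s ∈ Δ, ∀ v : Fin r → Fin n → V,
      f (fun l j => ρ s (v l j)) = χ s ^ a * f v := by
  obtain ⟨e, B, hB, hf⟩ := hf
  choose Δ hΔ h using hB
  refine ⟨⨅ l, Δ l, Subgroup.finiteIndex_iInf hΔ, fun s hs v => ?_⟩
  rw [hf, hf, Finset.mul_sum]
  refine Finset.sum_congr rfl fun τ _ => ?_
  have h1 : ∀ l, B l ![fun j => ρ s (v (e (τ (l, 0))) j), fun j => ρ s (v (e (τ (l, 1))) j)] =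
      χ s * B l ![v (e (τ (l, 0))), v (e (τ (l, 1)))] := by
    intro l
    rw [← h l s (Subgroup.mem_iInf.1 hs l)]
    congr 1
    funext i j
    fin_cases i <;> rfl
  rw [Finset.prod_congr rfl fun l _ => h1 l, Finset.prod_mul_distrib, Finset.prod_const,
    Finset.card_univ, Fintype.card_fin]
  ring

/-- The span of the products is contained in the Tate classes. -/
theorem tate_span {ρ : Representation k Γ V} {χ : Γ →* k} {n r a : ℕ}
    {f : (Fin n → V) [⋀^Fin r]→ₗ[k] k}
    (hf : f ∈ Submodule.span k {f : (Fin n → V) [⋀^Fin r]→ₗ[k] k | IsProductOfTwo ρ χ a f}) :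
    ∃ Δ : Subgroup Γ, Δ.FiniteIndex ∧ ∀ s ∈ Δ, ∀ v : Fin r → Fin n → V,
      f (fun l j => ρ s (v l j)) = χ s ^ a * f v := by
  induction hf using Submodule.span_induction with
  | mem f hf => exact tate_of_two hf
  | zero => exact ⟨⊤, inferInstance, fun s _ v => by
      rw [AlternatingMap.zero_apply, AlternatingMap.zero_apply, mul_zero]⟩
  | add f g _ _ hf hg =>
    obtain ⟨Δ, hΔ, h⟩ := hf
    obtain ⟨Δ', hΔ', h'⟩ := hg
    refine ⟨Δ ⊓ Δ', inferInstance, fun s hs v => ?_⟩
    rw [AlternatingMap.add_apply, AlternatingMap.add_apply, h s hs.1, h' s hs.2, mul_add]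
  | smul c f _ hf =>
    obtain ⟨Δ, hΔ, h⟩ := hf
    refine ⟨Δ, hΔ, fun s hs v => ?_⟩
    rw [AlternatingMap.smul_apply, AlternatingMap.smul_apply, h s hs, smul_eq_mul, smul_eq_mul]
    ring

/-- Product classes are Tate classes. -/
theorem tate_of_product {ρ : Representation k Γ V} {χ : Γ →* k} {σ : Representation k Γ M}
    {n r m : ℕ} {F : (Fin n → V) [⋀^Fin r]→ₗ[k] M} (hF : F ∈ productClasses ρ χ σ n r m) :
    IsTateOnProduct ρ χ σ m F := by
  refine Submodule.span_induction (p := fun F _ => IsTateOnProduct ρ χ σ m F) ?_ ?_ ?_ ?_ hF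
  · rintro F ⟨a, i, f, x, rfl, hf, ⟨Δ, hΔ, hx⟩, hFv⟩
    obtain ⟨Δ', hΔ', hf'⟩ := tate_of_two hf
    refine ⟨Δ ⊓ Δ', inferInstance, fun s hs v => ?_⟩
    rw [hFv, hFv, hf' s hs.2, map_smul]
    conv_lhs => rw [← hx s hs.1]
    rw [smul_smul, smul_smul, pow_add]
    congr 1
    ring
  · exact ⟨⊤, inferInstance, fun s _ v => by simp⟩
  · rintro F G _ _ ⟨Δ, hΔ, h⟩ ⟨Δ', hΔ', h'⟩
    refine ⟨Δ ⊓ Δ', inferInstance, fun s hs v => ?_⟩
    rw [AlternatingMap.add_apply, AlternatingMap.add_apply, h s hs.1, h' s hs.2, map_add, smul_add]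
  · rintro a F _ ⟨Δ, hΔ, h⟩
    refine ⟨Δ, hΔ, fun s hs v => ?_⟩
    rw [AlternatingMap.smul_apply, AlternatingMap.smul_apply, h s hs, map_smul, smul_comm]

/-- The product of a class on `A ^ n` and of a class on `Z`. -/
theorem tens_mem {ρ : Representation k Γ V} {χ : Γ →* k} {σ : Representation k Γ M}
    {n r a i : ℕ} {f : (Fin n → V) [⋀^Fin r]→ₗ[k] k}
    (hf : f ∈ Submodule.span k {f : (Fin n → V) [⋀^Fin r]→ₗ[k] k | IsProductOfTwo ρ χ a f})
    {x : M} (hx : IsTateOn χ σ i x) :
    (LinearMap.toSpanSingleton k M x).compAlternatingMap f ∈ productClasses ρ χ σ n r (a + i) := by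
  induction hf using Submodule.span_induction with
  | mem f hf => exact Submodule.subset_span ⟨a, i, f, x, rfl, hf, hx, fun v => rfl⟩
  | zero =>
    have h1 : (LinearMap.toSpanSingleton k M x).compAlternatingMap
        (0 : (Fin n → V) [⋀^Fin r]→ₗ[k] k) = 0 := by
      ext v
      simp
    rw [h1]
    exact Submodule.zero_mem _
  | add f g _ _ hf hg =>
    have h1 : (LinearMap.toSpanSingleton k M x).compAlternatingMap (f + g) =
        (LinearMap.toSpanSingleton k M x).compAlternatingMap f +
        (LinearMap.toSpanSingleton k M x).compAlternatingMap g := by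
      ext v
      simp
    rw [h1]
    exact Submodule.add_mem _ hf hg
  | smul c f _ hf =>
    have h1 : (LinearMap.toSpanSingleton k M x).compAlternatingMap (c • f) =
        c • (LinearMap.toSpanSingleton k M x).compAlternatingMap f := by
      ext v
      simp
    rw [h1]
    exact Submodule.smul_mem _ _ hf

variable [CharZero k] [FiniteDimensional k V]

/-- **The main theorem.** -/
theorem main (ρ : Representation k Γ V) (χ : Γ →* k) (ω : V →ₗ[k] V →ₗ[k] k)
    (halt : ∀ v, ω v v = 0) (hnd : ∀ u, (∀ v, ω v u = 0) → u = 0)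
    (hω : ∀ s u v, ω (ρ s u) (ρ s v) = χ s * ω u v)
    (hss : PotentiallySemisimple ρ) (hg : GeneratedInDegreeTwo ρ χ)
    (hsym : ∀ U, StronglyIrreducible (extend (AlgebraicClosure k) ρ) U →
      IsSymplectic (extend (AlgebraicClosure k) ρ)
        ((algebraMap k (AlgebraicClosure k) : k →* _).comp χ) U)
    (σ : Representation k Γ M) (hind : IsIndependent ρ χ σ) {n r m : ℕ} (hr : r ≤ 2 * m)
    (F : (Fin n → V) [⋀^Fin r]→ₗ[k] M) :
    IsTateOnProduct ρ χ σ m F ↔ F ∈ productClasses ρ χ σ n r m := by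
  refine ⟨fun hF => ?_, tate_of_product⟩
  obtain ⟨Δ, hΔ, hF⟩ := hF
  let H : Subgroup Γ := MonoidHom.ker χ ⊓ MonoidHom.ker σ
  have hHn : H.Normal := inferInstance
  have hHχ : ∀ g ∈ H, χ g = 1 := fun g hg => hg.1
  have hHσ : ∀ g ∈ H, σ g = 1 := fun g hg => hg.2
  obtain ⟨c1, c2, c3⟩ := core (H := H) halt hnd hω hss hg hsym hHχ (fun U hU => by
    obtain ⟨γ, h1, h2, h3⟩ := hind U hU
    exact ⟨γ, ⟨h1, h2⟩, h3⟩)
  -- the components are fixed by a subgroup of finite index of the normal subgroup
  have hcomp : ∀ π : M →ₗ[k] k, ∀ g ∈ Δ.subgroupOf H, ∀ v : Fin r → Fin n → V,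
      π.compAlternatingMap F (fun l j => ρ g.1 (v l j)) = π.compAlternatingMap F v := by
    intro π g hg v
    rw [LinearMap.compAlternatingMap_apply, LinearMap.compAlternatingMap_apply, hF g.1 hg v,
      hHχ g.1 g.2, one_pow, one_smul, hHσ g.1 g.2]
    rfl
  rcases Nat.even_or_odd r with hev | hodd
  · obtain ⟨a, ha⟩ := hev
    have ha2 : a * 2 = r := by omega
    obtain ⟨i, rfl⟩ : ∃ i, m = a + i := ⟨m - a, by omega⟩
    let e : Fin a × Fin 2 ≃ Fin r := finProdFinEquiv.trans (finCongr ha2)
    obtain ⟨q, h, z, hli, hh, hz⟩ := exists_expansion F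
      (Submodule.span k {f : (Fin n → V) [⋀^Fin r]→ₗ[k] k | IsProductOfTwo ρ χ a f}) (by
        intro π
        obtain ⟨f, hf⟩ : ∃ f, f = π.compAlternatingMap F := ⟨_, rfl⟩
        rw [← hf]
        have h1 := c1 n a (f.domDomCongr e.symm) ⟨Δ.subgroupOf H, inferInstance, fun g hg v => by
          have h2 : chr χ H g = 1 := hHχ g.1 g.2
          rw [h2, one_pow, one_mul, AlternatingMap.domDomCongr_apply,
            AlternatingMap.domDomCongr_apply, hf]
          exact hcomp π g hg _⟩
        have h3 := Submodule.mem_map_of_mem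
          (f := (AlternatingMap.domDomCongrₗ k e).toLinearMap) h1
        rw [Submodule.map_span] at h3
        have h4 : (AlternatingMap.domDomCongrₗ k e).toLinearMap (f.domDomCongr e.symm) = f := by
          ext v
          change f _ = f v
          congr 1
          funext l
          change v (e (e.symm l)) = v l
          rw [e.apply_symm_apply]
        rw [h4] at h3
        refine Submodule.span_mono ?_ h3
        rintro _ ⟨g, ⟨B, hB, hg⟩, rfl⟩
        exact ⟨e, B, fun l => two_classes c2 (hB l), fun v => hg _⟩)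
    have hFexp : F = ∑ j, (LinearMap.toSpanSingleton k M (z j)).compAlternatingMap (h j) := by
      ext v
      rw [alt_sum_apply, hz]
      rfl
    -- the coefficients are Tate classes
    choose Δ' hΔ' hΔ'' using fun j => tate_span (hh j)
    have hzT : ∀ j, IsTateOn χ σ i (z j) := by
      intro j
      refine ⟨Δ ⊓ ⨅ j, Δ' j, ?_, fun s hs => ?_⟩
      · have : (⨅ j, Δ' j).FiniteIndex := Subgroup.finiteIndex_iInf hΔ'
        infer_instance
      · have h1 : ∀ w, ∑ j, h j w • (χ s ^ a • z j - χ s ^ (a + i) • σ s (z j)) = 0 := by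
          intro w
          have h2 := hF s hs.1 w
          rw [hz, hz, map_sum, Finset.smul_sum] at h2
          simp only [smul_sub, Finset.sum_sub_distrib]
          rw [sub_eq_zero]
          have e1 : ∀ j, h j w • (χ s ^ a • z j) = h j (fun l j => ρ s (w l j)) • z j := by
            intro j
            rw [hΔ'' j s (Subgroup.mem_iInf.1 hs.2 j), smul_smul, mul_comm]
          have e2 : ∀ j, h j w • (χ s ^ (a + i) • σ s (z j)) =
              χ s ^ (a + i) • σ s (h j w • z j) := by
            intro j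
            rw [map_smul, smul_comm]
          rw [Finset.sum_congr rfl (fun j _ => e1 j), Finset.sum_congr rfl (fun j _ => e2 j)]
          exact h2
        have h2 := indep_coeff hli h1 j
        rw [pow_add, mul_smul, ← smul_sub] at h2
        have h3 := (smul_eq_zero.1 h2).resolve_left (pow_ne_zero _ (chi_ne_zero χ s))
        exact (sub_eq_zero.1 h3).symm
    rw [hFexp]
    exact Submodule.sum_mem _ fun j _ => tens_mem (hh j) (hzT j)
  · -- odd degree
    have h0 : F = 0 := by
      ext v
      rw [AlternatingMap.zero_apply, ← Module.forall_dual_apply_eq_zero_iff k (F v)]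
      intro π
      have h1 := odd_classes c3 hodd (f := π.compAlternatingMap F)
        ⟨Δ.subgroupOf H, inferInstance, hcomp π⟩
      exact congrArg (fun f : (Fin n → V) [⋀^Fin r]→ₗ[k] k => f v) h1
    rw [h0]
    exact Submodule.zero_mem _

end

end Pool.Agent.E8helper1.AP
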